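import Pool.Agent.Lib.MP_70b928_gt.Mu

set_option autoImplicit false

namespace Pool.Agent.Lib.MP_70b928_gt

namespace Diagram

variable {g : ℕ} (D : Diagram g)

def mateUp (t p : ℕ) : Option (ℕ × ℕ) :=
  if p < D.ps t then some (t + 1, p)
  else if D.ps t + (D.kd t).below ≤ p then some (t + 1, p - (D.kd t).below + (D.kd t).above)
  else if D.kd t = Kind.cap then some (t, 2 * D.ps t + 1 - p) else none

def mateDn : ℕ → ℕ → Option (ℕ × ℕ)
  | 0, _ => none
  | t + 1, p =>
    if p < D.ps t then some (t, p)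
    else if D.ps t + (D.kd t).above ≤ p then some (t, p - (D.kd t).above + (D.kd t).below)
    else if D.kd t = Kind.cup then some (t + 1, 2 * D.ps t + 1 - p) else none

def nx (u : ℕ) (p : ℕ × ℕ) : Option (ℕ × ℕ) :=
  if p.2 % 2 = u then D.mateUp p.1 p.2 else D.mateDn p.1 p.2

theorem nx_link {u : ℕ} (hu : u < 2) {p p' : ℕ × ℕ} (h : StrandLink D (fun _ => False) p p') :
    D.nx u p = some p' ∨ D.nx u p' = some p := by
  cases h with
  | left t k i j ht hj =>
    obtain ⟨h1, rfl, rfl⟩ := D.of_get ht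
    by_cases hp : j % 2 = u
    · left; simp [nx, hp, mateUp, hj]
    · right; simp [nx, hp, mateDn, hj]
  | right t k i r ht hr =>
    obtain ⟨h1, rfl, rfl⟩ := D.of_get ht
    have e : (D.ps t + (D.kd t).above + r) % 2 = (D.ps t + (D.kd t).below + r) % 2 := by
      have := (D.kd t).above_cases
      have := (D.kd t).below_cases
      omega
    by_cases hp : (D.ps t + (D.kd t).below + r) % 2 = u
    · left
      simp only [nx, hp, mateUp, if_true]
      rw [if_neg (by omega), if_pos (by omega)]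
      congr 2
      omega
    · right
      simp only [nx, e, hp, mateDn, if_false]
      rw [if_neg (by omega), if_pos (by omega)]
      congr 2
      omega
  | cup t i ht =>
    obtain ⟨h1, h2, rfl⟩ := D.of_get ht
    by_cases hp : D.ps t % 2 = u
    · right
      have : ¬ (D.ps t + 1) % 2 = u := by omega
      simp only [nx, this, mateDn, if_false, h2, Kind.above, if_true]
      rw [if_neg (by omega), if_neg (by omega)]
      congr 2
      omega
    · left
      simp only [nx, hp, mateDn, if_false, h2, Kind.above, if_true]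
      rw [if_neg (by omega), if_neg (by omega)]
      congr 2
      omega
  | cap t i ht =>
    obtain ⟨h1, h2, rfl⟩ := D.of_get ht
    by_cases hp : D.ps t % 2 = u
    · left
      simp only [nx, hp, mateUp, h2, Kind.below, if_true]
      rw [if_neg (by omega), if_neg (by omega)]
      congr 2
      omega
    · right
      have : (D.ps t + 1) % 2 = u := by omega
      simp only [nx, this, mateUp, h2, Kind.below, if_true]
      rw [if_neg (by omega), if_neg (by omega)]
      congr 2
      omega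
  | cross t b i ht hok e e' => exact hok.elim

theorem terminal_unique {u : ℕ} (hu : u < 2) {z z' : ℕ × ℕ} (hz : D.nx u z = none)
    (hz' : D.nx u z' = none) (h : Relation.EqvGen (StrandLink D (fun _ => False)) z z') :
    z = z' := by
  let T : ℕ × ℕ → Prop := fun a => Relation.ReflTransGen (fun a b => D.nx u a = some b) a z
  have step1 : ∀ a b, D.nx u a = some b → (T a ↔ T b) := by
    intro a b hab
    refine ⟨fun ha => ?_, fun hb => Relation.ReflTransGen.head hab hb⟩
    rcases Relation.ReflTransGen.cases_head ha with rfl | ⟨c, hc, hc'⟩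
    · rw [hz] at hab; cases hab
    · rw [hab] at hc
      cases hc
      exact hc'
  have inv : ∀ a b, Relation.EqvGen (StrandLink D (fun _ => False)) a b → (T a ↔ T b) := by
    intro a b hab
    induction hab with
    | rel _ _ h =>
      rcases D.nx_link hu h with h | h
      · exact step1 _ _ h
      · exact (step1 _ _ h).symm
    | refl => rfl
    | symm _ _ _ ih => exact ih.symm
    | trans _ _ _ _ _ ih1 ih2 => exact ih1.trans ih2
  have := (inv z z' h).mp Relation.ReflTransGen.refl
  rcases Relation.ReflTransGen.cases_head this with rfl | ⟨c, hc, -⟩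
  · rfl
  · rw [hz'] at hc; cases hc

theorem nx_end {t : ℕ} {b : Bool} (hk : D.kd t = Kind.cross b) (e : Fin 4) :
    D.nx ((D.ps t + 1 + e.val) % 2) (endPoint t (D.ps t) e) = none := by
  fin_cases e
  · simp [nx, endPoint, mateUp, hk, Kind.below]
  · have : ¬ (D.ps t + 1) % 2 = (D.ps t + 1 + 1) % 2 := by omega
    simp [nx, endPoint, mateDn, hk, Kind.above, this]
  · have : ¬ D.ps t % 2 = (D.ps t + 1) % 2 := by omega
    simp [nx, endPoint, mateDn, hk, Kind.above, this]
  · have : D.ps t % 2 = (D.ps t + 1 + 3) % 2 := by omega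
    simp [nx, endPoint, mateUp, hk, Kind.below, ← this]

theorem alt_edge (hA : Alternating D) {t t' : ℕ} {b b' : Bool} (ht : t < D.L) (ht' : t' < D.L)
    (hk : D.kd t = Kind.cross b) (hk' : D.kd t' = Kind.cross b') (e e' : Fin 4)
    (h : Relation.EqvGen (StrandLink D (fun _ => False)) (endPoint t (D.ps t) e)
      (endPoint t' (D.ps t') e')) :
    (b = true ↔ D.ps t % 2 = 0) ↔ (b' = true ↔ D.ps t' % 2 = 0) := by
  by_cases hne : (t, e) = (t', e')
  · obtain ⟨rfl, rfl⟩ := Prod.mk.inj hne
    rw [hk] at hk'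
    cases hk'
    rfl
  have h1 := hA t b _ e t' b' _ e' (by rw [D.get ht, hk]) (by rw [D.get ht', hk']) hne h
  have h2 : (D.ps t + 1 + e.val) % 2 ≠ (D.ps t' + 1 + e'.val) % 2 := by
    intro heq
    have := D.terminal_unique (Nat.mod_lt _ (by norm_num)) (D.nx_end hk e)
      (heq ▸ D.nx_end hk' e') h
    apply hne
    have key : t = t' := by
      fin_cases e <;> fin_cases e' <;> simp [endPoint] at this heq <;> omega
    subst key
    fin_cases e <;> fin_cases e' <;> simp [endPoint] at this heq ⊢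
  simp only [Nat.odd_iff] at h1
  cases b <;> cases b' <;> simp at h1 ⊢ <;> omega

theorem alt_const (hD : Connected D) (hA : Alternating D) :
    ∃ v < 2, ∀ t < D.L, ∀ b, D.kd t = Kind.cross b → (b = true ↔ D.ps t % 2 = v) := by
  let R : ℕ × ℕ → Prop → Prop := fun p v => ∃ t < D.L, ∃ b, ∃ e, D.kd t = Kind.cross b ∧
    Relation.EqvGen (StrandLink D (fun _ => False)) (endPoint t (D.ps t) e) p ∧
    ((b = true ↔ D.ps t % 2 = 0) ↔ v)
  have link : ∀ v p p', StrandLink D (fun _ => True) p p' → (R p v ↔ R p' v) := by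
    intro v p p' h
    have arc : StrandLink D (fun _ => False) p p' → (R p v ↔ R p' v) := fun h =>
      ⟨fun ⟨t, ht, b, e, hk, hr, hv⟩ => ⟨t, ht, b, e, hk, hr.trans _ _ _ (.rel _ _ h), hv⟩,
       fun ⟨t, ht, b, e, hk, hr, hv⟩ =>
        ⟨t, ht, b, e, hk, hr.trans _ _ _ (.symm _ _ (.rel _ _ h)), hv⟩⟩
    cases h with
    | left t k i j ht hj => exact arc (.left t k i j ht hj)
    | right t k i r ht hr => exact arc (.right t k i r ht hr)
    | cup t i ht => exact arc (.cup t i ht)
    | cap t i ht => exact arc (.cap t i ht)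
    | cross t₀ b₀ i ht₀ hok e₀ e₀' =>
      obtain ⟨h1, h2, rfl⟩ := D.of_get ht₀
      exact ⟨fun ⟨t, ht, b, e, hk, hr, hv⟩ => ⟨t₀, h1, b₀, e₀', h2, .refl _,
          (D.alt_edge hA ht h1 hk h2 e e₀ hr).symm.trans hv⟩,
        fun ⟨t, ht, b, e, hk, hr, hv⟩ => ⟨t₀, h1, b₀, e₀, h2, .refl _,
          (D.alt_edge hA ht h1 hk h2 e e₀' hr).symm.trans hv⟩⟩
  have inv : ∀ v p p', Relation.EqvGen (StrandLink D (fun _ => True)) p p' → (R p v ↔ R p' v) := by
    intro v p p' h
    induction h with
    | rel _ _ h => exact link v _ _ h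
    | refl => rfl
    | symm _ _ _ ih => exact ih.symm
    | trans _ _ _ _ _ ih1 ih2 => exact ih1.trans ih2
  have main : ∀ t < D.L, ∀ b, D.kd t = Kind.cross b → ∀ t' < D.L, ∀ b', D.kd t' = Kind.cross b' →
      ((b = true ↔ D.ps t % 2 = 0) ↔ (b' = true ↔ D.ps t' % 2 = 0)) := by
    intro t ht b hk t' ht' b' hk'
    have hc := hD.2 _ _ (D.endPoint_lt (D.mem_X.mpr ⟨ht, b, hk⟩) 0)
      (D.endPoint_lt (D.mem_X.mpr ⟨ht', b', hk'⟩) 0)
    obtain ⟨s, hs, c, e, hks, hr, hv⟩ := (inv _ _ _ hc).mp ⟨t, ht, b, 0, hk, .refl _, Iff.rfl⟩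
    exact hv.symm.trans (D.alt_edge hA hs ht' hks hk' e 0 hr)
  by_cases hex : ∃ t < D.L, ∃ b, D.kd t = Kind.cross b
  · obtain ⟨t₀, ht₀, b₀, hk₀⟩ := hex
    by_cases hv : (b₀ = true ↔ D.ps t₀ % 2 = 0)
    · exact ⟨0, by norm_num, fun t ht b hk => (main t ht b hk t₀ ht₀ b₀ hk₀).mpr hv⟩
    · refine ⟨1, by norm_num, fun t ht b hk => ?_⟩
      have := (main t ht b hk t₀ ht₀ b₀ hk₀).not.mpr hv
      cases b <;> simp at this ⊢ <;> omega
  · exact ⟨0, by norm_num, fun t ht b hk => absurd ⟨t, ht, b, hk⟩ hex⟩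

end Diagram

end Pool.Agent.Lib.MP_70b928_gt
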