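import Mathlib

/-!
# Link diagrams in a disk with `g` holes and the skein space of `#_g (S^1 × S^2)`

A diagram in the disk with `g` holes is put in Morse position with respect to the height function of
the plane, with all critical points, crossings and holes at different heights.  It is then a word of
horizontal slices, read from the bottom to the top.  Between two slices (at *level* `t`) the diagram
meets a horizontal line in `width t` points, the *strand points* `(t, p)`, `p < width t`, numbered
from the left; they cut the line into the *gaps* `(t, j)`, `j ≤ width t` (gap `j` has `j` strands on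
its left).  The outer boundary circle of the disk surrounds everything.
-/

set_option autoImplicit false

namespace Pool.Agent.Lib.MP_70b928_gt

/-- The kind of event in one horizontal slice: a local minimum of the diagram, a local maximum,
a crossing (`cross true`: the over-strand runs from lower left to upper right; `cross false`: from
lower right to upper left), or one of the holes of the disk.  A slice `(k, i)` is an event of kind
`k` with `i` vertical strands on its left (and any number of vertical strands on its right). -/
inductive Kind where
  | cup
  | cap
  | cross (b : Bool)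
  | hole
  deriving DecidableEq

/-- Number of strands entering the event from below. -/
def Kind.below : Kind → ℕ
  | .cup => 0
  | .cap => 2
  | .cross _ => 2
  | .hole => 0

/-- Number of strands leaving the event upwards. -/
def Kind.above : Kind → ℕ
  | .cup => 2
  | .cap => 0
  | .cross _ => 2
  | .hole => 0

/-- The number of strands at level `t`, that is after the first `t` slices of the word. -/
def width (w : List (Kind × ℕ)) (t : ℕ) : ℕ :=
  (w.take t).foldl (fun m s => m - s.1.below + s.1.above) 0

/-- A link diagram in the disk with `g` holes: a word of slices, each fitting on the strands below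
it, with no strand left at the top, and with exactly `g` hole slices. -/
structure Diagram (g : ℕ) where
  word : List (Kind × ℕ)
  fits : ∀ t k i, word[t]? = some (k, i) → i + k.below ≤ width word t
  closed : width word word.length = 0
  holes : Set.ncard {t : ℕ | ∃ i, word[t]? = some (Kind.hole, i)} = g

/-- The empty diagram in the disk with `g` holes. -/
def emptyDiagram (g : ℕ) : Diagram g where
  word := List.replicate g (Kind.hole, 0)
  fits := by
    intro t k i h
    rw [List.getElem?_replicate] at h
    split_ifs at h
    simp only [Option.some.injEq, Prod.mk.injEq] at h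
    obtain ⟨rfl, rfl⟩ := h
    simp [Kind.below]
  closed := by
    unfold width
    rw [List.take_length]
    induction g with
    | zero => rfl
    | succ n ih => simpa [List.replicate_succ, Kind.below, Kind.above] using ih
  holes := by
    have : {t : ℕ | ∃ i, (List.replicate g (Kind.hole, 0))[t]? = some (Kind.hole, i)} =
        ↑(Finset.range g) := by
      ext t
      by_cases h : t < g <;> simp [List.getElem?_replicate, h]
    rw [this, Set.ncard_coe_finset, Finset.card_range]

/-! ## The skein space -/

/-- The pure braid in which the strand at position `i` runs to the left across the `i` strands on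
its left and comes back across them on the other side (over then under, or under then over). -/
def aroundLeft (b : Bool) : ℕ → List (Kind × ℕ)
  | 0 => []
  | i + 1 => (Kind.cross b, i) :: (aroundLeft b i ++ [(Kind.cross b, i)])

/-- Local moves on words, each an isotopy of framed links in `#_g (S^1 × S^2)`: planar isotopies
(exchange of the heights of two events lying side by side, not both holes; cancelling a
minimum with a maximum; pushing a crossing across an extremum), the framed Reidemeister move I,
the Reidemeister moves II and III, and the slide of an arc across the essential sphere which is the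
double of (the horizontal arc from a hole to the outer boundary on its left) times `[-1, 1]`. -/
inductive Move : List (Kind × ℕ) → List (Kind × ℕ) → Prop
  | exchange (k k' : Kind) (i r : ℕ) (h : ¬ (k = Kind.hole ∧ k' = Kind.hole)) :
      Move [(k, i), (k', i + k.above + r)] [(k', i + k.below + r), (k, i)]
  | zigzagL (i : ℕ) : Move [(Kind.cup, i + 1), (Kind.cap, i)] []
  | zigzagR (i : ℕ) : Move [(Kind.cup, i), (Kind.cap, i + 1)] []
  | crossCap (b : Bool) (i : ℕ) :
      Move [(Kind.cross b, i + 1), (Kind.cap, i)] [(Kind.cross (!b), i), (Kind.cap, i + 1)]
  | cupCross (b : Bool) (i : ℕ) :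
      Move [(Kind.cup, i), (Kind.cross b, i + 1)] [(Kind.cup, i + 1), (Kind.cross (!b), i)]
  | framedRI (b : Bool) (i : ℕ) :
      Move [(Kind.cup, i + 1), (Kind.cross b, i), (Kind.cap, i + 1)]
        [(Kind.cup, i), (Kind.cross b, i + 1), (Kind.cap, i)]
  | RII (b : Bool) (i : ℕ) : Move [(Kind.cross b, i), (Kind.cross (!b), i)] []
  | RIII (b : Bool) (i : ℕ) :
      Move [(Kind.cross b, i), (Kind.cross b, i + 1), (Kind.cross b, i)]
        [(Kind.cross b, i + 1), (Kind.cross b, i), (Kind.cross b, i + 1)]
  | slide (b : Bool) (i : ℕ) :
      Move [(Kind.cap, i), (Kind.hole, i)] (aroundLeft b i ++ [(Kind.cap, i), (Kind.hole, i)])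

/-- The defining relations of the skein space over `ℚ(A)`, `A = X`: isotopy moves, the Kauffman
crossing relation (crossing = `a` times the vertical smoothing plus `a⁻¹` times the horizontal one,
`a = A` or `A⁻¹`) and the trivial framed unknot relation, each applied inside a diagram. -/
inductive SkeinRel (g : ℕ) : (Diagram g →₀ RatFunc ℚ) → Prop
  | move (D D' : Diagram g) (u v a b : List (Kind × ℕ)) (h : Move a b)
      (hD : D.word = u ++ a ++ v) (hD' : D'.word = u ++ b ++ v) :
      SkeinRel g (Finsupp.single D 1 - Finsupp.single D' 1)
  | kauffman (D D₀ D₁ : Diagram g) (u v : List (Kind × ℕ)) (b : Bool) (i : ℕ) (a : RatFunc ℚ)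
      (ha : a = if b then RatFunc.X else RatFunc.X⁻¹)
      (hD : D.word = u ++ [(Kind.cross b, i)] ++ v) (h₀ : D₀.word = u ++ v)
      (h₁ : D₁.word = u ++ [(Kind.cap, i), (Kind.cup, i)] ++ v) :
      SkeinRel g (Finsupp.single D 1 - Finsupp.single D₀ a - Finsupp.single D₁ a⁻¹)
  | loop (D D₀ : Diagram g) (u v : List (Kind × ℕ)) (i : ℕ)
      (hD : D.word = u ++ [(Kind.cup, i), (Kind.cap, i)] ++ v) (h₀ : D₀.word = u ++ v) :
      SkeinRel g (Finsupp.single D 1 - Finsupp.single D₀ (-RatFunc.X ^ 2 - RatFunc.X⁻¹ ^ 2))

/-- `f` is the Kauffman bracket of `D`: in the skein space (the free `ℚ(A)`-vector space on the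
diagrams modulo the relations), `D` equals `f` times the empty link. -/
def IsBracket {g : ℕ} (D : Diagram g) (f : RatFunc ℚ) : Prop :=
  Finsupp.single D 1 - Finsupp.single (emptyDiagram g) f ∈
    Submodule.span (RatFunc ℚ) {x | SkeinRel g x}

/-- The breadth `B(p / q) = B(p) - B(q)` of a rational function, where `B` of a polynomial is the
highest minus the lowest exponent; on a Laurent polynomial it is the usual breadth. -/
noncomputable def breadth (f : RatFunc ℚ) : ℤ :=
  ((f.num.natDegree : ℤ) - f.num.natTrailingDegree) -
    ((f.denom.natDegree : ℤ) - f.denom.natTrailingDegree)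

/-! ## Regions, edges and crossings of a diagram -/

/-- Two gaps at consecutive levels through which one can pass vertically without meeting `D`. -/
inductive GapLink {g : ℕ} (D : Diagram g) : ℕ × ℕ → ℕ × ℕ → Prop
  | left (t : ℕ) (k : Kind) (i j : ℕ) (h : D.word[t]? = some (k, i)) (hj : j ≤ i) :
      GapLink D (t, j) (t + 1, j)
  | right (t : ℕ) (k : Kind) (i r : ℕ) (h : D.word[t]? = some (k, i))
      (hr : i + k.below + r ≤ width D.word t) :
      GapLink D (t, i + k.below + r) (t + 1, i + k.above + r)

/-- Two gaps lie in the same region (component of the complement of `D` in the holed disk). -/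
def SameRegion {g : ℕ} (D : Diagram g) : ℕ × ℕ → ℕ × ℕ → Prop := Relation.EqvGen (GapLink D)

/-- The region of the gap `c` is external: it meets the outer boundary (it is the region of the gap
below the whole diagram) or it contains one of the holes. -/
def External {g : ℕ} (D : Diagram g) (c : ℕ × ℕ) : Prop :=
  SameRegion D c (0, 0) ∨ ∃ t i, D.word[t]? = some (Kind.hole, i) ∧ SameRegion D c (t, i)

/-- The four gaps at the corners of a crossing slice `(cross b, i)` between levels `t` and `t + 1`,
counterclockwise: south, east, north, west. -/
def corner (t i : ℕ) : Fin 4 → ℕ × ℕ := ![(t, i + 1), (t, i + 2), (t + 1, i + 1), (t, i)]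

/-- The four strand points at the ends of that crossing, counterclockwise: lower right, upper right,
upper left, lower left.  End `e` lies between corner `e` and corner `e + 1`; the odd ends form the
strand from lower left to upper right. -/
def endPoint (t i : ℕ) : Fin 4 → ℕ × ℕ := ![(t, i + 1), (t + 1, i + 1), (t + 1, i), (t, i)]

/-- Two strand points joined directly in the 4-valent graph of `D`: by an arc meeting no crossing,
or as two ends of one crossing whose slice number `t` satisfies `ok t`. -/
inductive StrandLink {g : ℕ} (D : Diagram g) (ok : ℕ → Prop) : ℕ × ℕ → ℕ × ℕ → Prop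
  | left (t : ℕ) (k : Kind) (i p : ℕ) (h : D.word[t]? = some (k, i)) (hp : p < i) :
      StrandLink D ok (t, p) (t + 1, p)
  | right (t : ℕ) (k : Kind) (i r : ℕ) (h : D.word[t]? = some (k, i))
      (hr : i + k.below + r < width D.word t) :
      StrandLink D ok (t, i + k.below + r) (t + 1, i + k.above + r)
  | cup (t i : ℕ) (h : D.word[t]? = some (Kind.cup, i)) :
      StrandLink D ok (t + 1, i) (t + 1, i + 1)
  | cap (t i : ℕ) (h : D.word[t]? = some (Kind.cap, i)) : StrandLink D ok (t, i) (t, i + 1)
  | cross (t : ℕ) (b : Bool) (i : ℕ) (h : D.word[t]? = some (Kind.cross b, i)) (ht : ok t)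
      (e e' : Fin 4) : StrandLink D ok (endPoint t i e) (endPoint t i e')

/-- `D` is nonempty and connected as a 4-valent graph. -/
def Connected {g : ℕ} (D : Diagram g) : Prop :=
  (∃ t, 0 < width D.word t) ∧
    ∀ p q : ℕ × ℕ, p.2 < width D.word p.1 → q.2 < width D.word q.1 →
      Relation.EqvGen (StrandLink D (fun _ => True)) p q

/-- `D` is alternating: of the two ends of any edge of the 4-valent graph, one is an over-pass and
the other an under-pass (end `e` of `cross b` is an over-pass when `Odd e ↔ b`). -/
def Alternating {g : ℕ} (D : Diagram g) : Prop :=
  ∀ t b i e t' b' i' e', D.word[t]? = some (Kind.cross b, i) →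
    D.word[t']? = some (Kind.cross b', i') → (t, e) ≠ (t', e') →
    Relation.EqvGen (StrandLink D (fun _ => False)) (endPoint t i e) (endPoint t' i' e') →
    ¬ ((Odd e.val ↔ b = true) ↔ (Odd e'.val ↔ b' = true))

/-- Slice number `t` is an excluded crossing: a circle through the crossing, running otherwise in
one region (that of the opposite corners `d + 1` and `d + 3`), bounds on the side of corner `d`
a disk of the holed disk: every region along the part of `D` on that side is the region containing
the circle or is not external. -/
def Excluded {g : ℕ} (D : Diagram g) (t : ℕ) : Prop :=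
  ∃ b i, D.word[t]? = some (Kind.cross b, i) ∧ ∃ d : Fin 4,
    SameRegion D (corner t i (d + 1)) (corner t i (d + 3)) ∧
    ∀ p : ℕ × ℕ,
      (Relation.EqvGen (StrandLink D (fun s => s ≠ t)) (endPoint t i d) p ∨
        Relation.EqvGen (StrandLink D (fun s => s ≠ t)) (endPoint t i (d + 3)) p) →
      ∀ c : ℕ × ℕ, (c = p ∨ c = (p.1, p.2 + 1)) → External D c →
        SameRegion D c (corner t i (d + 1))

/-- `D` is not contained in a disk with fewer holes: the `g + 1` boundary circles lie in pairwise
different regions. -/
def FillsHoles {g : ℕ} (D : Diagram g) : Prop :=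
  ∀ t i, D.word[t]? = some (Kind.hole, i) →
    ¬ SameRegion D (t, i) (0, 0) ∧
      ∀ t' i', D.word[t']? = some (Kind.hole, i') → SameRegion D (t, i) (t', i') → t = t'

/-- The link is `ℤ/2`-homologically trivial: it meets each of the `g` essential spheres (horizontal
arc from a hole to the outer boundary) in an even number of points. -/
def ModTwoTrivial {g : ℕ} (D : Diagram g) : Prop :=
  ∀ (t i : ℕ), D.word[t]? = some (Kind.hole, i) → Even i

/-- The number `n` of crossings. -/
noncomputable def crossings {g : ℕ} (D : Diagram g) : ℕ :=
  Set.ncard {t : ℕ | ∃ b i, D.word[t]? = some (Kind.cross b, i)}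

/-- The number `k(D)` of crossings adjacent to two distinct external regions. -/
noncomputable def twoExternal {g : ℕ} (D : Diagram g) : ℕ :=
  Set.ncard {t | ∃ b i, D.word[t]? = some (Kind.cross b, i) ∧ ∃ d d' : Fin 4,
    External D (corner t i d) ∧ External D (corner t i d') ∧
      ¬ SameRegion D (corner t i d) (corner t i d')}

/-- The number of crossings adjacent twice to one external region. -/
noncomputable def twiceExternal {g : ℕ} (D : Diagram g) : ℕ :=
  Set.ncard {t | ∃ b i, D.word[t]? = some (Kind.cross b, i) ∧ ∃ d d' : Fin 4,
    d ≠ d' ∧ External D (corner t i d) ∧ SameRegion D (corner t i d) (corner t i d')}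

end Pool.Agent.Lib.MP_70b928_gt
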