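import Pool.Agent.Lib.MP_70b928_gt.Defs

set_option autoImplicit false

namespace Pool.Agent.Lib.MP_70b928_gt

abbrev FF : Type := RatFunc ℚ

/-- An ultrametric degree function on `ℚ(A)`. -/
structure DegFun where
  d : FF → ℤ
  eps : ℤ
  heps : eps = 1 ∨ eps = -1
  mul : ∀ x y, x ≠ 0 → y ≠ 0 → d (x * y) = d x + d y
  add_le : ∀ x y, x ≠ 0 → y ≠ 0 → x + y ≠ 0 → d (x + y) ≤ max (d x) (d y)
  dX : d RatFunc.X = eps

namespace DegFun

variable (δ : DegFun)

theorem d_one : δ.d 1 = 0 := by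
  have := δ.mul 1 1 one_ne_zero one_ne_zero
  simp only [mul_one] at this
  omega

theorem d_neg_one : δ.d (-1) = 0 := by
  have := δ.mul (-1) (-1) (by simp) (by simp)
  simp only [mul_neg, mul_one, neg_neg] at this
  have h := δ.d_one
  omega

theorem d_neg (x : FF) : δ.d (-x) = δ.d x := by
  by_cases hx : x = 0
  · simp [hx]
  · have := δ.mul (-1) x (by simp) hx
    rw [δ.d_neg_one] at this
    simpa using this

theorem d_inv (x : FF) (hx : x ≠ 0) : δ.d x⁻¹ = -δ.d x := by
  have := δ.mul x x⁻¹ hx (inv_ne_zero hx)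
  rw [mul_inv_cancel₀ hx, δ.d_one] at this
  omega

theorem d_pow (x : FF) (hx : x ≠ 0) (n : ℕ) : δ.d (x ^ n) = n * δ.d x := by
  induction n with
  | zero => simp [δ.d_one]
  | succ n ih =>
    rw [pow_succ, δ.mul _ _ (pow_ne_zero _ hx) hx, ih]
    push_cast
    ring

/-- `x` is zero or has degree below `N`. -/
def Lt (x : FF) (N : ℤ) : Prop := x = 0 ∨ δ.d x < N

theorem Lt.add {δ : DegFun} {x y : FF} {N : ℤ} (hx : δ.Lt x N) (hy : δ.Lt y N) :
    δ.Lt (x + y) N := by
  by_cases h0 : x = 0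
  · simpa [h0] using hy
  by_cases h1 : y = 0
  · simpa [h1] using hx
  by_cases h2 : x + y = 0
  · exact Or.inl h2
  right
  have := δ.add_le x y h0 h1 h2
  rcases hx with hx | hx
  · exact absurd hx h0
  rcases hy with hy | hy
  · exact absurd hy h1
  exact lt_of_le_of_lt this (max_lt hx hy)

theorem Lt.sum {δ : DegFun} {ι : Type*} (s : Finset ι) (f : ι → FF) {N : ℤ}
    (h : ∀ i ∈ s, δ.Lt (f i) N) : δ.Lt (∑ i ∈ s, f i) N := by
  classical
  induction s using Finset.induction_on with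
  | empty => left; simp
  | insert a s ha ih =>
    rw [Finset.sum_insert ha]
    exact (h a (Finset.mem_insert_self _ _)).add
      (ih fun i hi => h i (Finset.mem_insert_of_mem hi))

theorem Lt.mul_left {δ : DegFun} {x y : FF} {N : ℤ} (hy : y ≠ 0) (hx : δ.Lt x (N - δ.d y)) :
    δ.Lt (y * x) N := by
  by_cases h0 : x = 0
  · left; simp [h0]
  rcases hx with hx | hx
  · exact absurd hx h0
  right
  rw [δ.mul _ _ hy h0]
  omega

theorem add_of_lt {δ : DegFun} {x y : FF} (hy : y ≠ 0) (hx : δ.Lt x (δ.d y)) :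
    y + x ≠ 0 ∧ δ.d (y + x) = δ.d y := by
  by_cases h0 : x = 0
  · simp [h0, hy]
  rcases hx with hx | hx
  · exact absurd hx h0
  have hne : y + x ≠ 0 := by
    intro h
    have : x = -y := by linear_combination h
    rw [this, δ.d_neg] at hx
    exact lt_irrefl _ hx
  refine ⟨hne, ?_⟩
  have h1 := δ.add_le y x hy h0 hne
  have h2 := δ.add_le (y + x) (-x) hne (neg_ne_zero.mpr h0) (by simpa using hy)
  rw [δ.d_neg] at h2
  simp only [add_neg_cancel_right] at h2
  rw [max_eq_left hx.le] at h1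
  rcases le_max_iff.mp h2 with h | h
  · omega
  · omega

end DegFun

/-- the top degree -/
noncomputable def topDeg : DegFun where
  d := RatFunc.intDegree
  eps := 1
  heps := Or.inl rfl
  mul := fun _ _ hx hy => RatFunc.intDegree_mul hx hy
  add_le := fun _ _ _ hy hxy => RatFunc.intDegree_add_le hy hxy
  dX := RatFunc.intDegree_X

noncomputable def botD (f : FF) : ℤ :=
  (f.denom.natTrailingDegree : ℤ) - f.num.natTrailingDegree

theorem botD_div (p q : Polynomial ℚ) (hp : p ≠ 0) (hq : q ≠ 0) :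
    botD (algebraMap _ FF p / algebraMap _ FF q) =
      (q.natTrailingDegree : ℤ) - p.natTrailingDegree := by
  set f : FF := algebraMap _ FF p / algebraMap _ FF q with hf
  have hf0 : f ≠ 0 := by
    rw [hf]
    exact div_ne_zero (RatFunc.algebraMap_ne_zero hp) (RatFunc.algebraMap_ne_zero hq)
  have h1 : f.num * q = p * f.denom := (RatFunc.num_mul_eq_mul_denom_iff hq).mpr hf
  have h2 := congrArg Polynomial.natTrailingDegree h1
  rw [Polynomial.natTrailingDegree_mul (RatFunc.num_ne_zero hf0) hq,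
    Polynomial.natTrailingDegree_mul hp f.denom_ne_zero] at h2
  unfold botD
  omega

theorem ntd_add (p q : Polynomial ℚ) (h : p + q ≠ 0) :
    min p.natTrailingDegree q.natTrailingDegree ≤ (p + q).natTrailingDegree := by
  apply Polynomial.le_natTrailingDegree h
  intro m hm
  rw [Polynomial.coeff_add, Polynomial.coeff_eq_zero_of_lt_natTrailingDegree
    (lt_of_lt_of_le hm (min_le_left _ _)), Polynomial.coeff_eq_zero_of_lt_natTrailingDegree
    (lt_of_lt_of_le hm (min_le_right _ _)), add_zero]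

/-- minus the bottom degree -/
noncomputable def botDeg : DegFun where
  d := botD
  eps := -1
  heps := Or.inr rfl
  mul := by
    intro x y hx hy
    have h : x * y = algebraMap _ FF (x.num * y.num) / algebraMap _ FF (x.denom * y.denom) := by
      rw [map_mul, map_mul, mul_div_mul_comm, RatFunc.num_div_denom, RatFunc.num_div_denom]
    rw [h, botD_div _ _ (mul_ne_zero (RatFunc.num_ne_zero hx) (RatFunc.num_ne_zero hy))
      (mul_ne_zero x.denom_ne_zero y.denom_ne_zero),
      Polynomial.natTrailingDegree_mul (RatFunc.num_ne_zero hx) (RatFunc.num_ne_zero hy),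
      Polynomial.natTrailingDegree_mul x.denom_ne_zero y.denom_ne_zero]
    unfold botD
    push_cast
    ring
  add_le := by
    intro x y hx hy hxy
    have hdx : algebraMap _ FF x.denom ≠ 0 := RatFunc.algebraMap_ne_zero x.denom_ne_zero
    have hdy : algebraMap _ FF y.denom ≠ 0 := RatFunc.algebraMap_ne_zero y.denom_ne_zero
    have h : x + y = algebraMap _ FF (x.num * y.denom + x.denom * y.num) /
        algebraMap _ FF (x.denom * y.denom) := by
      rw [map_add, map_mul, map_mul, map_mul, ← div_add_div _ _ hdx hdy, RatFunc.num_div_denom,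
        RatFunc.num_div_denom]
    have hn : x.num * y.denom + x.denom * y.num ≠ 0 := by
      intro h0
      rw [h0] at h
      simp [hxy] at h
    rw [h, botD_div _ _ hn (mul_ne_zero x.denom_ne_zero y.denom_ne_zero),
      Polynomial.natTrailingDegree_mul x.denom_ne_zero y.denom_ne_zero]
    have h3 := ntd_add _ _ hn
    rw [Polynomial.natTrailingDegree_mul (RatFunc.num_ne_zero hx) y.denom_ne_zero,
      Polynomial.natTrailingDegree_mul x.denom_ne_zero (RatFunc.num_ne_zero hy)] at h3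
    unfold botD
    omega
  dX := by
    unfold botD
    simp

theorem breadth_eq (f : FF) : breadth f = topDeg.d f + botDeg.d f := by
  simp only [breadth, topDeg, botDeg, botD, RatFunc.intDegree]
  ring

/-- crossing coefficient -/
noncomputable def cf (b : Bool) : FF := if b then RatFunc.X else RatFunc.X⁻¹

/-- loop value -/
noncomputable def lp : FF := -RatFunc.X ^ 2 - RatFunc.X⁻¹ ^ 2

theorem cf_ne (b : Bool) : cf b ≠ 0 := by
  cases b <;> simp [cf, RatFunc.X_ne_zero]

theorem cf_not (b : Bool) : cf (!b) = (cf b)⁻¹ := by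
  cases b <;> simp [cf]

theorem lp_eq (b : Bool) : lp = -(cf b) ^ 2 - (cf b)⁻¹ ^ 2 := by
  cases b
  · simp only [cf, lp, Bool.false_eq_true, if_false, inv_inv]; ring
  · simp [cf, lp]

/-- quantum dimensions -/
noncomputable def qd : ℕ → FF
  | 0 => 1
  | 1 => lp
  | n + 2 => lp * qd (n + 1) - qd n

theorem qd_rel (b : Bool) (a : ℕ) :
    cf b * qd a + (cf b)⁻¹ * qd (a + 1) = (-1) ^ (a + 1) * (cf b)⁻¹ ^ (2 * a + 3) := by
  have h := cf_ne b
  induction a with
  | zero =>
    simp only [qd, lp_eq b, Nat.mul_zero, Nat.zero_add]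
    field_simp
    ring
  | succ a ih =>
    have e : (-1 : FF) ^ (a + 1 + 1) * (cf b)⁻¹ ^ (2 * (a + 1) + 3) =
        -((cf b)⁻¹ ^ 2) * ((-1) ^ (a + 1) * (cf b)⁻¹ ^ (2 * a + 3)) := by ring
    rw [e, ← ih, qd, lp_eq b]
    field_simp
    ring

theorem qd_rel' (b : Bool) (a : ℕ) :
    (cf b)⁻¹ * qd a + cf b * qd (a + 1) = (-1) ^ (a + 1) * (cf b) ^ (2 * a + 3) := by
  have := qd_rel (!b) a
  rwa [cf_not, inv_inv] at this

namespace DegFun

variable (δ : DegFun)

theorem d_cf (b : Bool) : δ.d (cf b) = if b then δ.eps else -δ.eps := by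
  cases b
  · simp [cf, δ.d_inv _ RatFunc.X_ne_zero, δ.dX]
  · simp [cf, δ.dX]

theorem d_lp : lp ≠ 0 ∧ δ.d lp = 2 := by
  obtain ⟨b, hb⟩ : ∃ b, δ.d (cf b) = 1 := by
    rcases δ.heps with h | h
    · exact ⟨true, by simp [d_cf, h]⟩
    · exact ⟨false, by simp [d_cf, h]⟩
  have h1 : δ.d (-(cf b) ^ 2) = 2 := by
    rw [δ.d_neg, δ.d_pow _ (cf_ne b), hb]; norm_num
  have h2 : δ.d (-((cf b)⁻¹ ^ 2)) = -2 := by
    rw [δ.d_neg, δ.d_pow _ (inv_ne_zero (cf_ne b)), δ.d_inv _ (cf_ne b), hb]; norm_num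
  have := add_of_lt (δ := δ) (x := -((cf b)⁻¹ ^ 2)) (y := -(cf b) ^ 2)
    (neg_ne_zero.mpr (pow_ne_zero _ (cf_ne b))) (Or.inr (by rw [h1, h2]; norm_num))
  rw [lp_eq b, sub_eq_add_neg]
  rw [h1] at this
  exact this

theorem d_qd_aux (n : ℕ) : (qd n ≠ 0 ∧ δ.d (qd n) = 2 * n) ∧
    (qd (n + 1) ≠ 0 ∧ δ.d (qd (n + 1)) = 2 * (n + 1)) := by
  induction n with
  | zero => exact ⟨⟨one_ne_zero, by simp [qd, δ.d_one]⟩, by simpa [qd] using δ.d_lp⟩
  | succ n ih =>
    refine ⟨by simpa using ih.2, ?_⟩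
    have h1 : δ.d (lp * qd (n + 1)) = 2 * (n + 2) := by
      rw [δ.mul _ _ δ.d_lp.1 ih.2.1, δ.d_lp.2, ih.2.2]; ring
    have := add_of_lt (δ := δ) (x := -qd n) (y := lp * qd (n + 1))
      (mul_ne_zero δ.d_lp.1 ih.2.1) (Or.inr (by rw [h1, δ.d_neg, ih.1.2]; omega))
    rw [h1] at this
    rw [qd, sub_eq_add_neg]
    refine ⟨this.1, ?_⟩
    rw [this.2]
    push_cast
    ring

theorem d_qd (n : ℕ) : δ.d (qd n) = 2 * n := (δ.d_qd_aux n).1.2

end DegFun

theorem qd_ne (n : ℕ) : qd n ≠ 0 := (topDeg.d_qd_aux n).1.1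

end Pool.Agent.Lib.MP_70b928_gt
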