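import Pool.Agent.Lib.MP_70b928_gt.Geom

set_option autoImplicit false

namespace Pool.Agent.Lib.MP_70b928_gt

theorem card_le_of_lin {ι κ : Type} (V : Finset ι) (E : Finset κ) (L : (ι → ℚ) →ₗ[ℚ] (κ → ℚ))
    (H : ∀ ψ : ι → ℚ, (∀ x ∉ V, ψ x = 0) → (∀ e ∈ E, L ψ e = 0) → ∀ x, ψ x = 0) :
    V.card ≤ E.card ∧ (V.card = E.card →
      ∀ y : κ → ℚ, ∃ ψ : ι → ℚ, (∀ x ∉ V, ψ x = 0) ∧ ∀ e ∈ E, L ψ e = y e) := by
  classical
  let ex : (V → ℚ) →ₗ[ℚ] (ι → ℚ) :=
    { toFun := fun φ x => if h : x ∈ V then φ ⟨x, h⟩ else 0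
      map_add' := fun φ φ' => by funext x; by_cases h : x ∈ V <;> simp [h]
      map_smul' := fun c φ => by funext x; by_cases h : x ∈ V <;> simp [h] }
  let re : (κ → ℚ) →ₗ[ℚ] (E → ℚ) :=
    { toFun := fun y e => y e.1
      map_add' := fun _ _ => rfl
      map_smul' := fun _ _ => rfl }
  have hex : ∀ φ, ∀ x ∉ V, ex φ x = 0 := fun φ x hx => by simp [ex, hx]
  have hinj : Function.Injective (re ∘ₗ L ∘ₗ ex) := by
    rw [← LinearMap.ker_eq_bot, LinearMap.ker_eq_bot']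
    intro φ hφ
    have := H (ex φ) (hex φ) (fun e he => congrFun hφ ⟨e, he⟩)
    funext x
    simpa [ex] using this x.1
  have f1 : Module.finrank ℚ (V → ℚ) = V.card := by simp
  have f2 : Module.finrank ℚ (E → ℚ) = E.card := by simp
  refine ⟨?_, fun hc y => ?_⟩
  · rw [← f1, ← f2]
    exact LinearMap.finrank_le_finrank_of_injective hinj
  · obtain ⟨φ, hφ⟩ := (LinearMap.injective_iff_surjective_of_finrank_eq_finrank
      (by rw [f1, f2, hc])).mp hinj (re y)
    exact ⟨ex φ, hex φ, fun e he => congrFun hφ ⟨e, he⟩⟩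

theorem traj_map {α γ : Type} (f : α → γ) (w : Wd) (h β : ℕ → α) (t j : ℕ) :
    traj w (fun x => f (h x)) (fun x => f (β x)) t j = f (traj w h β t j) := by
  induction t generalizing j with
  | zero => rfl
  | succ t ih =>
    simp only [traj, step, ih]
    split_ifs <;> rfl

namespace Diagram

variable {g : ℕ} (D : Diagram g)

/-- difference of a function across a crossing between the two corners of colour `c` -/
def df (c : ℕ) (ξ : D.Q → ℚ) (t : ℕ) : ℚ := ξ (D.P1 c t) - ξ (D.P2 c t)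

theorem telescope' {c : ℕ} (hc : c < 2) (ξ : D.Q → ℚ) :
    ∑ t ∈ D.X, D.df c ξ t * D.df (1 - c) ξ t = 0 := by
  have := D.telescope ξ
  interval_cases c
  · exact this
  · simpa [df, mul_comm] using this

theorem key (hD : Connected D) (U : Finset D.Q) (E : Finset ℕ)
    (hout : ∀ t ∈ D.X, t ∉ E → ∀ d, D.cn t d ∉ U) (hU : U ⊆ D.Reg)
    (h0 : ∀ c < 2, ∃ f ∈ D.Reg, D.col f = c ∧ f ∉ U) :
    U.card ≤ E.card ∧ (U.card = E.card → ∀ t₀ ∈ E, ∀ c < 2, D.P1 (1 - c) t₀ ∉ U →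
      D.P2 (1 - c) t₀ ∉ U → ∃ ψ : D.Q → ℚ, (∀ x ∉ U, ψ x = 0) ∧
        (∀ t ∈ D.X, D.df (1 - c) ψ t = 0) ∧ (∀ t ∈ D.X, D.df c ψ t = if t = t₀ then 1 else 0)) := by
  let L : (D.Q → ℚ) →ₗ[ℚ] (ℕ → ℚ) :=
    { toFun := fun ξ t => D.df 0 ξ t + D.df 1 ξ t
      map_add' := fun _ _ => by funext t; simp [df]; ring
      map_smul' := fun _ _ => by funext t; simp [df]; ring }
  have hL : ∀ c < 2, ∀ ξ t, L ξ t = D.df c ξ t + D.df (1 - c) ξ t := by
    intro c hc ξ t
    interval_cases c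
    · rfl
    · exact add_comm _ _
  have hz : ∀ ψ : D.Q → ℚ, (∀ x ∉ U, ψ x = 0) → ∀ t ∈ D.X, t ∉ E → ∀ c, D.df c ψ t = 0 := by
    intro ψ hψ t ht htE c
    simp [df, hψ _ (hout t ht htE _)]
  have sq : ∀ a : ℕ → ℚ, ∑ t ∈ D.X, a t * a t = 0 → ∀ t ∈ D.X, a t = 0 := by
    intro a ha t ht
    exact mul_self_eq_zero.mp
      ((Finset.sum_eq_zero_iff_of_nonneg (fun i _ => mul_self_nonneg (a i))).mp ha t ht)
  obtain ⟨k1, k2⟩ := card_le_of_lin U E L (by
    intro ψ hψ hLψ x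
    have hs : ∀ c < 2, ∀ t ∈ D.X, D.df c ψ t = 0 := by
      intro c hc
      apply sq
      have := D.telescope' hc ψ
      rw [← neg_eq_zero, ← this, ← Finset.sum_neg_distrib]
      refine Finset.sum_congr rfl fun t ht => ?_
      by_cases htE : t ∈ E
      · have := hLψ t htE
        rw [hL c hc] at this
        linear_combination (-D.df c ψ t) * this
      · simp [hz ψ hψ t ht htE]
    by_cases hx : x ∈ U
    · obtain ⟨f, hf, hcol, hfU⟩ := h0 (D.col x) (D.col_lt x)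
      rw [← hψ f hfU]
      exact D.const_of_cross hD (D.col_lt x) ψ
        (fun t ht => sub_eq_zero.mp (hs _ (D.col_lt x) t ht)) (hU hx) hf rfl hcol
    · exact hψ x hx)
  refine ⟨k1, fun hc t₀ ht₀ c hc2 n1 n2 => ?_⟩
  obtain ⟨ψ, hψ, hLψ⟩ := k2 hc (fun t => if t = t₀ then 1 else 0)
  have hsum : ∀ t ∈ D.X, D.df c ψ t + D.df (1 - c) ψ t = if t = t₀ then 1 else 0 := by
    intro t ht
    by_cases htE : t ∈ E
    · rw [← hL c hc2, hLψ t htE]
    · rw [hz ψ hψ t ht htE, hz ψ hψ t ht htE, if_neg (by rintro rfl; exact htE ht₀), add_zero]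
  have h00 : D.df (1 - c) ψ t₀ = 0 := by simp [df, hψ _ n1, hψ _ n2]
  have ha : ∀ t ∈ D.X, D.df (1 - c) ψ t = 0 := by
    apply sq
    have := D.telescope' hc2 ψ
    rw [← neg_eq_zero, ← this, ← Finset.sum_neg_distrib]
    refine Finset.sum_congr rfl fun t ht => ?_
    have := hsum t ht
    by_cases h : t = t₀
    · subst h; simp [h00]
    · rw [if_neg h] at this
      linear_combination (-D.df (1 - c) ψ t) * this
  exact ⟨ψ, hψ, ha, fun t ht => by rw [← hsum t ht, ha t ht, add_zero]⟩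

theorem link_valid {ok : ℕ → Prop} {p p' : ℕ × ℕ} (h : StrandLink D ok p p') :
    p.2 < D.wd p.1 ∧ p'.2 < D.wd p'.1 := by
  cases h with
  | left t k i j ht hj =>
    obtain ⟨h1, rfl, rfl⟩ := D.of_get ht
    have := D.fit h1
    have := D.wd_succ h1
    simp only
    omega
  | right t k i r ht hr =>
    obtain ⟨h1, rfl, rfl⟩ := D.of_get ht
    have := D.wd_succ h1
    simp only [wd] at *
    omega
  | cup t i ht =>
    obtain ⟨h1, h2, rfl⟩ := D.of_get ht
    have a := D.fit h1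
    have b := D.wd_succ h1
    simp only [h2, Kind.above, Kind.below] at *
    omega
  | cap t i ht =>
    obtain ⟨h1, h2, rfl⟩ := D.of_get ht
    have a := D.fit h1
    simp only [h2, Kind.below] at *
    omega
  | cross t b i ht hok e e' =>
    obtain ⟨h1, rfl⟩ := D.mem_X_of_get ht
    exact ⟨D.endPoint_lt h1 e, D.endPoint_lt h1 e'⟩

theorem eqv_valid {ok : ℕ → Prop} {p p' : ℕ × ℕ} (h : Relation.EqvGen (StrandLink D ok) p p') :
    p.2 < D.wd p.1 ↔ p'.2 < D.wd p'.1 := by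
  induction h with
  | rel _ _ h => simp [D.link_valid h]
  | refl => rfl
  | symm _ _ _ ih => exact ih.symm
  | trans _ _ _ _ _ ih1 ih2 => exact ih1.trans ih2

open Classical in
theorem level_set (hD : Connected D) (hex : ∀ t, ¬ Excluded D t) {c : ℕ} (hc : c < 2)
    (U : Finset D.Q) (hU : U ⊆ D.Reg) (hne : U.Nonempty)
    (h0 : ∀ c' < 2, ∃ f ∈ D.Reg, D.col f = c' ∧ f ∉ U)
    (hadj : ∀ p : ℕ × ℕ, p.2 < D.wd p.1 → D.q (side (1 - c) p) ∈ U → D.q (side c p) ∈ U)
    (hext : ∀ p : ℕ × ℕ, p.2 < D.wd p.1 → D.q (side c p) ∈ U →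
      ¬ External D p ∧ ¬ External D (p.1, p.2 + 1)) :
    U.card < (D.X.filter (fun t => D.P1 c t ∈ U ∨ D.P2 c t ∈ U)).card := by
  have hc' : 1 - c < 2 := by omega
  -- a corner of the other colour in `U` forces both corners of colour `c` into `U`
  have hforce : ∀ t ∈ D.X, ∀ d, D.col (D.cn t d) = 1 - c → D.cn t d ∈ U →
      D.P1 c t ∈ U ∧ D.P2 c t ∈ U := by
    intro t ht d hd hdU
    obtain ⟨s1, s2⟩ := D.side_end ht d hd
    have a1 := hadj _ (D.endPoint_lt ht d) (s1 ▸ hdU)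
    have a2 := hadj _ (D.endPoint_lt ht (d + 3)) (s2 ▸ hdU)
    have c1 : D.col (D.cn t (d + 1)) = c := by
      rw [col_cn] at hd ⊢; fin_cases d <;> simp at hd ⊢ <;> omega
    have c3 : D.col (D.cn t (d + 3)) = c := by
      rw [col_cn] at hd ⊢; fin_cases d <;> simp at hd ⊢ <;> omega
    have b1 := (D.side_end ht (d + 1) c1).2
    have b3 := (D.side_end ht (d + 3) c3).1
    rw [(by decide : ∀ a : Fin 4, a + 1 + 3 = a) d] at b1
    rw [b1] at a1
    rw [b3] at a2
    have := D.pd_cases hc t _ c1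
    rcases this with e | e
    · have e' : d + 3 = D.pd c t + 2 :=
        (by decide : ∀ a b : Fin 4, a + 1 = b → a + 3 = b + 2) _ _ e
      rw [e] at a1
      rw [e'] at a2
      exact ⟨a1, a2⟩
    · have e' : d + 3 = D.pd c t := by
        have : ∀ a b : Fin 4, a + 1 = b + 2 → a + 3 = b := by decide
        exact this _ _ e
      rw [e] at a1
      rw [e'] at a2
      exact ⟨a2, a1⟩
  obtain ⟨k1, k2⟩ := D.key hD U (D.X.filter (fun t => D.P1 c t ∈ U ∨ D.P2 c t ∈ U))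
    (by
      intro t ht hE d hd
      apply hE
      rw [Finset.mem_filter]
      refine ⟨ht, ?_⟩
      by_cases hcol : D.col (D.cn t d) = c
      · rcases D.pd_cases hc t d hcol with e | e
        · rw [e] at hd; exact Or.inl hd
        · rw [e] at hd; exact Or.inr hd
      · have := D.col_lt (D.cn t d)
        exact Or.inl (hforce t ht d (by omega) hd).1) hU h0
  refine lt_of_le_of_ne k1 fun heq => ?_
  -- there is a crossing with exactly one corner of colour `c` in `U`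
  have hout : ∃ t₀ ∈ D.X, ¬ (D.P1 c t₀ ∈ U ↔ D.P2 c t₀ ∈ U) := by
    by_contra hall
    push Not at hall
    obtain ⟨f₀, hf₀, hcol₀, hn₀⟩ := h0 c hc
    have none : ∀ f ∈ D.Reg, D.col f = c → f ∉ U := by
      intro f hf hcol hfU
      have := D.const_of_cross hD hc (fun x => x ∈ U) (fun t ht => propext (hall t ht)) hf hf₀
        hcol hcol₀
      exact hn₀ (this ▸ hfU)
    obtain ⟨f, hf⟩ := hne
    by_cases hcol : D.col f = c
    · exact none f (hU hf) hcol hf
    · obtain ⟨p, hp, e⟩ := D.exists_side hD (hU hf)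
      have := D.col_lt f
      rw [show D.col f = 1 - c by omega] at e
      exact none _ (D.q_mem_Reg (D.side_cell c hp)) (D.col_side hc p) (hadj p hp (e ▸ hf))
  obtain ⟨t₀, ht₀, hxor⟩ := hout
  have hn : ∀ d, D.col (D.cn t₀ d) = 1 - c → D.cn t₀ d ∉ U := fun d hd hdU =>
    hxor (by simp [hforce t₀ ht₀ d hd hdU])
  obtain ⟨ψ, hψ, ha, hb⟩ := k2 heq t₀ (by rw [Finset.mem_filter]; exact ⟨ht₀, by tauto⟩) c hc
    (hn _ (D.col_P1 hc' t₀)) (hn _ (D.col_P2 hc' t₀))
  have hsame : D.P1 (1 - c) t₀ = D.P2 (1 - c) t₀ := by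
    by_contra hne'
    have := D.telescope' hc (fun x => ψ x + if x = D.P1 (1 - c) t₀ then 1 else 0)
    rw [Finset.sum_eq_single t₀] at this
    · have e1 : D.P1 c t₀ ≠ D.P1 (1 - c) t₀ := fun h => by
        have := congrArg D.col h
        rw [D.col_P1 hc, D.col_P1 hc'] at this; omega
      have e2 : D.P2 c t₀ ≠ D.P1 (1 - c) t₀ := fun h => by
        have := congrArg D.col h
        rw [D.col_P2 hc, D.col_P1 hc'] at this; omega
      have x1 := ha t₀ ht₀
      have x2 := hb t₀ ht₀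
      simp only [df, if_true, e1, e2, if_false, if_neg (Ne.symm hne'), add_zero] at this x1 x2
      rw [x2, one_mul] at this
      linarith
    · intro t ht hne2
      have e1 : D.P1 c t ≠ D.P1 (1 - c) t₀ := fun h => by
        have := congrArg D.col h
        rw [D.col_P1 hc, D.col_P1 hc'] at this; omega
      have e2 : D.P2 c t ≠ D.P1 (1 - c) t₀ := fun h => by
        have := congrArg D.col h
        rw [D.col_P2 hc, D.col_P1 hc'] at this; omega
      have x2 := hb t ht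
      simp only [df, e1, e2, if_false, if_neg hne2, add_zero] at x2 ⊢
      rw [x2, zero_mul]
    · intro h; exact absurd ht₀ h
  obtain ⟨d, hdc, hdψ⟩ : ∃ d, D.col (D.cn t₀ d) = c ∧ ψ (D.cn t₀ d) ≠ 0 := by
    have x2 := hb t₀ ht₀
    simp only [df, if_true] at x2
    by_cases h : ψ (D.P1 c t₀) = 0
    · exact ⟨_, D.col_P2 hc t₀, fun h' => by rw [h, h'] at x2; norm_num at x2⟩
    · exact ⟨_, D.col_P1 hc t₀, h⟩
  obtain ⟨hlt, b, hb'⟩ := D.mem_X.mp ht₀
  refine hex t₀ ⟨b, D.ps t₀, by rw [D.get hlt, hb'], d, ?_, ?_⟩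
  · rw [same_iff]
    have c1 : D.col (D.cn t₀ (d + 1)) = 1 - c := by
      rw [col_cn] at hdc ⊢; fin_cases d <;> simp at hdc ⊢ <;> omega
    have c3 : D.col (D.cn t₀ (d + 3)) = 1 - c := by
      rw [col_cn] at hdc ⊢; fin_cases d <;> simp at hdc ⊢ <;> omega
    change D.cn t₀ (d + 1) = D.cn t₀ (d + 3)
    rcases D.pd_cases hc' t₀ _ c1 with e | e <;> rcases D.pd_cases hc' t₀ _ c3 with e' | e' <;>
      rw [e, e']
    · exact hsame
    · exact hsame.symm
  · intro p hp c' hc'' hE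
    exfalso
    have H : ∀ t ∈ D.X, t ≠ t₀ → ψ (D.P1 c t) = ψ (D.P2 c t) := by
      intro t ht hne2
      have := hb t ht
      rw [if_neg hne2] at this
      exact sub_eq_zero.mp this
    obtain ⟨s1, s2⟩ := D.side_end ht₀ d hdc
    have : p.2 < D.wd p.1 ∧ ψ (D.q (side c p)) = ψ (D.cn t₀ d) := by
      rcases hp with hp | hp
      · exact ⟨(D.eqv_valid hp).mp (D.endPoint_lt ht₀ _), by rw [← D.side_eqv hc ψ H hp, s1]⟩
      · exact ⟨(D.eqv_valid hp).mp (D.endPoint_lt ht₀ _), by rw [← D.side_eqv hc ψ H hp, s2]⟩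
    have hin : D.q (side c p) ∈ U := by
      by_contra hn'
      exact hdψ (this.2 ▸ hψ _ hn')
    obtain ⟨n1, n2⟩ := hext p this.1 hin
    rcases hc'' with rfl | rfl
    · exact n1 hE
    · exact n2 hE

end Diagram

end Pool.Agent.Lib.MP_70b928_gt
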