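import Pool.Agent.Lib.MP_70b928_gt.Opt

set_option autoImplicit false

namespace Pool.Agent.Lib.MP_70b928_gt

theorem Diagram.alternating_of_const {g : ℕ} (D : Diagram g) (v : ℕ)
    (h : ∀ t < D.L, ∀ b, D.kd t = Kind.cross b → (b = true ↔ D.ps t % 2 = v)) (hv : v < 2) :
    Alternating D := by
  intro t b i e t' b' i' e' h1 h2 hne hr
  obtain ⟨ht, hk, rfl⟩ := D.of_get h1
  obtain ⟨ht', hk', rfl⟩ := D.of_get h2
  have h2 : (D.ps t + 1 + e.val) % 2 ≠ (D.ps t' + 1 + e'.val) % 2 := by
    intro heq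
    have := D.terminal_unique (Nat.mod_lt _ (by norm_num)) (D.nx_end hk e)
      (heq ▸ D.nx_end hk' e') hr
    apply hne
    have key : t = t' := by
      fin_cases e <;> fin_cases e' <;> simp [endPoint] at this heq <;> omega
    subst key
    fin_cases e <;> fin_cases e' <;> simp [endPoint] at this heq ⊢
  have a := h t ht b hk
  have a' := h t' ht' b' hk'
  simp only [Nat.odd_iff]
  cases b <;> cases b' <;> simp at a a' ⊢ <;> omega

/-- a figure-eight curve whose two lobes each have an inner kink around a hole -/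
def exWord : Wd :=
  [(Kind.cup, 0), (Kind.cup, 1), (Kind.hole, 2), (Kind.cross true, 0), (Kind.cap, 1),
    (Kind.cross true, 0), (Kind.cup, 1), (Kind.hole, 2), (Kind.cross true, 0), (Kind.cap, 1),
    (Kind.cap, 0)]

def exD : Diagram 2 :=
  mkDiagram exWord ⟨by simp [exWord, Kind.below, Kind.above], by decide, by decide⟩

theorem exD_get {t : ℕ} {s : Kind × ℕ} (h : exD.word[t]? = some s) :
    t < 11 ∧ exWord[t]? = some s := ⟨lt_of_getElem? h, h⟩

def exLab : ℕ → ℕ
  | 0 => 1 | 1 => 2 | 3 => 1 | 5 => 3 | 6 => 4 | 8 => 3 | _ => 0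

theorem ex_lab {c c' : ℕ × ℕ} (h : SameRegion exD c c') :
    traj exWord (fun _ => 0) exLab c.1 c.2 = traj exWord (fun _ => 0) exLab c'.1 c'.2 := by
  obtain ⟨ξ, hξ⟩ := exD.lift_traj (fun _ => 0) exLab (by
    intro t ht
    change t < 11 at ht
    interval_cases t <;> decide)
  have := congrArg ξ ((exD.same_iff _ _).mp h)
  rwa [hξ, hξ] at this

theorem ex_connected : Connected exD := by
  let R : ℕ × ℕ → Prop := fun p => Relation.EqvGen (StrandLink exD (fun _ => True)) (1, 0) p
  have f : ∀ {p q}, R p → StrandLink exD (fun _ => True) p q → R q := fun hp h =>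
    hp.trans _ _ _ (.rel _ _ h)
  have b : ∀ {p q}, R p → StrandLink exD (fun _ => True) q p → R q := fun hp h =>
    hp.trans _ _ _ (.symm _ _ (.rel _ _ h))
  have p10 : R (1, 0) := .refl _
  have p11 : R (1, 1) := f p10 (.cup 0 0 rfl)
  have p20 : R (2, 0) := f p10 (.left 1 _ 1 0 rfl (by decide))
  have p23 : R (2, 3) := f p11 (.right 1 .cup 1 0 rfl (by decide))
  have p30 : R (3, 0) := f p20 (.left 2 _ 2 0 rfl (by decide))
  have p33 : R (3, 3) := f p23 (.right 2 .hole 2 1 rfl (by decide))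
  have p31 : R (3, 1) := f p30 (.cross 3 true 0 rfl trivial 3 0)
  have p41 : R (4, 1) := f p30 (.cross 3 true 0 rfl trivial 3 1)
  have p40 : R (4, 0) := f p30 (.cross 3 true 0 rfl trivial 3 2)
  have p21 : R (2, 1) := b p31 (.left 2 _ 2 1 rfl (by decide))
  have p22 : R (2, 2) := f p21 (.cup 1 1 rfl)
  have p32 : R (3, 2) := f p22 (.right 2 .hole 2 0 rfl (by decide))
  have p42 : R (4, 2) := f p41 (.cap 4 1 rfl)
  have p43 : R (4, 3) := f p33 (.right 3 (.cross true) 0 1 rfl (by decide))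
  have p50 : R (5, 0) := f p40 (.left 4 _ 1 0 rfl (by decide))
  have p51 : R (5, 1) := f p50 (.cross 5 true 0 rfl trivial 3 0)
  have p61 : R (6, 1) := f p50 (.cross 5 true 0 rfl trivial 3 1)
  have p60 : R (6, 0) := f p50 (.cross 5 true 0 rfl trivial 3 2)
  have p70 : R (7, 0) := f p60 (.left 6 _ 1 0 rfl (by decide))
  have p73 : R (7, 3) := f p61 (.right 6 .cup 1 0 rfl (by decide))
  have p80 : R (8, 0) := f p70 (.left 7 _ 2 0 rfl (by decide))
  have p83 : R (8, 3) := f p73 (.right 7 .hole 2 1 rfl (by decide))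
  have p81 : R (8, 1) := f p80 (.cross 8 true 0 rfl trivial 3 0)
  have p91 : R (9, 1) := f p80 (.cross 8 true 0 rfl trivial 3 1)
  have p90 : R (9, 0) := f p80 (.cross 8 true 0 rfl trivial 3 2)
  have p71 : R (7, 1) := b p81 (.left 7 _ 2 1 rfl (by decide))
  have p72 : R (7, 2) := f p71 (.cup 6 1 rfl)
  have p82 : R (8, 2) := f p72 (.right 7 .hole 2 0 rfl (by decide))
  have p92 : R (9, 2) := f p91 (.cap 9 1 rfl)
  have p93 : R (9, 3) := f p83 (.right 8 (.cross true) 0 1 rfl (by decide))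
  have pa0 : R (10, 0) := f p90 (.left 9 _ 1 0 rfl (by decide))
  have pa1 : R (10, 1) := f pa0 (.cap 10 0 rfl)
  have all : ∀ p : ℕ × ℕ, p.2 < width exD.word p.1 → R p := by
    rintro ⟨t, j⟩ hp
    have ht : t < 11 := exD.lt_of_wd_pos (t := t) (lt_of_le_of_lt (Nat.zero_le _) hp)
    have hj : j < 4 := by
      refine lt_of_lt_of_le hp ?_
      change width exD.word t ≤ 4
      interval_cases t <;> decide
    interval_cases t <;> interval_cases j <;> first | assumption | exact absurd hp (by decide)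
  exact ⟨⟨1, by decide⟩, fun p q hp hq => ((all p hp).symm _ _).trans _ _ _ (all q hq)⟩

theorem ex_alternating : Alternating exD := by
  refine exD.alternating_of_const 0 (fun t ht b => ?_) (by norm_num)
  change t < 11 at ht
  interval_cases t <;> cases b <;> decide

theorem ex_modTwo : ModTwoTrivial exD := by
  intro t i h
  obtain ⟨ht, h⟩ := exD_get h
  interval_cases t <;> simp [exWord] at h <;> subst h <;> decide

theorem ex_fills : FillsHoles exD := by
  intro t i h
  obtain ⟨ht, h⟩ := exD_get h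
  refine ⟨fun hs => ?_, fun t' i' h' hs => ?_⟩
  · have := ex_lab hs
    interval_cases t <;> simp [exWord] at h <;> subst h <;> exact absurd this (by decide)
  · have := ex_lab hs
    obtain ⟨ht', h'⟩ := exD_get h'
    interval_cases t <;> simp [exWord] at h <;> subst h <;> interval_cases t' <;>
      simp [exWord] at h' <;> subst h' <;> first | rfl | exact absurd this (by decide)

theorem ex_ext42 : External exD (4, 2) := by
  refine Or.inr ⟨2, 2, rfl, ?_⟩
  exact .symm _ _ (.trans _ _ _ (.rel _ _ (.left 2 _ 2 2 rfl le_rfl))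
    (.rel _ _ (.right 3 (.cross true) 0 0 rfl (by decide))))

theorem ex_ext82 : External exD (8, 2) :=
  Or.inr ⟨7, 2, rfl, .symm _ _ (.rel _ _ (.left 7 _ 2 2 rfl le_rfl))⟩

theorem ex_ext0 {t : ℕ} (ht : t ≤ 11) : External exD (t, 0) :=
  Or.inl ((exD.same_iff _ _).mpr (exD.q_zero ht))

theorem ex_not_excluded (t : ℕ) : ¬ Excluded exD t := by
  rintro ⟨b, i, h, d, h1, h2⟩
  obtain ⟨ht, h⟩ := exD_get h
  have l1 := ex_lab h1
  interval_cases t <;> simp [exWord] at h <;> obtain ⟨rfl, rfl⟩ := h <;> fin_cases d <;>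
    first
    | exact absurd l1 (by decide)
    | exact absurd (ex_lab (h2 _ (Or.inl (.refl _)) _ (Or.inr rfl) ex_ext42)) (by decide)
    | exact absurd (ex_lab (h2 _ (Or.inl (.refl _)) _ (Or.inl rfl) (ex_ext0 (by decide))))
        (by decide)
    | exact absurd (ex_lab (h2 _ (Or.inr (.refl _)) _ (Or.inr rfl) ex_ext82)) (by decide)
    | exact absurd (ex_lab (h2 (4, 1) (Or.inr (.trans _ _ _
        (.symm _ _ (.rel _ _ (.left 4 _ 1 0 rfl (by decide))))
        (.rel _ _ (.cross 3 true 0 rfl (by decide) 2 1)))) _ (Or.inr rfl) ex_ext42)) (by decide)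
    | exact absurd (ex_lab (h2 (8, 1) (Or.inl (.trans _ _ _ (.trans _ _ _
        (.rel _ _ (.left 6 _ 1 0 rfl (by decide))) (.rel _ _ (.left 7 _ 2 0 rfl (by decide))))
        (.rel _ _ (.cross 8 true 0 rfl (by decide) 3 0)))) _ (Or.inr rfl) ex_ext82)) (by decide)

theorem ex_twice : twiceExternal exD ≠ 0 := by
  refine Set.ncard_ne_zero_of_mem (a := 5) ⟨true, 0, rfl, 3, 1, by decide, ex_ext0 (by decide), ?_⟩
    ((Set.finite_lt_nat 11).subset ?_)
  · rw [Diagram.same_iff]
    exact (exD.q_zero (t := 5) (by decide)).trans (exD.q_wd (t := 5) (by decide)).symm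
  · rintro t ⟨b, i, h, -⟩
    exact (exD_get h).1

end Pool.Agent.Lib.MP_70b928_gt
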