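import Pool.Agent.Lib.MP_70b928_gt.Traj

set_option autoImplicit false

namespace Pool.Agent.Lib.MP_70b928_gt

theorem width_zero (w : Wd) : width w 0 = 0 := rfl

theorem width_succ (w : Wd) {t : ℕ} (ht : t < w.length) :
    width w (t + 1) = width w t - (sl w t).1.below + (sl w t).1.above := by
  unfold width
  rw [List.take_add_one, getElem?_sl ht, List.foldl_append]
  rfl

namespace Diagram

variable {g : ℕ} (D : Diagram g)

abbrev L : ℕ := D.word.length
abbrev wd (t : ℕ) : ℕ := width D.word t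
abbrev kd (t : ℕ) : Kind := (sl D.word t).1
abbrev ps (t : ℕ) : ℕ := (sl D.word t).2

theorem get {t : ℕ} (ht : t < D.L) : D.word[t]? = some (D.kd t, D.ps t) := getElem?_sl ht

theorem of_get {t : ℕ} {k : Kind} {i : ℕ} (h : D.word[t]? = some (k, i)) :
    t < D.L ∧ D.kd t = k ∧ D.ps t = i := by
  have := sl_of_getElem? h
  exact ⟨lt_of_getElem? h, by simp [kd, this], by simp [ps, this]⟩

theorem fit {t : ℕ} (ht : t < D.L) : D.ps t + (D.kd t).below ≤ D.wd t := D.fits t _ _ (D.get ht)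

theorem wd_succ {t : ℕ} (ht : t < D.L) :
    D.wd (t + 1) + (D.kd t).below = D.wd t + (D.kd t).above := by
  have := width_succ D.word ht
  have := D.fit ht
  simp only [wd, kd] at *
  omega

theorem wd_ge {t : ℕ} (ht : D.L ≤ t) : D.wd t = 0 := by
  have := D.closed
  unfold width at this
  unfold wd width
  rw [List.take_of_length_le ht]
  rwa [List.take_length] at this

theorem lt_of_wd_pos {t : ℕ} (h : 0 < D.wd t) : t < D.L := by
  by_contra hh
  rw [D.wd_ge (by omega)] at h
  omega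

theorem wd_even (t : ℕ) : D.wd t % 2 = 0 := by
  induction t with
  | zero => rfl
  | succ t ih =>
    by_cases ht : t < D.L
    · have := D.wd_succ ht
      have h1 := (D.kd t).above_cases
      have h2 := (D.kd t).below_cases
      omega
    · rw [D.wd_ge (by omega)]

abbrev Q : Type := Quot (GapLink D)

abbrev q (c : ℕ × ℕ) : D.Q := Quot.mk _ c

theorem same_iff (c c' : ℕ × ℕ) : SameRegion D c c' ↔ D.q c = D.q c' := Quot.eq.symm

theorem q_left {t j : ℕ} (ht : t < D.L) (hj : j ≤ D.ps t) : D.q (t + 1, j) = D.q (t, j) :=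
  (Quot.sound (GapLink.left t _ _ j (D.get ht) hj)).symm

theorem q_right {t j j' : ℕ} (ht : t < D.L) (hj : D.ps t + (D.kd t).below ≤ j) (hj2 : j ≤ D.wd t)
    (hj' : j' + (D.kd t).below = j + (D.kd t).above) : D.q (t + 1, j') = D.q (t, j) := by
  obtain ⟨r, rfl⟩ := Nat.exists_eq_add_of_le hj
  have : j' = D.ps t + (D.kd t).above + r := by omega
  subst this
  exact (Quot.sound (GapLink.right t _ _ r (D.get ht) hj2)).symm

abbrev outer : D.Q := D.q (0, 0)

theorem q_zero {t : ℕ} (ht : t ≤ D.L) : D.q (t, 0) = D.outer := by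
  induction t with
  | zero => rfl
  | succ t ih => rw [D.q_left (by omega) (Nat.zero_le _), ih (by omega)]

theorem q_wd {t : ℕ} (ht : t ≤ D.L) : D.q (t, D.wd t) = D.outer := by
  induction t with
  | zero => rfl
  | succ t ih =>
    rw [D.q_right (by omega) (D.fit (by omega)) le_rfl (D.wd_succ (by omega)), ih (by omega)]

theorem q_cap {t : ℕ} (ht : t < D.L) (hk : D.kd t = Kind.cap) :
    D.q (t, D.ps t) = D.q (t, D.ps t + 2) := by
  have hf := D.fit ht
  rw [← D.q_left ht le_rfl, D.q_right (j := D.ps t + 2) ht] <;>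
    simp [hk, Kind.below, Kind.above] at hf ⊢
  exact hf

theorem q_cup {t : ℕ} (ht : t < D.L) (hk : D.kd t = Kind.cup) :
    D.q (t + 1, D.ps t) = D.q (t + 1, D.ps t + 2) := by
  have hf := D.fit ht
  rw [D.q_left ht le_rfl, D.q_right (j := D.ps t) ht] <;>
    simp [hk, Kind.below, Kind.above] at hf ⊢
  exact hf

def Cell (c : ℕ × ℕ) : Prop := c.1 ≤ D.L ∧ c.2 ≤ D.wd c.1

theorem cell_finite : {c | D.Cell c}.Finite := by
  refine (Set.Finite.biUnion (Set.finite_le_nat D.L)
    (fun t _ => (Set.finite_le_nat (D.wd t)).image (fun j => (t, j)))).subset ?_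
  rintro ⟨t, j⟩ ⟨h1, h2⟩
  simp only [Set.mem_iUnion, Set.mem_image, Set.mem_ofPred_eq]
  exact ⟨t, h1, j, h2, rfl⟩

open Classical in
noncomputable def Reg : Finset D.Q := D.cell_finite.toFinset.image D.q

theorem mem_Reg {f : D.Q} : f ∈ D.Reg ↔ ∃ c, D.Cell c ∧ D.q c = f := by
  simp [Reg]

theorem q_mem_Reg {c : ℕ × ℕ} (hc : D.Cell c) : D.q c ∈ D.Reg := D.mem_Reg.mpr ⟨c, hc, rfl⟩

theorem outer_mem : D.outer ∈ D.Reg := D.q_mem_Reg ⟨Nat.zero_le _, Nat.zero_le _⟩

theorem traj_lift {α : Type} (ξ : D.Q → α) (h β : ℕ → α) (h0 : h 0 = ξ D.outer)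
    (hβ : ∀ t < D.L, (D.kd t).above = 2 → β t = ξ (D.q (t + 1, D.ps t + 1))) :
    ∀ t ≤ D.L, ∀ j ≤ D.wd t, traj D.word h β t j = ξ (D.q (t, j)) := by
  intro t
  induction t with
  | zero =>
    intro _ j hj
    have : j = 0 := by simpa [wd, width_zero] using hj
    subst this
    exact h0
  | succ t ih =>
    intro ht j hj
    have ht' : t < D.L := by omega
    have ih' := ih (by omega)
    have hf := D.fit ht'
    have hw := D.wd_succ ht'
    change step (D.kd t, D.ps t) (β t) (traj D.word h β t) j = _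
    by_cases h1 : j ≤ D.ps t
    · rw [step_left _ _ _ _ _ h1, ih' j (by omega), D.q_left ht' h1]
    by_cases h2 : D.ps t + (D.kd t).above ≤ j
    · obtain ⟨r, rfl⟩ := Nat.exists_eq_add_of_le h2
      rw [step_right, ih' _ (by omega), D.q_right (j := D.ps t + (D.kd t).below + r) ht'
        (by omega) (by omega) (by omega)]
      intro hk
      rw [hk] at hf
      simp only [Kind.below] at hf
      rw [ih' _ (by omega), ih' _ hf, D.q_cap ht' hk]
    · have hk : (D.kd t).above = 2 := by rcases (D.kd t).above_cases with h | h <;> omega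
      have : j = D.ps t + 1 := by omega
      subst this
      rw [step_mid _ _ _ _ hk, hβ t ht' hk]

theorem lift_traj {α : Type} (h β : ℕ → α)
    (hc : ∀ t < D.L, D.kd t = Kind.cap →
      traj D.word h β t (D.ps t) = traj D.word h β t (D.ps t + 2)) :
    ∃ ξ : D.Q → α, ∀ c, ξ (D.q c) = traj D.word h β c.1 c.2 := by
  refine ⟨Quot.lift (fun c => traj D.word h β c.1 c.2) ?_, fun _ => rfl⟩
  intro c c' hl
  cases hl with
  | left t k i j ht hj =>
    obtain ⟨h1, rfl, rfl⟩ := D.of_get ht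
    exact (step_left _ _ _ _ _ hj).symm
  | right t k i r ht hr =>
    obtain ⟨h1, rfl, rfl⟩ := D.of_get ht
    exact (step_right _ _ _ _ _ (hc t h1)).symm

/-- the checkerboard colour -/
def col : D.Q → ℕ := Quot.lift (fun c => c.2 % 2) (by
  intro c c' hl
  cases hl with
  | left => rfl
  | right t k i r ht hr =>
    have h1 := k.above_cases
    have h2 := k.below_cases
    simp only
    omega)

theorem col_q (c : ℕ × ℕ) : D.col (D.q c) = c.2 % 2 := rfl

theorem col_lt (f : D.Q) : D.col f < 2 := by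
  obtain ⟨c, rfl⟩ := Quot.exists_rep f
  exact Nat.mod_lt _ (by norm_num)

/-- the crossings -/
def X : Finset ℕ :=
  (Finset.range D.L).filter (fun t => D.kd t = Kind.cross true ∨ D.kd t = Kind.cross false)

theorem mem_X {t : ℕ} : t ∈ D.X ↔ t < D.L ∧ ∃ b, D.kd t = Kind.cross b := by
  simp [X, or_comm]

theorem mem_X_of_get {t i : ℕ} {b : Bool} (h : D.word[t]? = some (Kind.cross b, i)) :
    t ∈ D.X ∧ D.ps t = i := by
  obtain ⟨h1, h2, h3⟩ := D.of_get h
  exact ⟨D.mem_X.mpr ⟨h1, b, h2⟩, h3⟩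

theorem X_fit {t : ℕ} (ht : t ∈ D.X) :
    t < D.L ∧ D.ps t + 2 ≤ D.wd t ∧ D.wd (t + 1) = D.wd t ∧ (D.kd t).below = 2 ∧
      (D.kd t).above = 2 := by
  obtain ⟨h1, b, h2⟩ := D.mem_X.mp ht
  have h3 := D.fit h1
  have h4 := D.wd_succ h1
  simp only [h2, Kind.below, Kind.above] at h3 h4 ⊢
  simp only [h1, h3, true_and, and_true]
  omega

/-- region at a corner of a crossing -/
abbrev cn (t : ℕ) (d : Fin 4) : D.Q := D.q (corner t (D.ps t) d)

theorem corner_cell {t : ℕ} (ht : t ∈ D.X) (d : Fin 4) : D.Cell (corner t (D.ps t) d) := by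
  obtain ⟨h1, h2, h3, -⟩ := D.X_fit ht
  fin_cases d <;> simp [corner, Cell] <;> omega

theorem endPoint_lt {t : ℕ} (ht : t ∈ D.X) (e : Fin 4) :
    (endPoint t (D.ps t) e).2 < D.wd (endPoint t (D.ps t) e).1 := by
  obtain ⟨h1, h2, h3, -⟩ := D.X_fit ht
  fin_cases e <;> simp [endPoint] <;> omega

/-- index of the first corner of colour `c` -/
def pd (c t : ℕ) : Fin 4 := if D.ps t % 2 = c then 3 else if c = 1 then 2 else 0

abbrev P1 (c t : ℕ) : D.Q := D.cn t (D.pd c t)
abbrev P2 (c t : ℕ) : D.Q := D.cn t (D.pd c t + 2)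

theorem col_cn (t : ℕ) (d : Fin 4) : D.col (D.cn t d) = (D.ps t + 1 + d.val) % 2 := by
  fin_cases d <;> simp [col_q, corner] <;> omega

theorem col_P1 {c : ℕ} (hc : c < 2) (t : ℕ) : D.col (D.P1 c t) = c := by
  rw [col_cn]; unfold pd; split_ifs <;> simp <;> omega

theorem col_P2 {c : ℕ} (hc : c < 2) (t : ℕ) : D.col (D.P2 c t) = c := by
  rw [col_cn]; unfold pd; split_ifs <;> simp <;> omega

theorem pd_cases {c : ℕ} (hc : c < 2) (t : ℕ) (d : Fin 4) (hd : D.col (D.cn t d) = c) :
    d = D.pd c t ∨ d = D.pd c t + 2 := by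
  rw [col_cn] at hd
  unfold pd
  fin_cases d <;> split_ifs <;> simp at hd ⊢ <;> omega

theorem telescope (ξ : D.Q → ℚ) :
    ∑ t ∈ D.X, (ξ (D.P1 0 t) - ξ (D.P2 0 t)) * (ξ (D.P1 1 t) - ξ (D.P2 1 t)) = 0 := by
  let S : ℕ → ℚ := fun t =>
    ∑ j ∈ Finset.range (D.wd t), (-1) ^ j * ξ (D.q (t, j)) * ξ (D.q (t, j + 1))
  have h0 := Finset.sum_range_sub S D.L
  have hL : S D.L = 0 := by simp [S, D.wd_ge le_rfl]
  have h00 : S 0 = 0 := by simp [S, wd, width_zero]
  rw [hL, h00, sub_zero] at h0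
  rw [X, Finset.sum_filter]
  refine Eq.trans ?_ h0
  refine Finset.sum_congr rfl fun t ht => ?_
  have ht' : t < D.L := Finset.mem_range.mp ht
  have hf := D.fit ht'
  have hw := D.wd_succ ht'
  obtain ⟨R, hR⟩ := Nat.exists_eq_add_of_le hf
  have hR' : D.wd (t + 1) = D.ps t + (D.kd t).above + R := by omega
  simp only [S]
  rw [hR, hR']
  simp only [Finset.sum_range_add]
  have e1 : ∑ j ∈ Finset.range (D.ps t), (-1 : ℚ) ^ j * ξ (D.q (t + 1, j)) * ξ (D.q (t + 1, j + 1)) =
      ∑ j ∈ Finset.range (D.ps t), (-1) ^ j * ξ (D.q (t, j)) * ξ (D.q (t, j + 1)) := by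
    refine Finset.sum_congr rfl fun j hj => ?_
    have := Finset.mem_range.mp hj
    rw [D.q_left ht' (by omega), D.q_left ht' (by omega)]
  have e2 : ∑ r ∈ Finset.range R, (-1 : ℚ) ^ (D.ps t + (D.kd t).above + r) *
        ξ (D.q (t + 1, D.ps t + (D.kd t).above + r)) *
        ξ (D.q (t + 1, D.ps t + (D.kd t).above + r + 1)) =
      ∑ r ∈ Finset.range R, (-1 : ℚ) ^ (D.ps t + (D.kd t).below + r) *
        ξ (D.q (t, D.ps t + (D.kd t).below + r)) *
        ξ (D.q (t, D.ps t + (D.kd t).below + r + 1)) := by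
    refine Finset.sum_congr rfl fun r hr => ?_
    have := Finset.mem_range.mp hr
    rw [D.q_right (j := D.ps t + (D.kd t).below + r) ht' (by omega) (by omega) (by omega),
      D.q_right (j := D.ps t + (D.kd t).below + r + 1) ht' (by omega) (by omega) (by omega)]
    congr 2
    rcases (D.kd t).above_cases with h | h <;> rcases (D.kd t).below_cases with h' | h' <;>
      rw [h, h'] <;> ring
  rw [e1, e2]
  have eW : D.q (t + 1, D.ps t) = D.q (t, D.ps t) := D.q_left ht' le_rfl
  cases hk : D.kd t with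
  | cup =>
    have := D.q_cup ht' hk
    simp only [Kind.above, Kind.below, Finset.sum_range_succ, Finset.range_zero, Finset.sum_empty,
      Nat.add_zero, Nat.add_assoc, ← this]
    simp
    ring
  | cap =>
    have := D.q_cap ht' hk
    simp only [Kind.above, Kind.below, Finset.sum_range_succ, Finset.range_zero, Finset.sum_empty,
      Nat.add_zero, Nat.add_assoc, ← this]
    simp
    ring
  | hole => simp [Kind.above, Kind.below]
  | cross b =>
    have eE : D.q (t + 1, D.ps t + 2) = D.q (t, D.ps t + 2) := by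
      refine D.q_right ht' ?_ ?_ ?_ <;> simp [hk, Kind.above, Kind.below] at hf ⊢
      exact hf
    have hb : (Kind.cross b = Kind.cross true ∨ Kind.cross b = Kind.cross false) := by
      cases b <;> simp
    rw [if_pos hb]
    simp only [Kind.above, Kind.below, Finset.sum_range_succ, Finset.range_zero, Finset.sum_empty,
      Nat.add_zero, Nat.add_assoc, eW, eE, P1, P2, cn, pd]
    rcases Nat.mod_two_eq_zero_or_one (D.ps t) with h | h
    · have : (-1 : ℚ) ^ D.ps t = 1 := Even.neg_one_pow (Nat.even_iff.mpr h)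
      simp [h, corner, pow_succ, this]
      ring
    · have : (-1 : ℚ) ^ D.ps t = -1 := Odd.neg_one_pow (Nat.odd_iff.mpr h)
      simp [h, corner, pow_succ, this]
      ring

/-- the gap of colour `c` beside a strand point -/
def side (c : ℕ) (p : ℕ × ℕ) : ℕ × ℕ := if p.2 % 2 = c then p else (p.1, p.2 + 1)

theorem side_end {c t : ℕ} (ht : t ∈ D.X) (d : Fin 4) (hd : D.col (D.cn t d) = c) :
    D.q (side c (endPoint t (D.ps t) d)) = D.cn t d ∧
      D.q (side c (endPoint t (D.ps t) (d + 3))) = D.cn t d := by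
  obtain ⟨h1, h2, h3, h4, h5⟩ := D.X_fit ht
  have eW : D.q (t + 1, D.ps t) = D.q (t, D.ps t) := D.q_left h1 le_rfl
  have eE : D.q (t + 1, D.ps t + 2) = D.q (t, D.ps t + 2) :=
    D.q_right h1 (by omega) h2 (by omega)
  rw [col_cn] at hd
  fin_cases d
  · have a1 : (D.ps t + 1) % 2 = c := by simpa using hd
    have a2 : ¬ D.ps t % 2 = c := by omega
    simp [side, endPoint, cn, corner, a1, a2]
  · have a1 : ¬ (D.ps t + 1) % 2 = c := by simp at hd; omega
    simp [side, endPoint, cn, corner, a1, eE]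
  · have a1 : (D.ps t + 1) % 2 = c := by simp at hd; omega
    have a2 : ¬ D.ps t % 2 = c := by omega
    simp [side, endPoint, cn, corner, a1, a2]
  · have a2 : D.ps t % 2 = c := by simp at hd; omega
    simp [side, endPoint, cn, corner, a2, eW]

theorem side_end' {c t : ℕ} (hc : c < 2) (ht : t ∈ D.X) (e : Fin 4) :
    D.q (side c (endPoint t (D.ps t) e)) = D.P1 c t ∨
      D.q (side c (endPoint t (D.ps t) e)) = D.P2 c t := by
  have h1 := D.side_end ht _ (D.col_P1 hc t)
  have h2 := D.side_end ht _ (D.col_P2 hc t)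
  have : e = D.pd c t ∨ e = D.pd c t + 3 ∨ e = D.pd c t + 2 ∨ e = D.pd c t + 2 + 3 := by
    generalize D.pd c t = d
    revert e d
    decide
  rcases this with rfl | rfl | rfl | rfl
  · exact Or.inl h1.1
  · exact Or.inl h1.2
  · exact Or.inr h2.1
  · exact Or.inr h2.2

theorem side_link {α : Type} {c : ℕ} (hc : c < 2) (ξ : D.Q → α) {ok : ℕ → Prop}
    (H : ∀ t ∈ D.X, ok t → ξ (D.P1 c t) = ξ (D.P2 c t)) {p p' : ℕ × ℕ}
    (h : StrandLink D ok p p') : ξ (D.q (side c p)) = ξ (D.q (side c p')) := by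
  cases h with
  | left t k i j ht hj =>
    obtain ⟨h1, rfl, rfl⟩ := D.of_get ht
    simp only [side]
    split_ifs
    · rw [D.q_left h1 (by omega)]
    · rw [D.q_left h1 (by omega)]
  | right t k i r ht hr =>
    obtain ⟨h1, rfl, rfl⟩ := D.of_get ht
    have e : (D.ps t + (D.kd t).above + r) % 2 = (D.ps t + (D.kd t).below + r) % 2 := by
      have := (D.kd t).above_cases
      have := (D.kd t).below_cases
      omega
    simp only [side, e]
    split_ifs
    · rw [D.q_right (j := D.ps t + (D.kd t).below + r) h1 (by omega) (le_of_lt hr) (by omega)]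
    · rw [D.q_right (j := D.ps t + (D.kd t).below + r + 1) h1 (by omega) hr (by omega)]
  | cup t i ht =>
    obtain ⟨h1, h2, rfl⟩ := D.of_get ht
    have := D.q_cup h1 h2
    simp only [side]
    split_ifs
    · omega
    · rw [this]
    · rfl
    · omega
  | cap t i ht =>
    obtain ⟨h1, h2, rfl⟩ := D.of_get ht
    have := D.q_cap h1 h2
    simp only [side]
    split_ifs
    · omega
    · rw [this]
    · rfl
    · omega
  | cross t b i ht hok e e' =>
    obtain ⟨h1, rfl⟩ := D.mem_X_of_get ht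
    have := H t h1 hok
    rcases D.side_end' hc h1 e with a | a <;> rcases D.side_end' hc h1 e' with a' | a' <;>
      rw [a, a'] <;> simp [this]

theorem side_eqv {α : Type} {c : ℕ} (hc : c < 2) (ξ : D.Q → α) {ok : ℕ → Prop}
    (H : ∀ t ∈ D.X, ok t → ξ (D.P1 c t) = ξ (D.P2 c t)) {p p' : ℕ × ℕ}
    (h : Relation.EqvGen (StrandLink D ok) p p') :
    ξ (D.q (side c p)) = ξ (D.q (side c p')) := by
  induction h with
  | rel _ _ h => exact D.side_link hc ξ H h
  | refl => rfl
  | symm _ _ _ ih => exact ih.symm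
  | trans _ _ _ _ _ ih1 ih2 => exact ih1.trans ih2

theorem side_cell (c : ℕ) {p : ℕ × ℕ} (hp : p.2 < D.wd p.1) : D.Cell (side c p) := by
  have := D.lt_of_wd_pos (t := p.1) (by omega)
  unfold side
  split_ifs
  · exact ⟨by omega, by omega⟩
  · exact ⟨by simp; omega, by simp; omega⟩

theorem col_side {c : ℕ} (hc : c < 2) (p : ℕ × ℕ) : D.col (D.q (side c p)) = c := by
  rw [col_q]
  unfold side
  split_ifs with h
  · exact h
  · simp only
    omega

theorem exists_side (hD : Connected D) {f : D.Q} (hf : f ∈ D.Reg) :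
    ∃ p : ℕ × ℕ, p.2 < D.wd p.1 ∧ D.q (side (D.col f) p) = f := by
  obtain ⟨⟨t, j⟩, ⟨h1, h2⟩, rfl⟩ := D.mem_Reg.mp hf
  simp only at h1 h2
  rw [col_q]
  by_cases h3 : j < D.wd t
  · exact ⟨(t, j), h3, by simp [side]⟩
  by_cases h4 : j = 0
  · subst h4
    obtain ⟨t₀, ht₀⟩ := hD.1
    refine ⟨(t₀, 0), ht₀, ?_⟩
    have := D.lt_of_wd_pos ht₀
    simp [side, D.q_zero h1, D.q_zero this.le]
  · refine ⟨(t, j - 1), by simp; omega, ?_⟩
    have a : ¬ (j - 1) % 2 = j % 2 := by omega
    have b : j - 1 + 1 = j := by omega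
    simp [side, a, b]

theorem const_of_cross {α : Type} (hD : Connected D) {c : ℕ} (hc : c < 2) (ξ : D.Q → α)
    (H : ∀ t ∈ D.X, ξ (D.P1 c t) = ξ (D.P2 c t)) {f f' : D.Q} (hf : f ∈ D.Reg) (hf' : f' ∈ D.Reg)
    (h1 : D.col f = c) (h2 : D.col f' = c) : ξ f = ξ f' := by
  obtain ⟨p, hp, e⟩ := D.exists_side hD hf
  obtain ⟨p', hp', e'⟩ := D.exists_side hD hf'
  rw [← e, ← e', h1, h2]
  exact D.side_eqv hc ξ (fun t ht _ => H t ht) (hD.2 p p' hp hp')

end Diagram

end Pool.Agent.Lib.MP_70b928_gt
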