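import Pool.Agent.Lib.MP_70b928_gt.Euler

set_option autoImplicit false

namespace Pool.Agent.Lib.MP_70b928_gt

namespace Diagram

variable {g : ℕ} (D : Diagram g)

/-- slices where a gap is born -/
def Bt : Finset ℕ := (Finset.range D.L).filter (fun t => (D.kd t).above = 2)

/-- the maxima -/
def Cp : Finset ℕ := (Finset.range D.L).filter (fun t => D.kd t = Kind.cap)

abbrev bc (t : ℕ) : D.Q := D.q (t + 1, D.ps t + 1)
abbrev mc (t : ℕ) : D.Q := D.q (t, D.ps t)

theorem mem_Bt {t : ℕ} : t ∈ D.Bt ↔ t < D.L ∧ (D.kd t).above = 2 := by simp [Bt]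
theorem mem_Cp {t : ℕ} : t ∈ D.Cp ↔ t < D.L ∧ D.kd t = Kind.cap := by simp [Cp]

theorem bc_mem {t : ℕ} (ht : t ∈ D.Bt) : D.bc t ∈ D.Reg := by
  obtain ⟨h1, h2⟩ := D.mem_Bt.mp ht
  have := D.fit h1
  have := D.wd_succ h1
  exact D.q_mem_Reg ⟨h1, by simp only; omega⟩

theorem mc_mem {t : ℕ} (ht : t < D.L) : D.mc t ∈ D.Reg := by
  have := D.fit ht
  exact D.q_mem_Reg ⟨ht.le, by simp only; omega⟩

theorem card_Bt : D.Bt.card = D.Cp.card + D.X.card := by
  have key : ∀ n ≤ D.L, 2 * ((Finset.range n).filter (fun t => (D.kd t).above = 2)).card =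
      D.wd n + 2 * (((Finset.range n).filter (fun t => D.kd t = Kind.cap)).card +
        ((Finset.range n).filter
          (fun t => D.kd t = Kind.cross true ∨ D.kd t = Kind.cross false)).card) := by
    intro n
    induction n with
    | zero => intro _; simp [wd, width_zero]
    | succ n ih =>
      intro hn
      have := ih (by omega)
      have hw := D.wd_succ (t := n) (by omega)
      simp only [Finset.card_filter, Finset.sum_range_succ] at this ⊢
      generalize (∑ i ∈ Finset.range n, if (D.kd i).above = 2 then 1 else 0) = x1 at *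
      generalize (∑ i ∈ Finset.range n, if D.kd i = Kind.cap then 1 else 0) = x2 at *
      generalize (∑ i ∈ Finset.range n,
        if D.kd i = Kind.cross true ∨ D.kd i = Kind.cross false then 1 else 0) = x3 at *
      cases hk : D.kd n with
      | cross b => cases b <;> simp [hk, Kind.above, Kind.below] at hw ⊢ <;> omega
      | _ => simp [hk, Kind.above, Kind.below] at hw ⊢; omega
  have := key D.L le_rfl
  rw [D.wd_ge le_rfl] at this
  simp only [Bt, Cp, X]
  omega

def root : ℕ → ℕ → ℕ := traj D.word (fun _ => 0) (fun t => t + 1)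

def rc (ρ : ℕ) : D.Q := if ρ = 0 then D.outer else D.bc (ρ - 1)

theorem rc_root {t j : ℕ} (ht : t ≤ D.L) (hj : j ≤ D.wd t) : D.rc (D.root t j) = D.q (t, j) := by
  unfold root
  rw [← traj_map D.rc]
  exact D.traj_lift id _ _ (by simp [rc]) (fun t _ _ => by simp [rc]) t ht j hj

def Rt : Finset ℕ := insert 0 (D.Bt.image (· + 1))

theorem root_mem {t : ℕ} (ht : t ≤ D.L) (j : ℕ) : D.root t j ∈ D.Rt := by
  induction t generalizing j with
  | zero => simp [root, traj, Rt]
  | succ t ih =>
    have ih' := ih (by omega)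
    simp only [root, traj, step] at ih' ⊢
    split_ifs with h1 h2
    · exact ih' _
    · exact ih' _
    · simp only [Rt, Finset.mem_insert, Finset.mem_image]
      refine Or.inr ⟨t, D.mem_Bt.mpr ⟨by omega, ?_⟩, rfl⟩
      rcases (D.kd t).above_cases with h | h
      · simp only [kd] at h; omega
      · exact h

open Classical in
theorem root_bound (f : D.Q) (E : Finset ℕ) (v₀ : ℕ) (hv : v₀ ∈ D.Rt) (hv' : D.rc v₀ = f)
    (H : ∀ ψ : ℕ → ℚ, (∀ e ∈ D.Cp, D.mc e ≠ f →
        ψ (D.root e (D.ps e)) = ψ (D.root e (D.ps e + 2))) →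
      (∀ e ∈ E, ψ (D.root e (D.ps e)) = ψ (D.root e (D.ps e + 2))) →
      ∀ e ∈ D.Cp, ψ (D.root e (D.ps e)) = ψ (D.root e (D.ps e + 2))) :
    (D.Rt.filter (fun ρ => D.rc ρ = f)).card ≤ E.card + 1 := by
  let L : (ℕ → ℚ) →ₗ[ℚ] (ℕ → ℚ) :=
    { toFun := fun ψ e => ψ (D.root e (D.ps e)) - ψ (D.root e (D.ps e + 2))
      map_add' := fun _ _ => by funext t; simp; ring
      map_smul' := fun _ _ => by funext t; simp; ring }
  have := (card_le_of_lin ((D.Rt.filter (fun ρ => D.rc ρ = f)).erase v₀) E L (by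
    intro ψ hψ hL
    have h1 : ∀ x, D.rc x ≠ f → ψ x = 0 := fun x hx => hψ x (by simp [hx])
    have h2 := H ψ (by
      intro e he hne
      obtain ⟨a, b⟩ := D.mem_Cp.mp he
      have hf := D.fit a
      simp only [b, Kind.below] at hf
      rw [h1, h1]
      · rw [D.rc_root a.le hf, ← D.q_cap a b]; exact hne
      · rw [D.rc_root a.le (by omega)]; exact hne) (fun e he => sub_eq_zero.mp (hL e he))
    obtain ⟨ξ, hξ⟩ := D.lift_traj (fun _ => ψ 0) (fun t => ψ (t + 1)) (by
      intro t ht hk
      have := h2 t (D.mem_Cp.mpr ⟨ht, hk⟩)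
      unfold root at this
      rwa [← traj_map ψ, ← traj_map ψ] at this)
    have h3 : ∀ x ∈ D.Rt, ψ x = ξ (D.rc x) := by
      intro x hx
      simp only [Rt, Finset.mem_insert, Finset.mem_image] at hx
      rcases hx with rfl | ⟨t, ht, rfl⟩
      · simp [rc, hξ, traj]
      · simp only [rc, Nat.add_eq_zero_iff, one_ne_zero, and_false, if_false, Nat.add_sub_cancel, hξ,
          traj]
        exact (step_mid _ _ _ _ (D.mem_Bt.mp ht).2).symm
    intro x
    by_cases hx : x ∈ (D.Rt.filter (fun ρ => D.rc ρ = f)).erase v₀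
    · simp only [Finset.mem_erase, Finset.mem_filter] at hx
      rw [h3 x hx.2.1, hx.2.2, ← hv', ← h3 v₀ hv]
      exact hψ v₀ (by simp)
    · exact hψ x hx)).1
  rw [Finset.card_erase_of_mem (by simp [hv, hv'])] at this
  omega

open Classical in
noncomputable def nbr (f : D.Q) : ℕ := (D.Bt.filter (fun t => D.bc t = f)).card

open Classical in
noncomputable def ncp (f : D.Q) : ℕ := (D.Cp.filter (fun t => D.mc t = f)).card

open Classical in
theorem card_Rt_filter (f : D.Q) :
    (D.Rt.filter (fun ρ => D.rc ρ = f)).card = D.nbr f + if f = D.outer then 1 else 0 := by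
  have e : (D.Bt.image (· + 1)).filter (fun ρ => D.rc ρ = f) =
      (D.Bt.filter (fun t => D.bc t = f)).image (· + 1) := by
    ext x
    simp only [Finset.mem_filter, Finset.mem_image]
    constructor
    · rintro ⟨⟨t, ht, rfl⟩, h⟩
      exact ⟨t, ⟨ht, by simpa [rc] using h⟩, rfl⟩
    · rintro ⟨t, ⟨ht, h⟩, rfl⟩
      exact ⟨⟨t, ht, rfl⟩, by simpa [rc] using h⟩
  have e2 : ((D.Bt.filter (fun t => D.bc t = f)).image (· + 1)).card = D.nbr f :=
    Finset.card_image_of_injective _ (add_left_injective 1)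
  rw [Rt, Finset.filter_insert, e]
  by_cases h : f = D.outer
  · rw [if_pos (by simp [rc, h]), if_pos h, Finset.card_insert_of_notMem (by simp), e2]
  · rw [if_neg (by simpa [rc] using Ne.symm h), if_neg h, e2, add_zero]

theorem nbr_le {f : D.Q} (hf : f ∈ D.Reg) (hne : f ≠ D.outer) : D.nbr f ≤ D.ncp f + 1 := by
  classical
  obtain ⟨c, hc, rfl⟩ := D.mem_Reg.mp hf
  have := D.root_bound (D.q c) (D.Cp.filter (fun t => D.mc t = D.q c)) (D.root c.1 c.2)
    (D.root_mem hc.1 _) (D.rc_root hc.1 hc.2) (by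
      intro ψ h1 h2 e he
      by_cases h : D.mc e = D.q c
      · exact h2 e (by simp [he, h])
      · exact h1 e he h)
  rw [card_Rt_filter, if_neg hne] at this
  exact this

theorem nbr_outer (hD : Connected D) : D.nbr D.outer + 1 ≤ D.ncp D.outer := by
  classical
  obtain ⟨t₁, ht₁⟩ := hD.1
  have hex : ∃ t₀, 0 < D.wd t₀ ∧ D.wd (t₀ + 1) = 0 := by
    by_contra hn
    push Not at hn
    have : ∀ n, 0 < D.wd (t₁ + n) := by
      intro n
      induction n with
      | zero => exact ht₁
      | succ n ih => exact Nat.pos_of_ne_zero (hn _ ih)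
    have := this D.L
    rw [D.wd_ge (by omega)] at this
    omega
  obtain ⟨t₀, a1, a2⟩ := hex
  have hlt := D.lt_of_wd_pos a1
  have hf := D.fit hlt
  have hw := D.wd_succ hlt
  have hk : D.kd t₀ = Kind.cap := by
    cases hk : D.kd t₀ <;> simp [hk, Kind.above, Kind.below] at hw hf ⊢ <;> omega
  simp only [hk, Kind.above, Kind.below] at hw hf
  have hp : D.ps t₀ = 0 := by omega
  have hw2 : D.wd t₀ = 2 := by omega
  have hmem : t₀ ∈ D.Cp.filter (fun t => D.mc t = D.outer) := by
    simp only [Finset.mem_filter, mem_Cp, mc, hp]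
    exact ⟨⟨hlt, hk⟩, D.q_zero hlt.le⟩
  have := D.root_bound D.outer ((D.Cp.filter (fun t => D.mc t = D.outer)).erase t₀) 0
    (by simp [Rt]) (by simp [rc]) (by
      intro ψ h1 h2
      have h3 : ∀ e ∈ D.Cp, e ≠ t₀ → ψ (D.root e (D.ps e)) = ψ (D.root e (D.ps e + 2)) := by
        intro e he hne
        by_cases h : D.mc e = D.outer
        · exact h2 e (by simp [he, h, hne])
        · exact h1 e he h
      have h4 : ∀ t ≤ t₀, ψ (D.root t 0) = ψ 0 ∧ ψ (D.root t (D.wd t)) = ψ 0 := by
        intro t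
        induction t with
        | zero => intro _; simp [root, traj]
        | succ t ih =>
          intro ht
          obtain ⟨i1, i2⟩ := ih (by omega)
          have hlt' : t < D.L := by omega
          refine ⟨by rw [← i1]; simp [root, traj, step], ?_⟩
          have hf' := D.fit hlt'
          have hw' := D.wd_succ hlt'
          obtain ⟨r, hr⟩ := Nat.exists_eq_add_of_le hf'
          have hr' : D.wd (t + 1) = D.ps t + (D.kd t).above + r := by omega
          rw [← i2, hr, hr']
          unfold root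
          rw [← traj_map ψ, ← traj_map ψ]
          refine step_right _ _ _ _ _ fun hk' => ?_
          have := h3 t (D.mem_Cp.mpr ⟨hlt', hk'⟩) (by omega)
          unfold root at this
          rwa [← traj_map ψ, ← traj_map ψ] at this
      intro e he
      by_cases hne : e = t₀
      · subst hne
        obtain ⟨i1, i2⟩ := h4 e le_rfl
        rw [hp, i1, ← i2, hw2]
      · exact h3 e he hne)
  rw [card_Rt_filter, if_pos rfl, Finset.card_erase_of_mem hmem] at this
  have := Finset.card_pos.mpr ⟨t₀, hmem⟩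
  unfold ncp
  omega

theorem exists_white (hD : Connected D) : ∃ t, t < D.L ∧ 2 ≤ D.wd t := by
  obtain ⟨t, ht⟩ := hD.1
  have := D.wd_even t
  exact ⟨t, D.lt_of_wd_pos ht, by simp only [wd] at *; omega⟩

theorem card_Reg_le (hD : Connected D) : D.Reg.card ≤ D.X.card + 2 := by
  classical
  obtain ⟨t, ht, hw⟩ := D.exists_white hD
  have hm : D.q (t, 1) ∈ D.Reg := D.q_mem_Reg ⟨ht.le, by simp only; omega⟩
  have hne : D.q (t, 1) ≠ D.outer := fun h => by
    have := congrArg D.col h
    simp [col_q] at this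
  have := (D.key hD ((D.Reg.erase D.outer).erase (D.q (t, 1))) D.X (fun t ht h => absurd ht h)
    (fun x hx => Finset.mem_of_mem_erase (Finset.mem_of_mem_erase hx)) (by
      intro c hc
      interval_cases c
      · exact ⟨D.outer, D.outer_mem, rfl, by simp⟩
      · exact ⟨_, hm, rfl, by simp⟩)).1
  rw [Finset.card_erase_of_mem (by simp [hm, hne]), Finset.card_erase_of_mem D.outer_mem] at this
  omega

open Classical in
theorem mu_exact (hD : Connected D) : D.Reg.card = D.X.card + 2 ∧
    ∀ f ∈ D.Reg, (D.nbr f : ℤ) - D.ncp f = if f = D.outer then -1 else 1 := by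
  classical
  have s1 : D.Bt.card = ∑ f ∈ D.Reg, D.nbr f :=
    Finset.card_eq_sum_card_fiberwise (f := D.bc) (fun t ht => D.bc_mem ht)
  have s2 : D.Cp.card = ∑ f ∈ D.Reg, D.ncp f :=
    Finset.card_eq_sum_card_fiberwise (f := D.mc) (fun t ht => D.mc_mem (D.mem_Cp.mp ht).1)
  have s3 := D.card_Bt
  have s4 := D.card_Reg_le hD
  have hle : ∀ f ∈ D.Reg, (D.nbr f : ℤ) - D.ncp f ≤ if f = D.outer then -1 else 1 := by
    intro f hf
    split_ifs with h
    · subst h; have := D.nbr_outer hD; omega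
    · have := D.nbr_le hf h; omega
  have s5 : ∑ f ∈ D.Reg, (if f = D.outer then (-1 : ℤ) else 1) = D.Reg.card - 2 := by
    rw [← Finset.add_sum_erase _ _ D.outer_mem, if_pos rfl,
      Finset.sum_congr rfl (g := fun _ => 1) (fun f hf => if_neg (Finset.mem_erase.mp hf).1)]
    have := Finset.card_erase_add_one D.outer_mem
    simp only [Finset.sum_const, nsmul_eq_mul, mul_one]
    omega
  have s6 : ∑ f ∈ D.Reg, ((D.nbr f : ℤ) - D.ncp f) = D.X.card := by
    rw [Finset.sum_sub_distrib, ← Nat.cast_sum, ← Nat.cast_sum, ← s1, ← s2, s3]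
    push_cast
    ring
  have s7 := Finset.sum_le_sum hle
  refine ⟨by omega, ?_⟩
  exact (Finset.sum_eq_sum_iff_of_le hle).mp (by omega)

theorem sum_births (hD : Connected D) (ξ : D.Q → ℤ) (h0 : ξ D.outer = 0) :
    ∑ t ∈ D.Bt, ξ (D.bc t) - ∑ t ∈ D.Cp, ξ (D.mc t) = ∑ f ∈ D.Reg, ξ f := by
  classical
  rw [← Finset.sum_fiberwise_of_maps_to (s := D.Bt) (t := D.Reg) (g := D.bc)
      (fun t ht => D.bc_mem ht),
    ← Finset.sum_fiberwise_of_maps_to (s := D.Cp) (t := D.Reg) (g := D.mc)
      (fun t ht => D.mc_mem (D.mem_Cp.mp ht).1), ← Finset.sum_sub_distrib]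
  refine Finset.sum_congr rfl fun f hf => ?_
  rw [Finset.sum_congr rfl (f := fun t => ξ (D.bc t)) (g := fun _ => ξ f)
      (fun t ht => by rw [(Finset.mem_filter.mp ht).2]),
    Finset.sum_congr rfl (f := fun t => ξ (D.mc t)) (g := fun _ => ξ f)
      (fun t ht => by rw [(Finset.mem_filter.mp ht).2])]
  have := (D.mu_exact hD).2 f hf
  simp only [Finset.sum_const, nsmul_eq_mul]
  unfold nbr ncp at this
  rw [← sub_mul, this]
  split_ifs with h
  · rw [h, h0, mul_zero]
  · rw [one_mul]

end Diagram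

end Pool.Agent.Lib.MP_70b928_gt
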