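import Pool.Agent.Lib.MP_70b928_gt.Raw

set_option autoImplicit false

namespace Pool.Agent.Lib.MP_70b928_gt

abbrev Path : Type := {h : ℕ → ℕ // IsPath h}

open Classical in
noncomputable def extd (φ : Path → FF) : (ℕ → ℕ) → FF :=
  fun k => if hk : IsPath k then φ ⟨k, hk⟩ else 0

theorem extd_path (φ : Path → FF) (h : Path) : extd φ h.1 = φ h := by
  simp [extd, h.2]

noncomputable def Op (s : Kind × ℕ) : Module.End FF (Path → FF) where
  toFun φ := fun h => Traw s (extd φ) h.1
  map_add' φ ψ := by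
    funext h
    simp only [Traw, Pi.add_apply, ← Finset.sum_add_distrib, ← mul_add]
    refine Finset.sum_congr rfl fun b hb => ?_
    simp [extd, h.2.step hb]
  map_smul' c φ := by
    funext h
    simp only [Traw, Pi.smul_apply, smul_eq_mul, RingHom.id_apply, Finset.mul_sum]
    refine Finset.sum_congr rfl fun b hb => ?_
    simp only [extd, h.2.step hb, dif_pos, Pi.smul_apply, smul_eq_mul]
    ring

theorem Op_apply (s : Kind × ℕ) (φ : Path → FF) (h : Path) :
    Op s φ h = Traw s (extd φ) h.1 := rfl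

theorem extd_Op (s : Kind × ℕ) (φ : Path → FF) (k : ℕ → ℕ) (hk : IsPath k) :
    extd (Op s φ) k = Traw s (extd φ) k := by
  simp [extd, hk, Op_apply]

theorem Op_mul_apply (s s' : Kind × ℕ) (φ : Path → FF) (h : Path) :
    (Op s * Op s') φ h = Traw s (Traw s' (extd φ)) h.1 := by
  rw [Module.End.mul_apply, Op_apply]
  exact Traw_congr s (extd_Op s' φ) h.2

theorem Op_exchange (k k' : Kind) (i r : ℕ) :
    Op (k, i) * Op (k', i + k.above + r) = Op (k', i + k.below + r) * Op (k, i) := by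
  ext φ h
  simp only [Op_mul_apply, Traw_exchange]

theorem Op_loop (i : ℕ) : Op (Kind.cup, i) * Op (Kind.cap, i) = lp • 1 := by
  ext φ h
  rw [Op_mul_apply, Traw_loop, extd_path]
  simp

theorem Op_zigzagL (i : ℕ) : Op (Kind.cup, i + 1) * Op (Kind.cap, i) = 1 := by
  ext φ h
  rw [Op_mul_apply, Traw_zigzagL _ _ h.2, extd_path]
  simp

theorem Op_zigzagR (i : ℕ) : Op (Kind.cup, i) * Op (Kind.cap, i + 1) = 1 := by
  ext φ h
  rw [Op_mul_apply, Traw_zigzagR _ _ h.2, extd_path]
  simp

theorem Op_kauffman (c : Bool) (i : ℕ) :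
    Op (Kind.cross c, i) = cf c • 1 + (cf c)⁻¹ • (Op (Kind.cap, i) * Op (Kind.cup, i)) := by
  ext φ h
  rw [Op_apply, Traw_kauffman _ _ _ h.2, extd_path]
  simp [← Op_mul_apply]

/-- diagonal operator -/
noncomputable def Dg (c : Bool) (i : ℕ) : Module.End FF (Path → FF) where
  toFun φ := fun h => ev c (h.1 i) (h.1 (i + 1)) * φ h
  map_add' φ ψ := by funext h; simp [mul_add]
  map_smul' c φ := by funext h; simp [mul_left_comm]

theorem Op_Dg (c : Bool) (i : ℕ) :
    Op (Kind.cross c, i) * Dg c i = Dg c (i + 1) * Op (Kind.cross (!c), i) := by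
  ext φ h
  simp only [Module.End.mul_apply]
  rw [Op_apply, Traw_congr _ (ψ := fun k => ev c (k i) (k (i + 1)) * extd φ k) _ h.2,
    Traw_ev _ _ _ h.2]
  · rfl
  · intro k hk
    simp [extd, hk, Dg]

section ring

theorem tl_RII' {K R : Type*} [Field K] [Ring R] [Algebra K R] (a : K) (hx : a ≠ 0) (e : R)
    (he : e * e = (-a ^ 2 - a⁻¹ ^ 2) • e) :
    (a • (1 : R) + a⁻¹ • e) * (a⁻¹ • (1 : R) + a • e) = 1 := by
  simp only [add_mul, mul_add, smul_mul_assoc, mul_smul_comm, one_mul, mul_one, he, smul_smul]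
  match_scalars
  · field_simp
  · field_simp
    ring

theorem tl_RIII' {K R : Type*} [Field K] [Ring R] [Algebra K R] (a : K) (hx : a ≠ 0) (e f : R)
    (he : e * e = (-a ^ 2 - a⁻¹ ^ 2) • e) (hf : f * f = (-a ^ 2 - a⁻¹ ^ 2) • f)
    (hefe : e * (f * e) = e) (hfef : f * (e * f) = f) :
    (a • (1 : R) + a⁻¹ • e) * ((a • (1 : R) + a⁻¹ • f) * (a • (1 : R) + a⁻¹ • e)) =
    (a • (1 : R) + a⁻¹ • f) * ((a • (1 : R) + a⁻¹ • e) * (a • (1 : R) + a⁻¹ • f)) := by
  simp only [add_mul, mul_add, smul_mul_assoc, mul_smul_comm, one_mul, mul_one,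
    he, hf, hefe, hfef, smul_smul]
  match_scalars <;> field_simp <;> ring

variable {R : Type*} [Ring R] [Algebra FF R]

theorem tl_RII (c : Bool) (e : R) (he : e * e = lp • e) :
    (cf c • (1 : R) + (cf c)⁻¹ • e) * (cf (!c) • (1 : R) + (cf (!c))⁻¹ • e) = 1 := by
  rw [cf_not, inv_inv]
  exact tl_RII' _ (cf_ne c) e (by rw [he, lp_eq c])

theorem tl_RIII (c : Bool) (e f : R) (he : e * e = lp • e) (hf : f * f = lp • f)
    (hefe : e * (f * e) = e) (hfef : f * (e * f) = f) :
    (cf c • (1 : R) + (cf c)⁻¹ • e) * ((cf c • (1 : R) + (cf c)⁻¹ • f) *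
      (cf c • (1 : R) + (cf c)⁻¹ • e)) =
    (cf c • (1 : R) + (cf c)⁻¹ • f) * ((cf c • (1 : R) + (cf c)⁻¹ • e) *
      (cf c • (1 : R) + (cf c)⁻¹ • f)) :=
  tl_RIII' _ (cf_ne c) e f (by rw [he, lp_eq c]) (by rw [hf, lp_eq c]) hefe hfef

end ring

/-- the operator of a word -/
noncomputable def Ow (w : List (Kind × ℕ)) : Module.End FF (Path → FF) := (w.map Op).prod

@[simp] theorem Ow_nil : Ow [] = 1 := rfl

@[simp] theorem Ow_cons (s : Kind × ℕ) (w : List (Kind × ℕ)) : Ow (s :: w) = Op s * Ow w := by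
  simp [Ow]

theorem Ow_append (u v : List (Kind × ℕ)) : Ow (u ++ v) = Ow u * Ow v := by
  simp [Ow]

theorem e_sq (i : ℕ) : (Op (Kind.cap, i) * Op (Kind.cup, i)) * (Op (Kind.cap, i) * Op (Kind.cup, i))
    = lp • (Op (Kind.cap, i) * Op (Kind.cup, i)) := by
  rw [mul_assoc, ← mul_assoc (Op (Kind.cup, i)), Op_loop]
  simp

theorem Op_RII (c : Bool) (i : ℕ) : Op (Kind.cross c, i) * Op (Kind.cross (!c), i) = 1 := by
  rw [Op_kauffman, Op_kauffman]
  exact tl_RII c _ (e_sq i)

theorem Ow_aroundLeft (c : Bool) (i : ℕ) : Ow (aroundLeft c i) = Dg c i := by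
  induction i with
  | zero =>
    ext φ h
    have h0 := h.2.1
    have h1 := h.2.2 0
    have : h.1 1 = 1 := by simp only [Nat.zero_add] at h1; omega
    simp [aroundLeft, Dg, ev, h0, this]
  | succ i ih =>
    rw [aroundLeft, Ow_cons, Ow_append, ih, ← mul_assoc, Op_Dg, mul_assoc]
    have := Op_RII (!c) i
    rw [Bool.not_not] at this
    simp [this]

theorem Ow_move {a b : List (Kind × ℕ)} (h : Move a b) : Ow a = Ow b := by
  have zL := Op_zigzagL
  have zR := Op_zigzagR
  have zL' : ∀ i x, Op (Kind.cup, i + 1) * (Op (Kind.cap, i) * x) = x := fun i x => by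
    rw [← mul_assoc, zL, one_mul]
  have zR' : ∀ i x, Op (Kind.cup, i) * (Op (Kind.cap, i + 1) * x) = x := fun i x => by
    rw [← mul_assoc, zR, one_mul]
  have lo' : ∀ i x, Op (Kind.cup, i) * (Op (Kind.cap, i) * x) = lp • x := fun i x => by
    rw [← mul_assoc, Op_loop]; simp
  cases h with
  | exchange k k' i r _ => simpa using Op_exchange k k' i r
  | zigzagL i => simpa using zL i
  | zigzagR i => simpa using zR i
  | crossCap c i =>
    simp only [Ow_cons, Ow_nil, mul_one, Op_kauffman, cf_not, inv_inv, add_mul, smul_mul_assoc,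
      one_mul, mul_assoc, zL, zR]
    rw [add_comm]
  | cupCross c i =>
    simp only [Ow_cons, Ow_nil, mul_one, Op_kauffman, cf_not, inv_inv, mul_add, mul_smul_comm,
      zL', zR']
    rw [add_comm]
  | framedRI c i =>
    simp only [Ow_cons, Ow_nil, mul_one, Op_kauffman, add_mul, smul_mul_assoc,
      one_mul, mul_assoc, zL, zR, mul_add, mul_smul_comm, Op_loop]
  | RII c i => simpa using Op_RII c i
  | RIII c i =>
    simp only [Ow_cons, Ow_nil, mul_one, Op_kauffman]
    refine tl_RIII c _ _ (e_sq i) (e_sq (i + 1)) ?_ ?_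
    · simp only [mul_assoc, zL', zR']
    · simp only [mul_assoc, zL', zR']
  | slide c i =>
    rw [Ow_append, Ow_aroundLeft]
    ext φ h
    simp only [Ow_cons, Ow_nil, mul_one]
    rw [Module.End.mul_apply (Dg c i)]
    change _ = ev c (h.1 i) (h.1 (i + 1)) * _
    rw [Op_mul_apply, Traw_cap, Traw_hole, step_left _ _ _ _ _ le_rfl]
    by_cases h0 : h.1 i = 0
    · have h1 := h.2.2 i
      have : h.1 (i + 1) = 1 := by omega
      simp [ev, h0, this]
    · simp [h0]

/-- the base path -/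
def base : ℕ → ℕ := fun j => j % 2

theorem base_path : IsPath base := ⟨rfl, fun j => by simp only [base]; omega⟩

/-- raw evaluation of a word -/
noncomputable def Zraw : List (Kind × ℕ) → (ℕ → ℕ) → FF
  | [], _ => 1
  | s :: w, h => Traw s (Zraw w) h

theorem Ow_one (w : List (Kind × ℕ)) (h : Path) : Ow w (fun _ => 1) h = Zraw w h.1 := by
  induction w generalizing h with
  | nil => rfl
  | cons s w ih =>
    rw [Ow_cons, Module.End.mul_apply, Op_apply, Zraw]
    refine Traw_congr s (fun k hk => ?_) h.2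
    rw [← ih ⟨k, hk⟩]
    exact extd_path _ ⟨k, hk⟩

/-- the state sum -/
noncomputable def Zs (w : List (Kind × ℕ)) : FF := Zraw w base

theorem Zs_eq (w : List (Kind × ℕ)) : Zs w = Ow w (fun _ => 1) ⟨base, base_path⟩ :=
  (Ow_one w ⟨base, base_path⟩).symm

theorem Zs_empty (g : ℕ) : Zs (List.replicate g (Kind.hole, 0)) = 1 := by
  induction g with
  | zero => rfl
  | succ g ih =>
    rw [List.replicate_succ, Zs, Zraw, Traw_hole, if_pos (show base 0 = 0 from rfl)]
    exact ih

theorem Zs_of_isBracket {g : ℕ} {D : Diagram g} {f : FF} (h : IsBracket D f) : f = Zs D.word := by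
  let ζ : (Diagram g →₀ FF) →ₗ[FF] FF := Finsupp.linearCombination FF (fun D => Zs D.word)
  have key : Submodule.span FF {x | SkeinRel g x} ≤ LinearMap.ker ζ := by
    rw [Submodule.span_le]
    intro x hx
    simp only [SetLike.mem_coe, LinearMap.mem_ker]
    cases hx with
    | move D D' u v a b hm hD hD' =>
      simp [ζ, Zs_eq, hD, hD', Ow_append, Ow_move hm]
    | kauffman D D₀ D₁ u v b i a ha hD h₀ h₁ =>
      have : a = cf b := ha
      subst this
      simp [ζ, Zs_eq, hD, h₀, h₁, Ow_append, Op_kauffman, mul_add, add_mul]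
    | loop D D₀ u v i hD h₀ =>
      have e := Op_loop i
      have e' : ∀ x, Op (Kind.cup, i) * (Op (Kind.cap, i) * x) = lp • x := fun x => by
        rw [← mul_assoc, Op_loop]; simp
      simp only [ζ, Zs_eq, hD, h₀, Ow_append, map_sub, Finsupp.linearCombination_single,
        Ow_cons, Ow_nil, mul_one, e]
      simp [lp]
  have := key h
  simp only [LinearMap.mem_ker, ζ, map_sub, Finsupp.linearCombination_single, emptyDiagram,
    Zs_empty, smul_eq_mul, mul_one, one_mul] at this
  linear_combination -this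

end Pool.Agent.Lib.MP_70b928_gt
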