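import Pool.Agent.Lib.MP_70b928_gt.Alt

set_option autoImplicit false

namespace Pool.Agent.Lib.MP_70b928_gt

theorem tau_swap1 (p p' q q' : ℕ) : tau p p' q q' = tau p' p q q' := by
  unfold tau
  rw [max_comm]
  split_ifs <;> omega

theorem tau_swap2 (p p' q q' : ℕ) : tau p p' q q' = tau p p' q' q := by
  unfold tau
  split_ifs <;> omega

theorem layer {ι : Type} (s : Finset ι) (f : ι → ℕ) (N : ℕ) (h : ∀ a ∈ s, f a ≤ N) :
    ∑ a ∈ s, f a = ∑ j ∈ Finset.range N, (s.filter (fun a => j < f a)).card := by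
  simp only [Finset.card_filter]
  rw [Finset.sum_comm]
  refine Finset.sum_congr rfl fun a ha => ?_
  rw [← Finset.card_filter]
  have : (Finset.range N).filter (fun j => j < f a) = Finset.range (f a) := by
    ext j
    have := h a ha
    simp only [Finset.mem_filter, Finset.mem_range]
    omega
  rw [this, Finset.card_range]

namespace Diagram

variable {g : ℕ} (D : Diagram g)

def ExtQ (f : D.Q) : Prop := f = D.outer ∨ ∃ t < D.L, D.kd t = Kind.hole ∧ f = D.mc t

theorem external_iff (c : ℕ × ℕ) : External D c ↔ D.ExtQ (D.q c) := by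
  unfold External ExtQ
  rw [same_iff]
  refine or_congr Iff.rfl ⟨?_, ?_⟩
  · rintro ⟨t, i, h, hs⟩
    obtain ⟨h1, h2, rfl⟩ := D.of_get h
    exact ⟨t, h1, h2, (D.same_iff _ _).mp hs⟩
  · rintro ⟨t, h1, h2, h3⟩
    exact ⟨t, D.ps t, by rw [D.get h1, h2], (D.same_iff _ _).mpr h3⟩

structure Height (H : D.Q → ℕ) : Prop where
  adj : ∀ t j, j < D.wd t →
    H (D.q (t, j)) + 1 = H (D.q (t, j + 1)) ∨ H (D.q (t, j + 1)) + 1 = H (D.q (t, j))
  ext : ∀ f, D.ExtQ f → H f = 0

variable {D}

theorem Height.par {H : D.Q → ℕ} (hH : D.Height H) {f : D.Q} (hf : f ∈ D.Reg) :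
    H f % 2 = D.col f := by
  obtain ⟨⟨t, j⟩, ⟨h1, h2⟩, rfl⟩ := D.mem_Reg.mp hf
  simp only at h1 h2
  rw [col_q]
  clear hf
  induction j with
  | zero => rw [D.q_zero h1, hH.ext _ (Or.inl rfl)]
  | succ j ih =>
    have := ih (by omega)
    have := hH.adj t j h2
    simp only at *
    omega

theorem Height.sd {H : D.Q → ℕ} (hH : D.Height H) {c : ℕ} (hc : c < 2) {p : ℕ × ℕ}
    (hp : p.2 < D.wd p.1) :
    H (D.q (side c p)) + 1 = H (D.q (side (1 - c) p)) ∨
      H (D.q (side (1 - c) p)) + 1 = H (D.q (side c p)) := by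
  have := hH.adj p.1 p.2 hp
  unfold side
  by_cases h : p.2 % 2 = c
  · rw [if_pos h, if_neg (by omega)]
    exact this
  · rw [if_neg h, if_pos (by omega)]
    exact this.symm

variable (D)

noncomputable def G (c : ℕ) (H : D.Q → ℕ) : ℤ :=
  2 * ∑ f ∈ D.Reg, (H f : ℤ) +
    ∑ t ∈ D.X, tau (H (D.P1 c t)) (H (D.P2 c t)) (H (D.P1 (1 - c) t)) (H (D.P2 (1 - c) t))

theorem traj_path {β : ℕ → ℕ} (hβ : Adm D.word base β) {t : ℕ} (ht : t ≤ D.L) :
    IsPath (traj D.word base β t) := by
  induction t with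
  | zero => exact base_path
  | succ t ih => exact (ih (by omega)).step (hβ t ht)

theorem height_of_adm {β : ℕ → ℕ} (hβ : Adm D.word base β) :
    ∃ H : D.Q → ℕ, D.Height H ∧ ∀ c, H (D.q c) = traj D.word base β c.1 c.2 := by
  obtain ⟨H, hH⟩ := D.lift_traj base β (fun t ht hk => cap_of_mem_opts (hβ t ht) hk)
  refine ⟨H, ⟨fun t j hj => ?_, ?_⟩, hH⟩
  · rw [hH, hH]
    exact (D.traj_path hβ (D.lt_of_wd_pos (t := t) (by omega)).le).2 j
  · rintro f (rfl | ⟨t, ht, hk, rfl⟩)
    · rw [hH]; rfl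
    · rw [hH]
      have := hβ t ht
      rw [show sl D.word t = (Kind.hole, D.ps t) from Prod.ext hk rfl] at this
      by_contra hne
      simp only at hne
      simp [opts, hne] at this

theorem dsum_eq (hD : Connected D) (δ : DegFun) {c : ℕ} (hc : c < 2)
    (hs : ∀ t < D.L, ∀ b, D.kd t = Kind.cross b → (δ.d (cf b) = 1 ↔ D.ps t % 2 ≠ c))
    {β : ℕ → ℕ} (hβ : Adm D.word base β) {H : D.Q → ℕ} (hH : D.Height H)
    (hHt : ∀ c, D.Cell c → H (D.q c) = traj D.word base β c.1 c.2) :
    dsum δ D.word base β = D.G c H := by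
  have e := D.sum_births hD (fun f => (H f : ℤ)) (by simp [hH.ext _ (Or.inl rfl)])
  unfold G dsum
  rw [← e, Bt, Cp, X, Finset.sum_filter, Finset.sum_filter, Finset.sum_filter,
    ← Finset.sum_sub_distrib, Finset.mul_sum, ← Finset.sum_add_distrib]
  refine Finset.sum_congr rfl fun t ht => ?_
  have ht' : t < D.L := Finset.mem_range.mp ht
  have hb := hβ t ht'
  have hf := D.fit ht'
  have hw := D.wd_succ ht'
  have hbc : (D.kd t).above = 2 → H (D.bc t) = β t := fun h => by
    rw [hHt (t + 1, D.ps t + 1) ⟨ht', by simp only; omega⟩]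
    exact step_mid _ _ _ _ h
  have hmc : H (D.mc t) = traj D.word base β t (D.ps t) := hHt _ ⟨ht'.le, by simp only; omega⟩
  rw [show sl D.word t = (D.kd t, D.ps t) from rfl] at hb ⊢
  cases hk : D.kd t with
  | cup => simp [lw, δ.d_qd, Kind.above, hbc (by rw [hk]; rfl)]
  | cap => simp [lw, δ.d_qd, δ.d_inv _ (qd_ne _), Kind.above, hmc]
  | hole => simp [lw, δ.d_one, Kind.above]
  | cross b =>
    rw [hk] at hb
    have hb' : (Kind.cross b = Kind.cross true ∨ Kind.cross b = Kind.cross false) := by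
      cases b <;> simp
    simp only [hk, Kind.below] at hf
    have h1 : H (D.q (t, D.ps t + 1)) = traj D.word base β t (D.ps t + 1) :=
      hHt _ ⟨ht'.le, by simp only; omega⟩
    have h2 : H (D.q (t, D.ps t + 2)) = traj D.word base β t (D.ps t + 2) :=
      hHt _ ⟨ht'.le, by simp only; omega⟩
    have h3 := hbc (by rw [hk]; rfl)
    rw [(lw_cross δ b _ (D.traj_path hβ ht'.le) hb).2, if_pos hb', ← h1, ← h2, ← hmc, ← h3]
    simp only [Kind.above, if_true, reduceCtorEq, if_false, sub_zero, hs t ht' b hk]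
    congr 1
    simp only [P1, P2, cn, pd, mc, bc]
    rcases Nat.mod_two_eq_zero_or_one (D.ps t) with h | h <;> interval_cases c <;>
      simp [h, corner] <;> first | rfl | exact tau_swap1 _ _ _ _ | exact tau_swap2 _ _ _ _

theorem adm_of_height {H : D.Q → ℕ} (hH : D.Height H) :
    Adm D.word base (fun t => if (D.kd t).above = 2 then H (D.bc t) else 0) ∧
    ∀ c, D.Cell c → H (D.q c) =
      traj D.word base (fun t => if (D.kd t).above = 2 then H (D.bc t) else 0) c.1 c.2 := by
  have h := D.traj_lift H base (fun t => if (D.kd t).above = 2 then H (D.bc t) else 0)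
    (by rw [hH.ext _ (Or.inl rfl)]; rfl) (fun t _ h => if_pos h)
  refine ⟨fun t ht => ?_, fun c hc => (h c.1 hc.1 c.2 hc.2).symm⟩
  have hf := D.fit ht
  have hw := D.wd_succ ht
  have h0 := h t ht.le (D.ps t) (by omega)
  have eW : D.q (t + 1, D.ps t) = D.q (t, D.ps t) := D.q_left ht le_rfl
  rw [show sl D.word t = (D.kd t, D.ps t) from rfl]
  beta_reduce
  have h' := h t ht.le
  clear h
  generalize traj D.word base (fun t => if (D.kd t).above = 2 then H (D.bc t) else 0) t = y at *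
  cases hk : D.kd t with
  | cup =>
    simp only [hk, Kind.above, Kind.below] at hf hw
    have := hH.adj (t + 1) (D.ps t) (by omega)
    simp only [opts, h0, mem_nb, Kind.above, if_true, bc, ← eW]
    omega
  | cap =>
    simp only [hk, Kind.above, Kind.below] at hf hw
    have h2 := h' (D.ps t + 2) (by omega)
    simp [opts, h0, h2, Kind.above, D.q_cap ht hk]
  | hole =>
    have := hH.ext _ (Or.inr ⟨t, ht, hk, rfl⟩)
    simp [opts, h0, Kind.above, this]
  | cross b =>
    obtain ⟨-, -, a3, a4, a5⟩ := D.X_fit (D.mem_X.mpr ⟨ht, b, hk⟩)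
    simp only [hk, Kind.above, Kind.below] at hf hw
    have h2 := h' (D.ps t + 2) (by omega)
    have eE : D.q (t + 1, D.ps t + 2) = D.q (t, D.ps t + 2) :=
      D.q_right ht (by omega) hf (by omega)
    have b1 := hH.adj (t + 1) (D.ps t) (by omega)
    have b2 := hH.adj (t + 1) (D.ps t + 1) (by omega)
    simp only [opts, h0, h2, mem_nb, Kind.above, if_true, bc, ← eW, ← eE, Finset.mem_inter]
    rw [show D.ps t + 1 + 1 = D.ps t + 2 from rfl] at b2
    omega

theorem deg_of_max (hD : Connected D) (δ : DegFun) {c : ℕ} (hc : c < 2)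
    (hs : ∀ t < D.L, ∀ b, D.kd t = Kind.cross b → (δ.d (cf b) = 1 ↔ D.ps t % 2 ≠ c))
    {H₀ : D.Q → ℕ} (h₀ : D.Height H₀)
    (hmax : ∀ H, D.Height H → (∃ f ∈ D.Reg, H f ≠ H₀ f) → D.G c H < D.G c H₀) :
    Zs D.word ≠ 0 ∧ δ.d (Zs D.word) = D.G c H₀ := by
  obtain ⟨a1, a2⟩ := D.adm_of_height h₀
  rw [← D.dsum_eq hD δ hc hs a1 h₀ a2]
  refine Zraw_exact δ D.word base base_path _ a1 fun β hβ ⟨t, ht, hne⟩ => ?_
  obtain ⟨H, hH, hHt⟩ := D.height_of_adm hβ
  rw [D.dsum_eq hD δ hc hs a1 h₀ a2, D.dsum_eq hD δ hc hs hβ hH (fun c _ => hHt c)]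
  refine hmax H hH ?_
  by_cases hk : (D.kd t).above = 2
  · refine ⟨D.bc t, D.bc_mem (D.mem_Bt.mpr ⟨ht, hk⟩), ?_⟩
    rw [if_pos hk] at hne
    rwa [hHt, show traj D.word base β (t + 1, D.ps t + 1).1 (t + 1, D.ps t + 1).2 = β t from
      step_mid _ _ _ _ hk]
  · exfalso
    apply hne
    rw [if_neg hk]
    have hb := hβ t ht
    rw [show sl D.word t = (D.kd t, D.ps t) from rfl] at hb
    cases hk' : D.kd t <;> simp [hk', Kind.above] at hk <;> simp only [hk', opts] at hb <;>
      split_ifs at hb <;> simp_all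

theorem cn_mem {t : ℕ} (ht : t ∈ D.X) (d : Fin 4) : D.cn t d ∈ D.Reg :=
  D.q_mem_Reg (D.corner_cell ht d)

theorem layer_ineq (hD : Connected D) (hex : ∀ t, ¬ Excluded D t) {c : ℕ} (hc : c < 2)
    {H : D.Q → ℕ} (hH : D.Height H) :
    ∑ f ∈ D.Reg, (H f - c) / 2 ≤
        ∑ t ∈ D.X, max ((H (D.P1 c t) - c) / 2) ((H (D.P2 c t) - c) / 2) ∧
      ((∃ f ∈ D.Reg, 0 < (H f - c) / 2) → ∑ f ∈ D.Reg, (H f - c) / 2 <
        ∑ t ∈ D.X, max ((H (D.P1 c t) - c) / 2) ((H (D.P2 c t) - c) / 2)) := by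
  classical
  set N := ∑ f ∈ D.Reg, (H f - c) / 2 with hN
  have hle : ∀ f ∈ D.Reg, (H f - c) / 2 ≤ N := fun f hf =>
    Finset.single_le_sum (f := fun f => (H f - c) / 2) (fun _ _ => Nat.zero_le _) hf
  have l1 := layer D.Reg (fun f => (H f - c) / 2) N hle
  have l2 := layer D.X (fun t => max ((H (D.P1 c t) - c) / 2) ((H (D.P2 c t) - c) / 2)) N
    (fun t ht => max_le (hle _ (D.cn_mem ht _)) (hle _ (D.cn_mem ht _)))
  have key : ∀ j, (D.Reg.filter (fun f => j < (H f - c) / 2)).Nonempty →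
      (D.Reg.filter (fun f => j < (H f - c) / 2)).card <
        (D.X.filter (fun t => j < max ((H (D.P1 c t) - c) / 2) ((H (D.P2 c t) - c) / 2))).card := by
    intro j hne
    have := D.level_set hD hex hc (D.Reg.filter (fun f => j < (H f - c) / 2))
      (Finset.filter_subset _ _) hne (by
        intro c' hc'
        interval_cases c'
        · exact ⟨D.outer, D.outer_mem, rfl, by simp [hH.ext _ (Or.inl rfl)]⟩
        · obtain ⟨t, ht, hw⟩ := D.exists_white hD
          refine ⟨D.q (t, 1), D.q_mem_Reg ⟨ht.le, by simp only; omega⟩, rfl, ?_⟩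
          have := hH.adj t 0 (by omega)
          rw [D.q_zero ht.le, hH.ext _ (Or.inl rfl)] at this
          simp only [Finset.mem_filter, not_and, not_lt]
          intro _
          simp only [Nat.zero_add] at this
          omega) (by
        intro p hp h
        have m := D.q_mem_Reg (D.side_cell c hp)
        have a := hH.sd hc hp
        have b := hH.par m
        rw [D.col_side hc] at b
        simp only [Finset.mem_filter] at h ⊢
        exact ⟨m, by omega⟩) (by
        intro p hp h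
        have a := hH.adj p.1 p.2 hp
        simp only [Finset.mem_filter] at h
        have b : 2 ≤ H (D.q (side c p)) := by omega
        rw [external_iff, external_iff]
        constructor
        · intro he
          have := hH.ext _ he
          unfold side at b
          split_ifs at b <;> simp only [Prod.mk.eta] at a <;> omega
        · intro he
          have := hH.ext _ he
          unfold side at b
          split_ifs at b <;> simp only [Prod.mk.eta] at a <;> omega)
    refine lt_of_lt_of_eq this (congrArg Finset.card (Finset.filter_congr fun t ht => ?_))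
    simp only [Finset.mem_filter, D.cn_mem ht, true_and, lt_max_iff]
  have hle2 : ∀ j ∈ Finset.range N, (D.Reg.filter (fun f => j < (H f - c) / 2)).card ≤
      (D.X.filter (fun t => j < max ((H (D.P1 c t) - c) / 2) ((H (D.P2 c t) - c) / 2))).card := by
    intro j _
    rcases (D.Reg.filter (fun f => j < (H f - c) / 2)).eq_empty_or_nonempty with h | h
    · rw [h]; exact Nat.zero_le _
    · exact (key j h).le
  rw [l2]
  refine ⟨le_of_eq_of_le l1 (Finset.sum_le_sum hle2), fun ⟨f, hf, hpos⟩ => lt_of_eq_of_lt l1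
    (Finset.sum_lt_sum hle2 ⟨0, ?_, key 0 ⟨f, Finset.mem_filter.mpr ⟨hf, hpos⟩⟩⟩)⟩
  have := hle f hf
  simp only [Finset.mem_range]
  omega

theorem ext_col (hz : ModTwoTrivial D) {f : D.Q} (hf : D.ExtQ f) : D.col f = 0 := by
  rcases hf with rfl | ⟨t, ht, hk, rfl⟩
  · rfl
  · exact Nat.even_iff.mp (hz t (D.ps t) (by rw [D.get ht, hk]))

theorem height_col (hz : ModTwoTrivial D) : D.Height D.col :=
  ⟨fun t j _ => by simp only [col_q]; omega, fun _ hf => D.ext_col hz hf⟩

open Classical in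
noncomputable def top (f : D.Q) : ℕ := if D.col f = 1 then 1 else if D.ExtQ f then 0 else 2

theorem height_top (hz : ModTwoTrivial D) : D.Height D.top := by
  refine ⟨fun t j _ => ?_, fun f hf => by simp [top, D.ext_col hz hf, hf]⟩
  simp only [top, col_q]
  split_ifs <;> omega

theorem G_col : D.G 0 D.col = 2 * ∑ f ∈ D.Reg, (D.col f : ℤ) + D.X.card := by
  unfold G
  congr 1
  rw [Finset.sum_congr rfl (g := fun _ => 1)]
  · simp
  · intro t _
    rw [D.col_P1 (by norm_num), D.col_P2 (by norm_num), D.col_P1 (by norm_num),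
      D.col_P2 (by norm_num)]
    rfl

theorem max_col (hD : Connected D) (hex : ∀ t, ¬ Excluded D t) (H : D.Q → ℕ) (hH : D.Height H)
    (hne : ∃ f ∈ D.Reg, H f ≠ D.col f) : D.G 0 H < D.G 0 D.col := by
  obtain ⟨f, hf, hne⟩ := hne
  have h := (D.layer_ineq hD hex (c := 0) (by norm_num) hH).2
    ⟨f, hf, by have := hH.par hf; omega⟩
  rw [G_col]
  unfold G
  have e1 : ∑ f ∈ D.Reg, (H f : ℤ) =
      ∑ f ∈ D.Reg, (D.col f : ℤ) + 2 * ((∑ f ∈ D.Reg, (H f - 0) / 2 : ℕ) : ℤ) := by
    rw [Nat.cast_sum, Finset.mul_sum, ← Finset.sum_add_distrib]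
    refine Finset.sum_congr rfl fun f hf => ?_
    have := hH.par hf
    omega
  have e2 : ∑ t ∈ D.X, tau (H (D.P1 0 t)) (H (D.P2 0 t)) (H (D.P1 (1 - 0) t)) (H (D.P2 (1 - 0) t)) ≤
      D.X.card - 4 * ((∑ t ∈ D.X, max ((H (D.P1 0 t) - 0) / 2) ((H (D.P2 0 t) - 0) / 2) : ℕ) : ℤ) := by
    rw [Nat.cast_sum, Finset.mul_sum, Finset.card_eq_sum_ones, Nat.cast_sum,
      ← Finset.sum_sub_distrib]
    refine Finset.sum_le_sum fun t ht => ?_
    have a1 := hH.par (D.cn_mem ht (D.pd 0 t))
    have a2 := hH.par (D.cn_mem ht (D.pd 0 t + 2))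
    rw [D.col_P1 (by norm_num)] at a1
    rw [D.col_P2 (by norm_num)] at a2
    unfold tau
    simp only [Nat.max_def]
    split_ifs <;> push_cast <;> omega
  omega

open Classical in
noncomputable def K : Finset ℕ := D.X.filter (fun t => D.ExtQ (D.P1 0 t) ∧ D.ExtQ (D.P2 0 t))

theorem G_top : D.G 1 D.top = 2 * ∑ f ∈ D.Reg, (D.top f : ℤ) - D.X.card - 4 * D.K.card := by
  classical
  unfold G K
  rw [Finset.card_filter, Finset.card_eq_sum_ones D.X, Nat.cast_sum, Nat.cast_sum,
    Finset.mul_sum D.X, sub_sub, ← Finset.sum_add_distrib, sub_eq_add_neg, ← Finset.sum_neg_distrib]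
  congr 1
  refine Finset.sum_congr rfl fun t _ => ?_
  simp only [top, D.col_P1 (show 1 < 2 by norm_num), D.col_P2 (show 1 < 2 by norm_num),
    Nat.sub_self, D.col_P1 (show 0 < 2 by norm_num), D.col_P2 (show 0 < 2 by norm_num)]
  by_cases h1 : D.ExtQ (D.P1 0 t) <;> by_cases h2 : D.ExtQ (D.P2 0 t) <;> simp [h1, h2, tau]

theorem max_top (hD : Connected D) (hex : ∀ t, ¬ Excluded D t) (H : D.Q → ℕ) (hH : D.Height H)
    (hne : ∃ f ∈ D.Reg, H f ≠ D.top f) : D.G 1 H < D.G 1 D.top := by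
  classical
  obtain ⟨h1, h2⟩ := D.layer_ineq hD hex (c := 1) (by norm_num) hH
  rw [G_top]
  unfold G
  have hle : ∀ f ∈ D.Reg, (H f : ℤ) ≤ D.top f + 2 * (((H f - 1) / 2 : ℕ) : ℤ) := by
    intro f hf
    have a := hH.par hf
    have b := D.col_lt f
    have c := hH.ext f
    unfold top
    split_ifs with x y
    · omega
    · have := c y; omega
    · omega
  have e1 : ∑ f ∈ D.Reg, ((D.top f : ℤ) + 2 * (((H f - 1) / 2 : ℕ) : ℤ)) =
      ∑ f ∈ D.Reg, (D.top f : ℤ) + 2 * ((∑ f ∈ D.Reg, (H f - 1) / 2 : ℕ) : ℤ) := by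
    rw [Nat.cast_sum, Finset.mul_sum, ← Finset.sum_add_distrib]
  have e2 : ∑ t ∈ D.X, tau (H (D.P1 1 t)) (H (D.P2 1 t)) (H (D.P1 (1 - 1) t)) (H (D.P2 (1 - 1) t)) ≤
      -D.X.card - 4 * D.K.card -
        4 * ((∑ t ∈ D.X, max ((H (D.P1 1 t) - 1) / 2) ((H (D.P2 1 t) - 1) / 2) : ℕ) : ℤ) := by
    unfold K
    rw [Finset.card_filter, Nat.cast_sum, Nat.cast_sum, Finset.mul_sum, Finset.mul_sum,
      Finset.card_eq_sum_ones, Nat.cast_sum, ← Finset.sum_neg_distrib,
      ← Finset.sum_sub_distrib, ← Finset.sum_sub_distrib]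
    refine Finset.sum_le_sum fun t ht => ?_
    have a1 := hH.par (D.cn_mem ht (D.pd 1 t))
    have a2 := hH.par (D.cn_mem ht (D.pd 1 t + 2))
    rw [D.col_P1 (by norm_num)] at a1
    rw [D.col_P2 (by norm_num)] at a2
    by_cases hK : D.ExtQ (D.P1 0 t) ∧ D.ExtQ (D.P2 0 t)
    · have b1 := hH.ext _ hK.1
      have b2 := hH.ext _ hK.2
      have s1 := hH.sd (c := 1) (by norm_num) (D.endPoint_lt ht (D.pd 1 t))
      have s2 := hH.sd (c := 1) (by norm_num) (D.endPoint_lt ht (D.pd 1 t + 2))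
      rw [(D.side_end ht _ (D.col_P1 (by norm_num) t)).1] at s1
      rw [(D.side_end ht _ (D.col_P2 (by norm_num) t)).1] at s2
      have z1 : H (D.q (side (1 - 1) (endPoint t (D.ps t) (D.pd 1 t)))) = 0 := by
        rcases D.side_end' (c := 0) (by norm_num) ht (D.pd 1 t) with e | e <;>
          simp only [Nat.sub_self, e, b1, b2]
      have z2 : H (D.q (side (1 - 1) (endPoint t (D.ps t) (D.pd 1 t + 2)))) = 0 := by
        rcases D.side_end' (c := 0) (by norm_num) ht (D.pd 1 t + 2) with e | e <;>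
          simp only [Nat.sub_self, e, b1, b2]
      have c1 : H (D.P1 1 t) = 1 := by simp only [P1]; omega
      have c2 : H (D.P2 1 t) = 1 := by simp only [P2]; omega
      simp [tau, hK, b1, b2, c1, c2]
    · unfold tau
      rw [if_neg hK]
      simp only [P1, P2, Nat.max_def]
      split_ifs <;> push_cast <;> omega
  by_cases hpos : ∃ f ∈ D.Reg, 0 < (H f - 1) / 2
  · have := h2 hpos
    have := Finset.sum_le_sum hle
    omega
  · obtain ⟨f, hf, hne⟩ := hne
    have := Finset.sum_lt_sum hle ⟨f, hf, by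
      have a := hle f hf
      have b : (H f - 1) / 2 = 0 := by
        by_contra hh
        exact hpos ⟨f, hf, Nat.pos_of_ne_zero hh⟩
      omega⟩
    omega

open Classical in
theorem card_ext (hF : FillsHoles D) : (D.Reg.filter D.ExtQ).card = g + 1 := by
  have e : D.Reg.filter D.ExtQ =
      insert D.outer (((Finset.range D.L).filter (fun t => D.kd t = Kind.hole)).image D.mc) := by
    ext f
    simp only [Finset.mem_filter, Finset.mem_insert, Finset.mem_image, Finset.mem_range, ExtQ]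
    constructor
    · rintro ⟨-, h | ⟨t, ht, hk, rfl⟩⟩
      · exact Or.inl h
      · exact Or.inr ⟨t, ⟨ht, hk⟩, rfl⟩
    · rintro (rfl | ⟨t, ⟨ht, hk⟩, rfl⟩)
      · exact ⟨D.outer_mem, Or.inl rfl⟩
      · exact ⟨D.mc_mem ht, Or.inr ⟨t, ht, hk, rfl⟩⟩
  rw [e, Finset.card_insert_of_notMem, Finset.card_image_of_injOn]
  · have := countP_eq (fun s => s.1 = Kind.hole) D.word
    have h2 : D.word.countP (fun s => s.1 = Kind.hole) = g := D.valid.2.2
    rw [h2] at this
    exact congrArg (· + 1) this.symm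
  · intro t ht t' ht' h
    simp only [Finset.coe_filter, Finset.mem_range, Set.mem_ofPred_eq] at ht ht'
    exact (hF t _ (by rw [D.get ht.1, ht.2])).2 t' _ (by rw [D.get ht'.1, ht'.2])
      ((D.same_iff _ _).mpr h)
  · simp only [Finset.mem_image, Finset.mem_filter, Finset.mem_range, not_exists, not_and]
    intro t ht h
    exact (hF t _ (by rw [D.get ht.1, ht.2])).1 ((D.same_iff _ _).mpr h)

theorem card_K (hz : ModTwoTrivial D) : D.K.card = twoExternal D + twiceExternal D := by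
  classical
  have e1 : twoExternal D = (D.K.filter (fun t => D.P1 0 t ≠ D.P2 0 t)).card := by
    rw [twoExternal, ← Set.ncard_coe_finset]
    congr 1
    ext t
    simp only [Set.mem_ofPred_eq, Finset.coe_filter, K, Finset.mem_filter, external_iff, same_iff]
    constructor
    · rintro ⟨b, i, h, d, d', h1, h2, h3⟩
      obtain ⟨ht, rfl⟩ := D.mem_X_of_get h
      rcases D.pd_cases (c := 0) (by norm_num) t d (D.ext_col hz h1) with rfl | rfl <;>
        rcases D.pd_cases (c := 0) (by norm_num) t d' (D.ext_col hz h2) with rfl | rfl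
      · exact absurd rfl h3
      · exact ⟨⟨ht, h1, h2⟩, h3⟩
      · exact ⟨⟨ht, h2, h1⟩, Ne.symm h3⟩
      · exact absurd rfl h3
    · rintro ⟨⟨ht, h1, h2⟩, h3⟩
      obtain ⟨hlt, b, hk⟩ := D.mem_X.mp ht
      exact ⟨b, D.ps t, by rw [D.get hlt, hk], _, _, h1, h2, h3⟩
  have e2 : twiceExternal D = (D.K.filter (fun t => ¬ D.P1 0 t ≠ D.P2 0 t)).card := by
    rw [twiceExternal, ← Set.ncard_coe_finset]
    congr 1
    ext t
    simp only [Set.mem_ofPred_eq, Finset.coe_filter, K, Finset.mem_filter, external_iff, same_iff,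
      not_not]
    constructor
    · rintro ⟨b, i, h, d, d', h0, h1, h3⟩
      obtain ⟨ht, rfl⟩ := D.mem_X_of_get h
      have h2 : D.ExtQ (D.q (corner t (D.ps t) d')) := h3 ▸ h1
      rcases D.pd_cases (c := 0) (by norm_num) t d (D.ext_col hz h1) with rfl | rfl <;>
        rcases D.pd_cases (c := 0) (by norm_num) t d' (D.ext_col hz h2) with rfl | rfl
      · exact absurd rfl h0
      · exact ⟨⟨ht, h1, h2⟩, h3⟩
      · exact ⟨⟨ht, h2, h1⟩, h3.symm⟩
      · exact absurd rfl h0
    · rintro ⟨⟨ht, h1, h2⟩, h3⟩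
      obtain ⟨hlt, b, hk⟩ := D.mem_X.mp ht
      exact ⟨b, D.ps t, by rw [D.get hlt, hk], _, _,
        (by decide : ∀ a : Fin 4, a ≠ a + 2) _, h1, h3⟩
  rw [e1, e2, Finset.card_filter_add_card_filter_not]

theorem crossings_eq : crossings D = D.X.card := by
  rw [crossings, ← Set.ncard_coe_finset]
  congr 1
  ext t
  simp only [Set.mem_ofPred_eq, Finset.mem_coe]
  constructor
  · rintro ⟨b, i, h⟩
    exact (D.mem_X_of_get h).1
  · intro h
    obtain ⟨hlt, b, hk⟩ := D.mem_X.mp h
    exact ⟨b, D.ps t, by rw [D.get hlt, hk]⟩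

theorem G_sum (hD : Connected D) (hF : FillsHoles D) (hz : ModTwoTrivial D) :
    D.G 0 D.col + D.G 1 D.top =
      4 * crossings D + 4 - 4 * g - 4 * twoExternal D - 4 * twiceExternal D := by
  classical
  have h1 := (D.mu_exact hD).1
  have h2 := D.card_ext hF
  have h3 : ∑ f ∈ D.Reg, (D.col f : ℤ) + ∑ f ∈ D.Reg, (D.top f : ℤ) =
      2 * D.Reg.card - 2 * (D.Reg.filter D.ExtQ).card := by
    rw [Finset.card_filter, Finset.card_eq_sum_ones D.Reg, Nat.cast_sum, Nat.cast_sum,
      Finset.mul_sum, Finset.mul_sum, ← Finset.sum_add_distrib, ← Finset.sum_sub_distrib]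
    refine Finset.sum_congr rfl fun f _ => ?_
    have := D.col_lt f
    have := D.ext_col hz (f := f)
    unfold top
    split_ifs with a b b
    · have := this b; omega
    · omega
    · have := this b; omega
    · omega
  rw [G_col, G_top, D.card_K hz, crossings_eq]
  push_cast
  omega

theorem breadth_Zs (hD : Connected D) (hA : Alternating D) (hex : ∀ t, ¬ Excluded D t)
    (hF : FillsHoles D) (hz : ModTwoTrivial D) :
    Zs D.word ≠ 0 ∧ breadth (Zs D.word) =
      4 * crossings D + 4 - 4 * g - 4 * twoExternal D - 4 * twiceExternal D := by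
  obtain ⟨v, hv, hb⟩ := D.alt_const hD hA
  have t1 : ∀ b, topDeg.d (cf b) = 1 ↔ b = true := fun b => by
    rw [DegFun.d_cf]; cases b <;> simp [topDeg]
  have t2 : ∀ b, botDeg.d (cf b) = 1 ↔ ¬ b = true := fun b => by
    rw [DegFun.d_cf]; cases b <;> simp [botDeg]
  rw [breadth_eq, ← D.G_sum hD hF hz]
  interval_cases v
  · obtain ⟨a1, a2⟩ := D.deg_of_max hD topDeg (c := 1) (by norm_num)
      (fun t ht b hk => by rw [t1, hb t ht b hk]; omega) (D.height_top hz) (D.max_top hD hex)
    obtain ⟨-, a3⟩ := D.deg_of_max hD botDeg (c := 0) (by norm_num)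
      (fun t ht b hk => by rw [t2, hb t ht b hk]) (D.height_col hz) (D.max_col hD hex)
    exact ⟨a1, by rw [a2, a3, add_comm]⟩
  · obtain ⟨a1, a2⟩ := D.deg_of_max hD topDeg (c := 0) (by norm_num)
      (fun t ht b hk => by rw [t1, hb t ht b hk]; omega) (D.height_col hz) (D.max_col hD hex)
    obtain ⟨-, a3⟩ := D.deg_of_max hD botDeg (c := 1) (by norm_num)
      (fun t ht b hk => by rw [t2, hb t ht b hk]) (D.height_top hz) (D.max_top hD hex)
    exact ⟨a1, by rw [a2, a3]⟩

end Diagram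

end Pool.Agent.Lib.MP_70b928_gt
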