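import Pool.Agent.Lib.MP_70b928_gt.Deg

set_option autoImplicit false

namespace Pool.Agent.Lib.MP_70b928_gt

/-- transport a labelling of the gaps across a slice; a newly born gap gets the label `b` -/
def step {α : Type} (s : Kind × ℕ) (b : α) (h : ℕ → α) : ℕ → α :=
  fun j => if j ≤ s.2 then h j else
    if s.2 + s.1.above ≤ j then h (j - s.1.above + s.1.below) else b

theorem step_left {α : Type} (k : Kind) (i : ℕ) (b : α) (h : ℕ → α) (j : ℕ) (hj : j ≤ i) :
    step (k, i) b h j = h j := by simp [step, hj]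

theorem step_right {α : Type} (k : Kind) (i : ℕ) (b : α) (h : ℕ → α) (r : ℕ)
    (hc : k = Kind.cap → h i = h (i + 2)) :
    step (k, i) b h (i + k.above + r) = h (i + k.below + r) := by
  unfold step
  by_cases h1 : i + k.above + r ≤ i
  · have h2 : k.above = 0 := by omega
    have h3 : r = 0 := by omega
    simp only [h2, h3, Nat.add_zero, le_refl, if_true]
    cases k <;> simp_all [Kind.above, Kind.below]
  · simp only [h1, if_false, Nat.le_add_right, if_true]
    congr 1
    omega

theorem step_mid {α : Type} (k : Kind) (i : ℕ) (b : α) (h : ℕ → α) (hk : k.above = 2) :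
    step (k, i) b h (i + 1) = b := by simp [step, hk]

theorem Kind.above_cases (k : Kind) : k.above = 0 ∨ k.above = 2 := by
  cases k <;> simp [Kind.above]

theorem Kind.below_cases (k : Kind) : k.below = 0 ∨ k.below = 2 := by
  cases k <;> simp [Kind.below]

theorem step_comm {α : Type} (k k' : Kind) (i r : ℕ) (b b' : α) (h : ℕ → α)
    (hc : k = Kind.cap → h i = h (i + 2)) :
    step (k', i + k.above + r) b' (step (k, i) b h) =
      step (k, i) b (step (k', i + k.below + r) b' h) := by
  funext j
  cases k <;> cases k' <;> simp only [step, Kind.above, Kind.below] <;> split_ifs <;>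
    first
    | rfl
    | omega
    | (congr 1; omega)
    | (have e : j = i + 2 := by omega
       subst e
       simpa using hc rfl)

def IsPath (h : ℕ → ℕ) : Prop := h 0 = 0 ∧ ∀ j, h j + 1 = h (j + 1) ∨ h (j + 1) + 1 = h j

def nb (n : ℕ) : Finset ℕ := if n = 0 then {1} else {n - 1, n + 1}

theorem mem_nb {b n : ℕ} : b ∈ nb n ↔ b + 1 = n ∨ n + 1 = b := by
  unfold nb
  split_ifs with h
  · simp; omega
  · simp; omega

theorem sum_nb (n : ℕ) (f : ℕ → FF) :
    ∑ b ∈ nb n, f b = f (n + 1) + if n = 0 then 0 else f (n - 1) := by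
  unfold nb
  split_ifs with h
  · simp [h]
  · rw [Finset.sum_pair (by omega), add_comm]

theorem sum_nb_qd (n : ℕ) : ∑ b ∈ nb n, qd b = lp * qd n := by
  rw [sum_nb]
  cases n with
  | zero => simp [qd]
  | succ n => simp [qd]

def opts : Kind × ℕ → (ℕ → ℕ) → Finset ℕ
  | (.cup, i), h => nb (h i)
  | (.cap, i), h => if h i = h (i + 2) then {0} else ∅
  | (.cross _, i), h => nb (h i) ∩ nb (h (i + 2))
  | (.hole, i), h => if h i = 0 then {0} else ∅

noncomputable def lw : Kind × ℕ → (ℕ → ℕ) → ℕ → FF
  | (.cup, _), _, b => qd b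
  | (.cap, i), h, _ => (qd (h i))⁻¹
  | (.cross c, i), h, b => (if b = h (i + 1) then cf c else 0) +
      (if h i = h (i + 2) then (cf c)⁻¹ * qd b * (qd (h i))⁻¹ else 0)
  | (.hole, _), _, _ => 1

theorem cap_of_mem_opts {k : Kind} {i b : ℕ} {h : ℕ → ℕ} (hb : b ∈ opts (k, i) h) :
    k = Kind.cap → h i = h (i + 2) := by
  rintro rfl
  by_contra hne
  simp [opts, hne] at hb

theorem opts_congr (k : Kind) (i i' : ℕ) (h h' : ℕ → ℕ)
    (H : ∀ j ≤ k.below, h (i + j) = h' (i' + j)) : opts (k, i) h = opts (k, i') h' := by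
  have H0 : h i = h' i' := H 0 (Nat.zero_le _)
  cases k
  · simp [opts, H0]
  · have H2 := H 2 (by simp [Kind.below])
    simp [opts, H0, H2]
  · have H2 := H 2 (by simp [Kind.below])
    simp [opts, H0, H2]
  · simp [opts, H0]

theorem lw_congr (k : Kind) (i i' : ℕ) (h h' : ℕ → ℕ)
    (H : ∀ j ≤ k.below, h (i + j) = h' (i' + j)) : lw (k, i) h = lw (k, i') h' := by
  have H0 : h i = h' i' := H 0 (Nat.zero_le _)
  funext b
  cases k
  · simp [lw]
  · simp [lw, H0]
  · have H2 := H 2 (by simp [Kind.below])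
    have H1 := H 1 (by simp [Kind.below])
    simp [lw, H0, H1, H2]
  · simp [lw]

theorem IsPath.step {h : ℕ → ℕ} (hp : IsPath h) {s : Kind × ℕ} {b : ℕ} (hb : b ∈ opts s h) :
    IsPath (step s b h) := by
  obtain ⟨k, i⟩ := s
  refine ⟨by rw [step_left _ _ _ _ _ (Nat.zero_le _)]; exact hp.1, fun j => ?_⟩
  have hc := cap_of_mem_opts hb
  by_cases h1 : j + 1 ≤ i
  · rw [step_left _ _ _ _ _ h1, step_left _ _ _ _ _ (by omega)]
    exact hp.2 j
  by_cases h2 : i + k.above ≤ j
  · obtain ⟨r, rfl⟩ := Nat.exists_eq_add_of_le h2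
    rw [step_right _ _ _ _ _ hc, Nat.add_assoc (i + k.above) r 1, step_right _ _ _ _ _ hc]
    exact hp.2 _
  have hk : k.above = 2 := by rcases k.above_cases with h | h <;> omega
  by_cases h3 : j = i
  · subst h3
    rw [step_mid _ _ _ _ hk, step_left _ _ _ _ _ le_rfl]
    cases k <;> simp [Kind.above] at hk <;> simp [opts, mem_nb] at hb <;> omega
  · have h4 : j = i + 1 := by omega
    subst h4
    have := step_right k i b h 0 hc
    rw [hk] at this
    rw [step_mid _ _ _ _ hk, show i + 1 + 1 = i + 2 + 0 by omega, this]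
    cases k <;> simp [Kind.above] at hk <;> simp [opts, mem_nb, Kind.below] at hb ⊢ <;> omega

noncomputable def Traw (s : Kind × ℕ) (φ : (ℕ → ℕ) → FF) (h : ℕ → ℕ) : FF :=
  ∑ b ∈ opts s h, lw s h b * φ (step s b h)

theorem Traw_congr (s : Kind × ℕ) {φ ψ : (ℕ → ℕ) → FF} (H : ∀ k, IsPath k → φ k = ψ k)
    {h : ℕ → ℕ} (hp : IsPath h) : Traw s φ h = Traw s ψ h := by
  unfold Traw
  exact Finset.sum_congr rfl fun b hb => by rw [H _ (hp.step hb)]

theorem Traw_exchange (k k' : Kind) (i r : ℕ) (φ : (ℕ → ℕ) → FF) (h : ℕ → ℕ) :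
    Traw (k, i) (Traw (k', i + k.above + r) φ) h =
      Traw (k', i + k.below + r) (Traw (k, i) φ) h := by
  unfold Traw
  have e1 : ∀ b ∈ opts (k, i) h, ∀ j, step (k, i) b h (i + k.above + r + j) =
      h (i + k.below + r + j) := by
    intro b hb j
    rw [Nat.add_assoc, step_right _ _ _ _ _ (cap_of_mem_opts hb), Nat.add_assoc _ r j]
  have e2 : ∀ b', ∀ j ≤ k.below, step (k', i + k.below + r) b' h (i + j) = h (i + j) := by
    intro b' j hj
    rw [step_left _ _ _ _ _ (by omega)]
  rw [Finset.sum_congr rfl (g := fun b => ∑ b' ∈ opts (k', i + k.below + r) h,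
    lw (k, i) h b * (lw (k', i + k.below + r) h b' *
      φ (step (k, i) b (step (k', i + k.below + r) b' h))))]
  · rw [Finset.sum_comm]
    refine Finset.sum_congr rfl fun b' _ => ?_
    rw [opts_congr k i i _ h (e2 b'), lw_congr k i i _ h (e2 b'), Finset.mul_sum]
    refine Finset.sum_congr rfl fun b _ => ?_
    ring
  · intro b hb
    rw [opts_congr k' _ _ _ h (fun j _ => e1 b hb j), lw_congr k' _ _ _ h (fun j _ => e1 b hb j),
      Finset.mul_sum]
    refine Finset.sum_congr rfl fun b' _ => ?_
    rw [step_comm _ _ _ _ _ _ _ (cap_of_mem_opts hb)]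

theorem Traw_cap (i : ℕ) (φ : (ℕ → ℕ) → FF) (h : ℕ → ℕ) :
    Traw (Kind.cap, i) φ h =
      if h i = h (i + 2) then (qd (h i))⁻¹ * φ (step (Kind.cap, i) 0 h) else 0 := by
  unfold Traw
  split_ifs with hh <;> simp [opts, lw, hh]

theorem Traw_hole (i : ℕ) (φ : (ℕ → ℕ) → FF) (h : ℕ → ℕ) :
    Traw (Kind.hole, i) φ h = if h i = 0 then φ h else 0 := by
  have : step (Kind.hole, i) 0 h = h := by
    funext j; simp [step, Kind.above, Kind.below]; omega
  unfold Traw
  split_ifs with hh <;> simp [opts, lw, hh, this]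

theorem Traw_loop (i : ℕ) (φ : (ℕ → ℕ) → FF) (h : ℕ → ℕ) :
    Traw (Kind.cup, i) (Traw (Kind.cap, i) φ) h = lp * φ h := by
  rw [Traw]
  have e : ∀ b, Traw (Kind.cap, i) φ (step (Kind.cup, i) b h) = (qd (h i))⁻¹ * φ h := by
    intro b
    have e1 : step (Kind.cup, i) b h i = h i := step_left _ _ _ _ _ le_rfl
    have e2 : step (Kind.cup, i) b h (i + 2) = h i := step_right Kind.cup i b h 0 (by simp)
    have e3 : step (Kind.cap, i) 0 (step (Kind.cup, i) b h) = h := by
      funext j
      simp only [step, Kind.above, Kind.below]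
      split_ifs <;> first | rfl | omega
    rw [Traw_cap, e1, e2, e3, if_pos rfl]
  simp only [e, opts, lw]
  rw [← Finset.sum_mul, sum_nb_qd]
  have := qd_ne (h i)
  field_simp

theorem Traw_zigzagL (i : ℕ) (φ : (ℕ → ℕ) → FF) {h : ℕ → ℕ} (hp : IsPath h) :
    Traw (Kind.cup, i + 1) (Traw (Kind.cap, i) φ) h = φ h := by
  rw [Traw, Finset.sum_eq_single (h i)]
  · have e1 : step (Kind.cup, i + 1) (h i) h i = h i := step_left _ _ _ _ _ (by omega)
    have e2 : step (Kind.cup, i + 1) (h i) h (i + 2) = h i := step_mid _ _ _ _ rfl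
    have e3 : step (Kind.cap, i) 0 (step (Kind.cup, i + 1) (h i) h) = h := by
      funext j
      simp only [step, Kind.above, Kind.below]
      split_ifs <;> first | rfl | omega
    rw [Traw_cap, e1, e2, e3, if_pos rfl]
    have := qd_ne (h i)
    simp only [lw]
    field_simp
  · intro b _ hb
    have e1 : step (Kind.cup, i + 1) b h i = h i := step_left _ _ _ _ _ (by omega)
    have e2 : step (Kind.cup, i + 1) b h (i + 2) = b := step_mid _ _ _ _ rfl
    rw [Traw_cap, e1, e2, if_neg (Ne.symm hb), mul_zero]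
  · intro hn
    exfalso
    apply hn
    have := hp.2 i
    simp only [opts, mem_nb]
    omega

theorem Traw_zigzagR (i : ℕ) (φ : (ℕ → ℕ) → FF) {h : ℕ → ℕ} (hp : IsPath h) :
    Traw (Kind.cup, i) (Traw (Kind.cap, i + 1) φ) h = φ h := by
  have e2 : ∀ b, step (Kind.cup, i) b h (i + 1 + 2) = h (i + 1) := fun b =>
    step_right Kind.cup i b h 1 (by simp)
  have e1 : ∀ b, step (Kind.cup, i) b h (i + 1) = b := fun b => step_mid _ _ _ _ rfl
  rw [Traw, Finset.sum_eq_single (h (i + 1))]
  · have e3 : step (Kind.cap, i + 1) 0 (step (Kind.cup, i) (h (i + 1)) h) = h := by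
      funext j
      simp only [step, Kind.above, Kind.below]
      split_ifs <;> first | rfl | omega | (congr 1; omega)
    rw [Traw_cap, e1, e2, e3, if_pos rfl]
    have := qd_ne (h (i + 1))
    simp only [lw]
    field_simp
  · intro b _ hb
    rw [Traw_cap, e1, e2, if_neg hb, mul_zero]
  · intro hn
    exfalso
    apply hn
    have := hp.2 i
    simp only [opts, mem_nb]
    omega

theorem step_cross_self {α : Type} (c : Bool) (i : ℕ) (h : ℕ → α) :
    step (Kind.cross c, i) (h (i + 1)) h = h := by
  funext j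
  simp only [step, Kind.above, Kind.below]
  split_ifs <;> first | rfl | (congr 1; omega)

theorem Traw_kauffman (c : Bool) (i : ℕ) (φ : (ℕ → ℕ) → FF) {h : ℕ → ℕ} (hp : IsPath h) :
    Traw (Kind.cross c, i) φ h =
      cf c * φ h + (cf c)⁻¹ * Traw (Kind.cap, i) (Traw (Kind.cup, i) φ) h := by
  have hm : h (i + 1) ∈ nb (h i) ∩ nb (h (i + 2)) := by
    have h1 := hp.2 i
    have h2 := hp.2 (i + 1)
    simp only [Finset.mem_inter, mem_nb]
    rw [show i + 1 + 1 = i + 2 from rfl] at h2
    omega
  rw [Traw_cap, Traw]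
  simp only [opts, lw, add_mul, Finset.sum_add_distrib, ite_mul, zero_mul]
  rw [Finset.sum_ite_eq' , if_pos hm, step_cross_self]
  congr 1
  split_ifs with hh
  · rw [Traw, ← hh, Finset.inter_self]
    have e1 : step (Kind.cap, i) 0 h i = h i := step_left _ _ _ _ _ le_rfl
    simp only [opts, lw, e1, Finset.mul_sum]
    refine Finset.sum_congr rfl fun b _ => ?_
    have e3 : step (Kind.cup, i) b (step (Kind.cap, i) 0 h) = step (Kind.cross c, i) b h := by
      funext j
      simp only [step, Kind.above, Kind.below]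
      split_ifs <;> first
        | rfl
        | omega
        | (congr 1; omega)
        | (have e : j = i + 2 := by omega
           subst e
           simpa using hh)
    rw [e3]
    ring
  · simp

/-- eigenvalue of `aroundLeft` -/
noncomputable def ev (c : Bool) (a a' : ℕ) : FF :=
  if a' = a + 1 then cf c ^ (2 * a) else (cf c)⁻¹ ^ (2 * a + 4)

theorem lw_ev (c : Bool) (i : ℕ) {h : ℕ → ℕ} (hp : IsPath h) {b : ℕ}
    (hb : b ∈ opts (Kind.cross c, i) h) :
    lw (Kind.cross c, i) h b * ev c (h i) b =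
      ev c (h (i + 1)) (h (i + 2)) * lw (Kind.cross (!c), i) h b := by
  have h1 := hp.2 i
  have h2 := hp.2 (i + 1)
  rw [show i + 1 + 1 = i + 2 from rfl] at h2
  simp only [opts, Finset.mem_inter, mem_nb] at hb
  simp only [lw, cf_not, inv_inv]
  have hx := cf_ne c
  generalize h i = a at *
  generalize h (i + 1) = m at *
  generalize h (i + 2) = a' at *
  have hq := qd_ne a
  by_cases haa : a = a'
  · subst haa
    by_cases hbm : b = m
    · subst hbm
      rcases h1 with h1 | h1
      · subst h1
        have r1 := qd_rel c a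
        have r2 := qd_rel' c a
        simp only [ev, if_true]
        rw [if_neg (by omega)]
        have e1 : cf c + (cf c)⁻¹ * qd (a + 1) * (qd a)⁻¹ =
            (-1) ^ (a + 1) * (cf c)⁻¹ ^ (2 * a + 3) * (qd a)⁻¹ := by
          rw [← r1]; field_simp
        have e2 : (cf c)⁻¹ + cf c * qd (a + 1) * (qd a)⁻¹ =
            (-1) ^ (a + 1) * (cf c) ^ (2 * a + 3) * (qd a)⁻¹ := by
          rw [← r2]; field_simp
        rw [e1, e2]
        simp only [inv_pow]
        field_simp
        ring
      · subst h1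
        have r1 := qd_rel c b
        have r2 := qd_rel' c b
        simp only [ev, if_true]
        rw [if_neg (by omega)]
        have e1 : cf c + (cf c)⁻¹ * qd b * (qd (b + 1))⁻¹ =
            (-1) ^ (b + 1) * (cf c) ^ (2 * b + 3) * (qd (b + 1))⁻¹ := by
          rw [← r2]; field_simp; ring
        have e2 : (cf c)⁻¹ + cf c * qd b * (qd (b + 1))⁻¹ =
            (-1) ^ (b + 1) * (cf c)⁻¹ ^ (2 * b + 3) * (qd (b + 1))⁻¹ := by
          rw [← r1]; field_simp; ring
        rw [e1, e2]
        simp only [inv_pow]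
        field_simp
        ring
    · simp only [if_neg hbm, if_true, zero_add]
      rcases h1 with h1 | h1
      · subst h1
        have hb' : a = b + 1 := by omega
        subst hb'
        simp only [ev]
        rw [if_neg (by omega), if_neg (by omega)]
        simp only [inv_pow]
        field_simp
        ring
      · subst h1
        have hb' : b = m + 1 + 1 := by omega
        subst hb'
        simp only [ev, if_true]
        field_simp
        ring
  · have hbm : b = m := by omega
    subst hbm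
    simp only [if_neg haa, if_true, add_zero]
    rcases h1 with h1 | h1
    · subst h1
      have : a' = a + 1 + 1 := by omega
      subst this
      simp only [ev, if_true]
      field_simp
      ring
    · subst h1
      have : b = a' + 1 := by omega
      subst this
      simp only [ev]
      rw [if_neg (by omega), if_neg (by omega)]
      simp only [inv_pow]
      field_simp
      ring

theorem Traw_ev (c : Bool) (i : ℕ) (φ : (ℕ → ℕ) → FF) {h : ℕ → ℕ} (hp : IsPath h) :
    Traw (Kind.cross c, i) (fun k => ev c (k i) (k (i + 1)) * φ k) h =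
      ev c (h (i + 1)) (h (i + 2)) * Traw (Kind.cross (!c), i) φ h := by
  unfold Traw
  rw [Finset.mul_sum]
  refine Finset.sum_congr rfl fun b hb => ?_
  beta_reduce
  rw [step_left _ _ _ _ _ le_rfl, step_mid _ _ _ _ rfl, ← mul_assoc, lw_ev c i hp hb, mul_assoc]
  rfl

end Pool.Agent.Lib.MP_70b928_gt
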