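import Pool.Agent.Lib.MP_70b928_gt.Op

set_option autoImplicit false

namespace Pool.Agent.Lib.MP_70b928_gt

abbrev Wd : Type := List (Kind × ℕ)

def Fits : ℕ → Wd → Prop
  | _, [] => True
  | m, s :: w => s.2 + s.1.below ≤ m ∧ Fits (m - s.1.below + s.1.above) w

def out (m : ℕ) (w : Wd) : ℕ := w.foldl (fun m s => m - s.1.below + s.1.above) m

def nh (w : Wd) : ℕ := w.countP (fun s => s.1 = Kind.hole)

@[simp] theorem fits_nil (m : ℕ) : Fits m [] := trivial

@[simp] theorem fits_cons (m : ℕ) (s : Kind × ℕ) (w : Wd) :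
    Fits m (s :: w) ↔ s.2 + s.1.below ≤ m ∧ Fits (m - s.1.below + s.1.above) w := Iff.rfl

@[simp] theorem out_nil (m : ℕ) : out m [] = m := rfl

@[simp] theorem out_cons (m : ℕ) (s : Kind × ℕ) (w : Wd) :
    out m (s :: w) = out (m - s.1.below + s.1.above) w := rfl

theorem out_append (m : ℕ) (u v : Wd) : out m (u ++ v) = out (out m u) v := by
  simp [out, List.foldl_append]

theorem fits_append (m : ℕ) (u v : Wd) : Fits m (u ++ v) ↔ Fits m u ∧ Fits (out m u) v := by
  induction u generalizing m with
  | nil => simp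
  | cons s u ih => simp [ih, and_assoc]

@[simp] theorem nh_nil : nh [] = 0 := rfl

theorem nh_cons (s : Kind × ℕ) (w : Wd) :
    nh (s :: w) = nh w + if s.1 = Kind.hole then 1 else 0 := by
  simp [nh, List.countP_cons]

theorem nh_append (u v : Wd) : nh (u ++ v) = nh u + nh v := by
  simp [nh, List.countP_append]

theorem fits_iff (m : ℕ) (w : Wd) :
    Fits m w ↔ ∀ t k i, w[t]? = some (k, i) → i + k.below ≤ out m (w.take t) := by
  induction w generalizing m with
  | nil => simp
  | cons s w ih =>
    rw [fits_cons, ih]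
    constructor
    · rintro ⟨h1, h2⟩ t k i ht
      cases t with
      | zero =>
        simp only [List.getElem?_cons_zero, Option.some.injEq] at ht
        subst ht
        simpa using h1
      | succ t => exact h2 t k i (by simpa using ht)
    · intro h
      exact ⟨by simpa using h 0 s.1 s.2 rfl, fun t k i ht => h (t + 1) k i (by simpa using ht)⟩

/-- slice number `t` -/
def sl (w : Wd) (t : ℕ) : Kind × ℕ := w.getD t (Kind.hole, 0)

theorem sl_of_getElem? {w : Wd} {t : ℕ} {s : Kind × ℕ} (h : w[t]? = some s) : sl w t = s := by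
  simp [sl, h]

theorem lt_of_getElem? {w : Wd} {t : ℕ} {s : Kind × ℕ} (h : w[t]? = some s) : t < w.length :=
  (List.getElem?_eq_some_iff.mp h).1

theorem getElem?_sl {w : Wd} {t : ℕ} (h : t < w.length) : w[t]? = some (sl w t) := by
  simp [sl, h]

theorem countP_eq (p : Kind × ℕ → Prop) [DecidablePred p] (w : Wd) :
    w.countP (fun s => p s) = ((Finset.range w.length).filter (fun t => p (sl w t))).card := by
  induction w with
  | nil => simp
  | cons s w ih =>
    rw [List.countP_cons, ih, List.length_cons, Finset.card_filter, Finset.card_filter,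
      Finset.sum_range_succ']
    simp [sl]

theorem ncard_holes (w : Wd) : Set.ncard {t : ℕ | ∃ i, w[t]? = some (Kind.hole, i)} = nh w := by
  rw [nh, countP_eq (fun s => s.1 = Kind.hole) w, ← Set.ncard_coe_finset]
  congr 1
  ext t
  simp only [Set.mem_ofPred_eq, Finset.coe_filter, Finset.mem_range]
  constructor
  · rintro ⟨i, h⟩
    exact ⟨lt_of_getElem? h, by rw [sl_of_getElem? h]⟩
  · rintro ⟨h1, h2⟩
    exact ⟨(sl w t).2, by rw [getElem?_sl h1, ← h2]⟩

def Valid (g : ℕ) (w : Wd) : Prop := Fits 0 w ∧ out 0 w = 0 ∧ nh w = g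

def mkDiagram {g : ℕ} (w : Wd) (h : Valid g w) : Diagram g where
  word := w
  fits := (fits_iff 0 w).mp h.1
  closed := by unfold width; rw [List.take_length]; exact h.2.1
  holes := (ncard_holes w).trans h.2.2

theorem Diagram.valid {g : ℕ} (D : Diagram g) : Valid g D.word :=
  ⟨(fits_iff 0 _).mpr D.fits, by have := D.closed; unfold width at this; rwa [List.take_length] at this,
    (ncard_holes _).symm.trans D.holes⟩

noncomputable abbrev SS (g : ℕ) : Submodule FF (Diagram g →₀ FF) := Submodule.span FF {x | SkeinRel g x}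

abbrev QS (g : ℕ) : Type := (Diagram g →₀ FF) ⧸ SS g

open Classical in
noncomputable def val (g : ℕ) (w : Wd) : QS g :=
  if h : Valid g w then (SS g).mkQ (Finsupp.single (mkDiagram w h) 1) else 0

theorem valid_replace {g : ℕ} {u a b v : Wd} (hu : Fits 0 u) (ha : Fits (out 0 u) a)
    (hb : Fits (out 0 u) b) (ho : out (out 0 u) a = out (out 0 u) b) (hn : nh a = nh b) :
    Valid g (u ++ (a ++ v)) ↔ Valid g (u ++ (b ++ v)) := by
  simp [Valid, fits_append, out_append, nh_append, hu, ha, hb, ho, hn]

theorem mkQ_rel {g : ℕ} {x : Diagram g →₀ FF} (h : SkeinRel g x) : (SS g).mkQ x = 0 := by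
  rw [Submodule.mkQ_apply, Submodule.Quotient.mk_eq_zero]
  exact Submodule.subset_span h

theorem mkQ_single {g : ℕ} (D : Diagram g) (c : FF) :
    (SS g).mkQ (Finsupp.single D c) = c • (SS g).mkQ (Finsupp.single D 1) := by
  rw [← map_smul, Finsupp.smul_single, smul_eq_mul, mul_one]

/-- a functional on words which is evaluation in a context of width `m` -/
def Good (g m : ℕ) (y : Wd → QS g) : Prop :=
  ∃ u, Fits 0 u ∧ out 0 u = m ∧ y = fun w => val g (u ++ w)

section good

variable {g m : ℕ} {y : Wd → QS g}

theorem Good.append (hy : Good g m y) {x : Wd} (hx : Fits m x) :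
    Good g (out m x) (fun w => y (x ++ w)) := by
  obtain ⟨u, hu, rfl, rfl⟩ := hy
  exact ⟨u ++ x, (fits_append _ _ _).mpr ⟨hu, hx⟩, out_append _ _ _, by simp⟩

theorem Good.cons (hy : Good g m y) (k : Kind) (i : ℕ) (hi : i + k.below ≤ m) :
    Good g (m - k.below + k.above) (fun w => y ((k, i) :: w)) :=
  hy.append (x := [(k, i)]) (by simpa using hi)

theorem Good.not_fits (hy : Good g m y) {w : Wd} (hw : ¬ Fits m w) : y w = 0 := by
  obtain ⟨u, hu, rfl, rfl⟩ := hy
  simp only [val]
  rw [dif_neg]
  rintro ⟨h, -⟩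
  exact hw ((fits_append _ _ _).mp h).2

theorem Good.move (hy : Good g m y) {a b : Wd} (h : Move a b) (ha : Fits m a) (hb : Fits m b)
    (ho : out m a = out m b) (hn : nh a = nh b) (v : Wd) : y (a ++ v) = y (b ++ v) := by
  obtain ⟨u, hu, rfl, rfl⟩ := hy
  have hv := valid_replace (g := g) (v := v) hu ha hb ho hn
  simp only [val]
  by_cases h1 : Valid g (u ++ (a ++ v))
  · rw [dif_pos h1, dif_pos (hv.mp h1), ← sub_eq_zero, ← map_sub]
    exact mkQ_rel (SkeinRel.move _ _ u v a b h (by simp [mkDiagram]) (by simp [mkDiagram]))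
  · rw [dif_neg h1, dif_neg (fun h2 => h1 (hv.mpr h2))]

theorem Good.kauffman (hy : Good g m y) (c : Bool) (i : ℕ) (hi : i + 2 ≤ m) (v : Wd) :
    y ((Kind.cross c, i) :: v) =
      cf c • y v + (cf c)⁻¹ • y ((Kind.cap, i) :: (Kind.cup, i) :: v) := by
  obtain ⟨u, hu, rfl, rfl⟩ := hy
  have hv0 := valid_replace (g := g) (v := v) (a := [(Kind.cross c, i)]) (b := []) hu
    (by simpa [Kind.below] using hi) trivial (by simp [Kind.below, Kind.above]; omega)
    (by simp [nh_cons])
  have hv1 := valid_replace (g := g) (v := v) (a := [(Kind.cross c, i)])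
    (b := [(Kind.cap, i), (Kind.cup, i)]) hu
    (by simpa [Kind.below] using hi) (by simp [Kind.below, Kind.above]; omega)
    (by simp [Kind.below, Kind.above]) (by simp [nh_cons])
  simp only [List.cons_append, List.nil_append] at hv0 hv1
  simp only [val]
  by_cases h1 : Valid g (u ++ (Kind.cross c, i) :: v)
  · rw [dif_pos h1, dif_pos (hv0.mp h1), dif_pos (hv1.mp h1), ← mkQ_single, ← mkQ_single,
      ← sub_eq_zero, ← sub_sub, ← map_sub, ← map_sub]
    exact mkQ_rel (SkeinRel.kauffman _ _ _ u v c i _ rfl (by simp [mkDiagram])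
      (by simp [mkDiagram]) (by simp [mkDiagram]))
  · rw [dif_neg h1, dif_neg (fun h2 => h1 (hv0.mpr h2)), dif_neg (fun h2 => h1 (hv1.mpr h2))]
    simp

theorem Good.loop (hy : Good g m y) (i : ℕ) (hi : i ≤ m) (v : Wd) :
    y ((Kind.cup, i) :: (Kind.cap, i) :: v) = lp • y v := by
  obtain ⟨u, hu, rfl, rfl⟩ := hy
  have hv0 := valid_replace (g := g) (v := v) (a := [(Kind.cup, i), (Kind.cap, i)]) (b := []) hu
    (by simp [Kind.below, Kind.above]; omega) trivial (by simp [Kind.below, Kind.above])
    (by simp [nh_cons])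
  simp only [List.cons_append, List.nil_append] at hv0
  simp only [val]
  by_cases h1 : Valid g (u ++ (Kind.cup, i) :: (Kind.cap, i) :: v)
  · rw [dif_pos h1, dif_pos (hv0.mp h1), ← mkQ_single, ← sub_eq_zero, ← map_sub]
    exact mkQ_rel (SkeinRel.loop _ _ u v i (by simp [mkDiagram]) (by simp [mkDiagram]))
  · rw [dif_neg h1, dif_neg (fun h2 => h1 (hv0.mpr h2))]
    simp

theorem Good.exchange (hy : Good g m y) (k k' : Kind) (i j j' : ℕ)
    (h : ¬ (k = Kind.hole ∧ k' = Kind.hole)) (hj : i + k.below ≤ j)
    (hj' : j' + k.below = j + k.above) (hm : j + k'.below ≤ m) (v : Wd) :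
    y ((k, i) :: (k', j') :: v) = y ((k', j) :: (k, i) :: v) := by
  obtain ⟨r, rfl⟩ := Nat.exists_eq_add_of_le hj
  have : j' = i + k.above + r := by omega
  subst this
  refine hy.move (Move.exchange k k' i r h) ?_ ?_ ?_ ?_ v
  · simp; omega
  · simp; omega
  · simp; omega
  · simp [nh_cons, add_comm]

theorem Good.zigzagL (hy : Good g m y) (i : ℕ) (hi : i + 1 ≤ m) (v : Wd) :
    y ((Kind.cup, i + 1) :: (Kind.cap, i) :: v) = y v :=
  hy.move (Move.zigzagL i) (by simp [Kind.below, Kind.above]; omega) trivial
    (by simp [Kind.below, Kind.above]) (by simp [nh_cons]) v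

theorem Good.zigzagR (hy : Good g m y) (i : ℕ) (hi : i + 1 ≤ m) (v : Wd) :
    y ((Kind.cup, i) :: (Kind.cap, i + 1) :: v) = y v :=
  hy.move (Move.zigzagR i) (by simp [Kind.below, Kind.above]; omega) trivial
    (by simp [Kind.below, Kind.above]) (by simp [nh_cons]) v

end good

theorem mem_aroundLeft {c : Bool} {i : ℕ} {s : Kind × ℕ} (hs : s ∈ aroundLeft c i) :
    s.1 = Kind.cross c ∧ s.2 + 1 ≤ i := by
  induction i with
  | zero => simp [aroundLeft] at hs
  | succ i ih =>
    simp only [aroundLeft, List.mem_cons, List.mem_append, List.not_mem_nil, or_false] at hs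
    rcases hs with rfl | hs | rfl
    · simp
    · exact ⟨(ih hs).1, by have := (ih hs).2; omega⟩
    · simp

theorem fits_crosses {c : Bool} {q m : ℕ} {x : Wd}
    (hx : ∀ s ∈ x, s.1 = Kind.cross c ∧ s.2 + 2 ≤ q) (hq : q ≤ m) :
    Fits m x ∧ out m x = m ∧ nh x = 0 := by
  induction x with
  | nil => simp
  | cons s x ih =>
    obtain ⟨h1, h2⟩ := hx s (by simp)
    have := ih fun s hs => hx s (by simp [hs])
    have e : m - 2 + 2 = m := by omega
    simp only [fits_cons, out_cons, nh_cons, h1, Kind.below, Kind.above, e]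
    simp only [this, and_true, reduceCtorEq, if_false]
    omega

theorem aroundLeft_bd (c : Bool) (i : ℕ) :
    ∀ s ∈ aroundLeft c i, s.1 = Kind.cross c ∧ s.2 + 2 ≤ i + 1 := fun s hs =>
  ⟨(mem_aroundLeft hs).1, by have := (mem_aroundLeft hs).2; omega⟩

section good2

variable {g m : ℕ} {y : Wd → QS g}

theorem Good.slide (hy : Good g m y) (c : Bool) (i : ℕ) (hi : i + 2 ≤ m) (v : Wd) :
    y ((Kind.cap, i) :: (Kind.hole, i) :: v) =
      y (aroundLeft c i ++ (Kind.cap, i) :: (Kind.hole, i) :: v) := by
  obtain ⟨h1, h2, h3⟩ := fits_crosses (aroundLeft_bd c i) (show i + 1 ≤ m by omega)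
  have := hy.move (Move.slide c i) (by simp [Kind.below, Kind.above]; omega)
    (by simp [fits_append, h1, h2, Kind.below, Kind.above]; omega)
    (by simp [out_append, h2]) (by simp [nh_append, h3]) v
  simpa using this

/-- a word of crossings commutes with a slice on its right -/
theorem Good.comm_crosses (hy : Good g m y) {c : Bool} {q : ℕ} {x : Wd}
    (hx : ∀ s ∈ x, s.1 = Kind.cross c ∧ s.2 + 2 ≤ q) (k : Kind) (hq : q + k.below ≤ m) (v : Wd) :
    y (x ++ (k, q) :: v) = y ((k, q) :: (x ++ v)) := by
  induction x generalizing y with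
  | nil => rfl
  | cons s x ih =>
    obtain ⟨k0, p⟩ := s
    obtain ⟨h1, h2⟩ := hx (k0, p) (by simp)
    subst h1
    have hy' := hy.cons (Kind.cross c) p (by simp [Kind.below]; omega)
    have e : m - (Kind.cross c).below + (Kind.cross c).above = m := by
      simp [Kind.below, Kind.above]; omega
    rw [e] at hy'
    have := ih hy' (fun s hs => hx s (by simp [hs]))
    rw [List.cons_append, this, hy.exchange (Kind.cross c) k p q q (by simp)
      (by simp [Kind.below]; omega) (by simp [Kind.below, Kind.above]) hq]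
    rfl

end good2

def CupsOnly (C : Wd) : Prop := ∀ s ∈ C, s.1 = Kind.cup

theorem cap_cups {g : ℕ} {y : Wd → QS g} (hy : Good g 0 y) (C : Wd) (hC : CupsOnly C)
    (hf : Fits 0 C) (i : ℕ) (hi : i + 2 ≤ out 0 C) :
    ∃ (c : FF) (C' : Wd), CupsOnly C' ∧ ∀ v, y (C ++ (Kind.cap, i) :: v) = c • y (C' ++ v) := by
  induction C using List.reverseRecOn generalizing i with
  | nil => simp at hi
  | append_singleton C s ih =>
    obtain ⟨k, j⟩ := s
    have hk : k = Kind.cup := hC (k, j) (by simp)
    subst hk
    have hC1 : CupsOnly C := fun s hs => hC s (by simp [hs])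
    rw [fits_append] at hf
    obtain ⟨hf1, hf2⟩ := hf
    have hj : j ≤ out 0 C := by simpa [Kind.below] using hf2
    have hi' : i ≤ out 0 C := by
      simp [out_append, Kind.below, Kind.above] at hi; omega
    have hy' := hy.append hf1
    simp only [List.append_assoc, List.cons_append, List.nil_append]
    rcases lt_trichotomy i j with h | h | h
    · by_cases h1 : j = i + 1
      · subst h1
        exact ⟨1, C, hC1, fun v => by simpa using hy'.zigzagL i hj v⟩
      · obtain ⟨c, C', hC', H⟩ := ih hC1 hf1 i (by omega)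
        refine ⟨c, C' ++ [(Kind.cup, j - 2)], ?_, fun v => ?_⟩
        · intro s hs
          rcases List.mem_append.mp hs with hs | hs
          · exact hC' s hs
          · simp at hs; simp [hs]
        · have := hy'.exchange Kind.cap Kind.cup i j (j - 2) (by simp)
            (by simp [Kind.below]; omega) (by simp [Kind.below, Kind.above]; omega)
            (by simp [Kind.below]; omega) v
          simp only [List.append_assoc, List.cons_append, List.nil_append]
          rw [← H]
          exact this.symm
    · subst h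
      exact ⟨lp, C, hC1, fun v => hy'.loop i hj v⟩
    · by_cases h1 : i = j + 1
      · subst h1
        exact ⟨1, C, hC1, fun v => by simpa using hy'.zigzagR j hi' v⟩
      · obtain ⟨c, C', hC', H⟩ := ih hC1 hf1 (i - 2) (by omega)
        refine ⟨c, C' ++ [(Kind.cup, j)], ?_, fun v => ?_⟩
        · intro s hs
          rcases List.mem_append.mp hs with hs | hs
          · exact hC' s hs
          · simp at hs; simp [hs]
        · have := hy'.exchange Kind.cup Kind.cap j (i - 2) i (by simp)
            (by simp [Kind.below]; omega) (by simp [Kind.below, Kind.above]; omega)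
            (by simp [Kind.below]; omega) v
          simp only [List.append_assoc, List.cons_append, List.nil_append]
          rw [← H]
          exact this

theorem out_cups {C : Wd} (hC : CupsOnly C) (m : ℕ) : out m C = m + 2 * C.length := by
  induction C generalizing m with
  | nil => simp
  | cons s C ih =>
    rw [out_cons, ih (fun s hs => hC s (by simp [hs])), hC s (by simp)]
    simp [Kind.below, Kind.above]
    omega

theorem holefree_mem {g : ℕ} {y : Wd → QS g} (hy : Good g 0 y) (N : Submodule FF (QS g))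
    (h0 : y [] ∈ N) (v : Wd) (hv : ∀ s ∈ v, s.1 ≠ Kind.hole) :
    ∀ C, CupsOnly C → y (C ++ v) ∈ N := by
  induction v with
  | nil =>
    intro C hC
    cases C with
    | nil => simpa using h0
    | cons s C =>
      obtain ⟨u, hu, hu0, rfl⟩ := hy
      simp only [val]
      rw [dif_neg]
      · exact N.zero_mem
      · rintro ⟨-, h, -⟩
        rw [out_append, hu0, List.append_nil, out_cups hC] at h
        simp at h
  | cons s v ih =>
    have ih' := ih fun s hs => hv s (by simp [hs])
    have hcup : ∀ C, CupsOnly C → ∀ i, y (C ++ (Kind.cup, i) :: v) ∈ N := by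
      intro C hC i
      have := ih' (C ++ [(Kind.cup, i)]) (by
        intro s hs
        rcases List.mem_append.mp hs with hs | hs
        · exact hC s hs
        · simp at hs; simp [hs])
      simpa using this
    intro C hC
    by_cases hf : Fits 0 (C ++ s :: v)
    swap
    · rw [hy.not_fits hf]; exact N.zero_mem
    rw [fits_append, fits_cons] at hf
    obtain ⟨k, i⟩ := s
    cases k with
    | cup => exact hcup C hC i
    | cap =>
      obtain ⟨c, C', hC', H⟩ := cap_cups hy C hC hf.1 i hf.2.1
      rw [H]
      exact N.smul_mem _ (ih' C' hC')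
    | cross b =>
      obtain ⟨c, C', hC', H⟩ := cap_cups hy C hC hf.1 i hf.2.1
      have := (hy.append hf.1).kauffman b i hf.2.1 v
      rw [this, H]
      exact N.add_mem (N.smul_mem _ (ih' C hC)) (N.smul_mem _ (N.smul_mem _ (hcup C' hC' i)))
    | hole => exact absurd rfl (hv (Kind.hole, i) (by simp))

theorem hole_zero_comm {g m : ℕ} {y : Wd → QS g} (hy : Good g m y) (u : Wd)
    (hu : ∀ s ∈ u, s.1 ≠ Kind.hole) (hf : Fits m u) (v : Wd) :
    y (u ++ (Kind.hole, 0) :: v) = y ((Kind.hole, 0) :: (u ++ v)) := by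
  induction u generalizing y m with
  | nil => rfl
  | cons s u ih =>
    obtain ⟨k, i⟩ := s
    have hk : k ≠ Kind.hole := hu (k, i) (by simp)
    have := ih (hy.cons k i hf.1) (fun s hs => hu s (by simp [hs])) hf.2
    rw [List.cons_append, this, ← hy.exchange Kind.hole k 0 i i (by simp [hk])
      (by simp [Kind.below]) (by simp [Kind.below, Kind.above]) hf.1]
    rfl

theorem fits_replicate (r : ℕ) : Fits 0 (List.replicate r (Kind.hole, 0)) ∧
    out 0 (List.replicate r (Kind.hole, 0)) = 0 ∧ nh (List.replicate r (Kind.hole, 0)) = r := by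
  induction r with
  | zero => simp
  | succ r ih => simp [List.replicate_succ, Kind.below, Kind.above, nh_cons, ih]

/-- the line spanned by the empty link -/
noncomputable def NN (g : ℕ) : Submodule FF (QS g) :=
  Submodule.span FF {(SS g).mkQ (Finsupp.single (emptyDiagram g) 1)}

theorem val_replicate_mem (g r : ℕ) : val g (List.replicate r (Kind.hole, 0)) ∈ NN g := by
  unfold val
  split_ifs with h
  · have : r = g := (fits_replicate r).2.2.symm.trans h.2.2
    subst this
    exact Submodule.subset_span rfl
  · exact Submodule.zero_mem _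

theorem holes_zero_mem (g : ℕ) (v : Wd) (hv : ∀ s ∈ v, s.1 = Kind.hole → s.2 = 0) :
    ∀ (r : ℕ) (u : Wd), (∀ s ∈ u, s.1 ≠ Kind.hole) →
      val g (List.replicate r (Kind.hole, 0) ++ (u ++ v)) ∈ NN g := by
  have hG : ∀ r, Good g 0 (fun w => val g (List.replicate r (Kind.hole, 0) ++ w)) := fun r =>
    ⟨_, (fits_replicate r).1, (fits_replicate r).2.1, rfl⟩
  induction v with
  | nil =>
    intro r u hu
    have := holefree_mem (hG r) (NN g) (by simpa using val_replicate_mem g r) u hu []
      (by intro s hs; simp at hs)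
    simpa using this
  | cons s v ih =>
    have ih' := ih fun s hs => hv s (by simp [hs])
    intro r u hu
    by_cases hs : s.1 = Kind.hole
    · have : s = (Kind.hole, 0) := Prod.ext hs (hv s (by simp) hs)
      subst this
      by_cases hf : Fits 0 u
      · have := hole_zero_comm (hG r) u hu hf v
        rw [this]
        have := ih' (r + 1) u hu
        rw [List.replicate_succ', List.append_assoc] at this
        exact this
      · have := (hG r).not_fits (w := u ++ (Kind.hole, 0) :: v)
          (fun h => hf ((fits_append _ _ _).mp h).1)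
        rw [this]
        exact Submodule.zero_mem _
    · have := ih' r (u ++ [s]) (by
        intro s' hs'
        rcases List.mem_append.mp hs' with h | h
        · exact hu s' h
        · simp at h; simpa [h] using hs)
      simpa using this

/-- total number of strands on the left of the holes -/
def hm (w : Wd) : ℕ := (w.map (fun s => if s.1 = Kind.hole then s.2 else 0)).sum

theorem hm_append (u v : Wd) : hm (u ++ v) = hm u + hm v := by simp [hm]

theorem hm_cons (s : Kind × ℕ) (v : Wd) :
    hm (s :: v) = (if s.1 = Kind.hole then s.2 else 0) + hm v := by simp [hm]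

theorem hm_holefree {x : Wd} (hx : ∀ s ∈ x, s.1 ≠ Kind.hole) : hm x = 0 := by
  induction x with
  | nil => rfl
  | cons s x ih => rw [hm_cons, if_neg (hx s (by simp)), ih fun s hs => hx s (by simp [hs])]

/-- eigenvalue of the encircling loop -/
noncomputable def lam (k : ℕ) : FF := -(cf true) ^ (2 * k + 2) - (cf true)⁻¹ ^ (2 * k + 2)

theorem lam_ne (i : ℕ) (hi : 0 < i) : lam i - lp ≠ 0 := by
  have hx := cf_ne true
  have hd : topDeg.d (cf true) = 1 := by simp [DegFun.d_cf, topDeg]
  have h1 : topDeg.d (-(cf true) ^ (2 * i + 2)) = (2 * i + 2 : ℕ) := by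
    rw [DegFun.d_neg, DegFun.d_pow _ _ hx, hd, mul_one]
  have h2 : topDeg.Lt (-(cf true)⁻¹ ^ (2 * i + 2) + -lp) (topDeg.d (-(cf true) ^ (2 * i + 2))) := by
    rw [h1]
    refine DegFun.Lt.add (Or.inr ?_) (Or.inr ?_)
    · rw [DegFun.d_neg, DegFun.d_pow _ _ (inv_ne_zero hx), DegFun.d_inv _ _ hx, hd]
      push_cast; omega
    · rw [DegFun.d_neg, topDeg.d_lp.2]
      push_cast; omega
  have := (DegFun.add_of_lt (neg_ne_zero.mpr (pow_ne_zero _ hx)) h2).1
  intro h
  apply this
  rw [lam] at h
  linear_combination h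

theorem circle_rec {g m : ℕ} {y : Wd → QS g} (hy : Good g m y) (c : Bool) (k : ℕ)
    (hk : k + 1 ≤ m) (v : Wd) :
    y ((Kind.cup, k + 1) :: (aroundLeft c (k + 1) ++ (Kind.cap, k + 1) :: v)) =
      (1 - cf c ^ 4) • y (aroundLeft c k ++ v) +
        ((cf c)⁻¹ ^ 2) • y ((Kind.cup, k) :: (aroundLeft c k ++ (Kind.cap, k) :: v)) := by
  have hJ := aroundLeft_bd c k
  have hJf : ∀ n, k + 1 ≤ n → Fits n (aroundLeft c k) ∧ out n (aroundLeft c k) = n := fun n hn =>
    ⟨(fits_crosses hJ hn).1, (fits_crosses hJ hn).2.1⟩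
  have hyJ : Good g m (fun w => y (aroundLeft c k ++ w)) := by
    have := hy.append (hJf m hk).1
    rwa [(hJf m hk).2] at this
  have hU : ∀ j, j ≤ m → Good g (m + 2) (fun w => y ((Kind.cup, j) :: w)) := fun j hj =>
    hy.cons Kind.cup j (by simpa [Kind.below] using hj)
  have hUJ : ∀ j, j ≤ m → Good g (m + 2) (fun w => y ((Kind.cup, j) :: (aroundLeft c k ++ w))) :=
    fun j hj => by
      have := (hU j hj).append (hJf (m + 2) (by omega)).1
      rwa [(hJf (m + 2) (by omega)).2] at this
  have hUJC : ∀ j, j ≤ m → Good g m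
      (fun w => y ((Kind.cup, j) :: (aroundLeft c k ++ (Kind.cap, k) :: w))) := fun j hj =>
    (hUJ j hj).cons Kind.cap k (by simp [Kind.below]; omega)
  -- expand the first crossing
  have e1 : ∀ w, y ((Kind.cup, k + 1) :: (Kind.cross c, k) :: w) =
      cf c • y ((Kind.cup, k + 1) :: w) + (cf c)⁻¹ • y ((Kind.cup, k) :: w) := by
    intro w
    have := (hU (k + 1) hk).kauffman c k (by omega) w
    rw [this, hy.zigzagL k hk]
  -- expand the second crossing
  have e2 : ∀ j, j ≤ m →
      y ((Kind.cup, j) :: (aroundLeft c k ++ (Kind.cross c, k) :: (Kind.cap, k + 1) :: v)) =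
      cf c • y ((Kind.cup, j) :: (aroundLeft c k ++ (Kind.cap, k + 1) :: v)) +
        (cf c)⁻¹ • y ((Kind.cup, j) :: (aroundLeft c k ++ (Kind.cap, k) :: v)) := by
    intro j hj
    have := (hUJ j hj).kauffman c k (by omega) ((Kind.cap, k + 1) :: v)
    rw [this]
    have := (hUJC j hj).zigzagR k hk v
    rw [this]
  have e3 : ∀ w, y ((Kind.cup, k + 1) :: (aroundLeft c k ++ w)) =
      y (aroundLeft c k ++ (Kind.cup, k + 1) :: w) := fun w =>
    (hy.comm_crosses hJ Kind.cup (by simpa [Kind.below] using hk) w).symm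
  have e4 : y ((Kind.cup, k) :: (aroundLeft c k ++ (Kind.cap, k + 1) :: v)) =
      y (aroundLeft c k ++ v) := by
    have := (hU k (by omega)).comm_crosses hJ Kind.cap (by simp [Kind.below]; omega) v
    rw [this, hy.zigzagR k hk]
  have e5 := hyJ.loop (k + 1) hk v
  have e6 := hyJ.zigzagL k hk v
  simp only [aroundLeft, List.cons_append, List.append_assoc, List.nil_append]
  rw [e1, e2 _ hk, e2 _ (by omega), e3, e3, e4, e5, e6, lp_eq c]
  have hx := cf_ne c
  simp only [smul_add, smul_smul]
  rw [← add_assoc, ← add_smul, ← add_smul]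
  congr 2
  · field_simp; ring
  · ring

theorem sphere_mem {g m i : ℕ} {y : Wd → QS g} (hy : Good g m y) (hi : 0 < i) (him : i ≤ m)
    (v : Wd) (N : Submodule FF (QS g))
    (hN : ∀ (x : Wd) (j : ℕ) (z : Wd), (∀ s ∈ x, s.1 ≠ Kind.hole) → (∀ s ∈ z, s.1 ≠ Kind.hole) →
      j < i → y (x ++ (Kind.hole, j) :: (z ++ v)) ∈ N) :
    y ((Kind.hole, i) :: v) ∈ N := by
  set v' : Wd := (Kind.hole, i) :: v with hv'
  have ha : ∀ (x : Wd) (k : ℕ), (∀ s ∈ x, s.1 ≠ Kind.hole) → Fits m x → out m x = m →
      k + 2 ≤ i → y (x ++ (Kind.cross true, k) :: v') - cf true • y (x ++ v') ∈ N := by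
    intro x k hx hf ho hk
    have hyx := hy.append hf
    rw [ho] at hyx
    have h1 := hyx.kauffman true k (by omega) v'
    have h2 := (hyx.cons Kind.cap k (by simp [Kind.below]; omega)).exchange Kind.cup Kind.hole k
      (i - 2) i (by simp) (by simp [Kind.below]; omega) (by simp [Kind.below, Kind.above]; omega)
      (by simp [Kind.below, Kind.above]; omega) v
    rw [h1, add_sub_cancel_left, hv', h2]
    refine N.smul_mem _ ?_
    have := hN (x ++ [(Kind.cap, k)]) (i - 2) [(Kind.cup, k)] (by
      intro s hs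
      rcases List.mem_append.mp hs with h | h
      · exact hx s h
      · simp at h; simp [h]) (by simp) (by omega)
    simpa using this
  have hc : ∀ (k : ℕ), k + 1 ≤ i → ∀ (x : Wd), (∀ s ∈ x, s.1 ≠ Kind.hole) → Fits m x →
      out m x = m → y (x ++ (aroundLeft true k ++ v')) - cf true ^ (2 * k) • y (x ++ v') ∈ N := by
    intro k
    induction k with
    | zero => intro _ x _ _ _; simp [aroundLeft]
    | succ k ih =>
      intro hk x hx hf ho
      obtain ⟨j1, j2, -⟩ := fits_crosses (aroundLeft_bd true k) (show k + 1 ≤ m by omega)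
      have hx1 : ∀ s ∈ x ++ [(Kind.cross true, k)], s.1 ≠ Kind.hole := by
        intro s hs
        rcases List.mem_append.mp hs with h | h
        · exact hx s h
        · simp at h; simp [h]
      have hf1 : Fits m (x ++ [(Kind.cross true, k)]) := by
        simp [fits_append, hf, ho, Kind.below]; omega
      have ho1 : out m (x ++ [(Kind.cross true, k)]) = m := by
        simp [out_append, ho, Kind.below, Kind.above]; omega
      have t1 := ha (x ++ [(Kind.cross true, k)] ++ aroundLeft true k) k (by
        intro s hs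
        rcases List.mem_append.mp hs with h | h
        · exact hx1 s h
        · simp [(mem_aroundLeft h).1]) (by rw [fits_append, ho1]; exact ⟨hf1, j1⟩)
        (by rw [out_append, ho1, j2]) (by omega)
      have t2 := ih (by omega) _ hx1 hf1 ho1
      have t3 := ha x k hx hf ho (by omega)
      have := N.add_mem t1 (N.smul_mem (cf true) (N.add_mem t2
        (N.smul_mem (cf true ^ (2 * k)) t3)))
      simp only [aroundLeft, List.cons_append, List.append_assoc, List.nil_append, smul_add,
        smul_sub, smul_smul] at this ⊢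
      rw [show cf true ^ (2 * (k + 1)) = cf true * (cf true ^ (2 * k) * cf true) by ring]
      convert this using 1
      abel
  have hd : ∀ (k : ℕ), k ≤ i →
      y ((Kind.cup, k) :: (aroundLeft true k ++ (Kind.cap, k) :: v')) - lam k • y v' ∈ N := by
    intro k
    induction k with
    | zero =>
      intro _
      simp only [aroundLeft, List.nil_append]
      rw [hy.loop 0 (Nat.zero_le _), lp_eq true]
      simp [lam]
    | succ k ih =>
      intro hk
      rw [circle_rec hy true k (by omega)]
      have t1 := hc k hk [] (by simp) trivial rfl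
      have t2 := ih (by omega)
      have := N.add_mem (N.smul_mem (1 - cf true ^ 4) t1) (N.smul_mem ((cf true)⁻¹ ^ 2) t2)
      have e : lam (k + 1) = (1 - cf true ^ 4) * cf true ^ (2 * k) + (cf true)⁻¹ ^ 2 * lam k := by
        have hx := cf_ne true
        simp only [lam, inv_pow]
        field_simp
        ring
      simp only [List.nil_append, smul_sub, smul_smul] at this
      rw [e, add_smul]
      have e2 : ∀ a b c d : QS g, a + b - (c + d) = a - c + (b - d) := fun a b c d => by abel
      rw [e2]
      exact this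
  have h1 := hd i le_rfl
  have h2 := (hy.cons Kind.cup i (by simpa [Kind.below] using him)).slide true i
    (by simp [Kind.below, Kind.above]; omega) v
  rw [hv', ← h2, hy.loop i him, ← sub_smul] at h1
  have h3 := N.smul_mem (lp - lam i)⁻¹ h1
  rw [smul_smul, inv_mul_cancel₀ (fun h => lam_ne i hi (by linear_combination -h)), one_smul] at h3
  exact h3

theorem val_mem (g : ℕ) (w : Wd) : val g w ∈ NN g := by
  induction hn : hm w using Nat.strong_induction_on generalizing w with
  | _ n ih =>
    by_cases h : ∀ s ∈ w, s.1 = Kind.hole → s.2 = 0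
    · simpa using holes_zero_mem g w h 0 [] (by simp)
    · push Not at h
      obtain ⟨⟨k, i⟩, hs, hk, hi⟩ := h
      simp only at hk hi
      subst hk
      obtain ⟨u, v, rfl⟩ := List.append_of_mem hs
      by_cases hf : Fits 0 (u ++ (Kind.hole, i) :: v)
      swap
      · unfold val
        rw [dif_neg (fun h => hf h.1)]
        exact Submodule.zero_mem _
      rw [fits_append, fits_cons] at hf
      refine sphere_mem (y := fun w => val g (u ++ w)) ⟨u, hf.1, rfl, rfl⟩ (Nat.pos_of_ne_zero hi)
        (by simpa [Kind.below] using hf.2.1) v (NN g) ?_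
      intro x j z hx hz hj
      refine ih _ ?_ _ rfl
      rw [← hn]
      simp only [hm_append, hm_cons, hm_holefree hx, hm_holefree hz, if_true]
      omega

theorem isBracket_iff {g : ℕ} (D : Diagram g) (f : FF) : IsBracket D f ↔ f = Zs D.word := by
  refine ⟨Zs_of_isBracket, ?_⟩
  have h := val_mem g D.word
  unfold val NN at h
  rw [dif_pos D.valid, Submodule.mem_span_singleton] at h
  obtain ⟨a, ha⟩ := h
  have hb : IsBracket D a := by
    unfold IsBracket
    rw [← Submodule.Quotient.mk_eq_zero, ← Submodule.mkQ_apply, map_sub, mkQ_single _ a, ha]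
    exact sub_self _
  rintro rfl
  rwa [← Zs_of_isBracket hb]

end Pool.Agent.Lib.MP_70b928_gt
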