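import Pool.Agent.Lib.MP_70b928_gt.Span

set_option autoImplicit false
set_option linter.unusedSimpArgs false
set_option linter.unusedTactic false

namespace Pool.Agent.Lib.MP_70b928_gt

/-- labels of the gaps at level `t`, the gap born in slice `t` getting the label `β t` -/
def traj {α : Type} (w : Wd) (h : ℕ → α) (β : ℕ → α) : ℕ → ℕ → α
  | 0 => h
  | t + 1 => step (sl w t) (β t) (traj w h β t)

theorem traj_cons {α : Type} (s : Kind × ℕ) (w : Wd) (h β : ℕ → α) (t : ℕ) :
    traj (s :: w) h β (t + 1) = traj w (step s (β 0) h) (fun u => β (u + 1)) t := by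
  induction t with
  | zero => simp [traj, sl]
  | succ t ih => rw [traj, ih]; simp [traj, sl]

def Adm (w : Wd) (h β : ℕ → ℕ) : Prop := ∀ t < w.length, β t ∈ opts (sl w t) (traj w h β t)

theorem adm_cons (s : Kind × ℕ) (w : Wd) (h β : ℕ → ℕ) :
    Adm (s :: w) h β ↔ β 0 ∈ opts s h ∧ Adm w (step s (β 0) h) (fun u => β (u + 1)) := by
  constructor
  · intro H
    refine ⟨by simpa [sl, traj] using H 0 (by simp), fun t ht => ?_⟩
    have := H (t + 1) (by simpa using ht)
    rw [traj_cons] at this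
    simpa [sl] using this
  · rintro ⟨h0, H⟩ t ht
    cases t with
    | zero => simpa [sl, traj] using h0
    | succ t =>
      rw [traj_cons]
      simpa [sl] using H t (by simpa using ht)

noncomputable def dsum (δ : DegFun) (w : Wd) (h β : ℕ → ℕ) : ℤ :=
  ∑ t ∈ Finset.range w.length, δ.d (lw (sl w t) (traj w h β t) (β t))

theorem dsum_cons (δ : DegFun) (s : Kind × ℕ) (w : Wd) (h β : ℕ → ℕ) :
    dsum δ (s :: w) h β =
      δ.d (lw s h (β 0)) + dsum δ w (step s (β 0) h) (fun u => β (u + 1)) := by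
  unfold dsum
  rw [List.length_cons, Finset.sum_range_succ', add_comm]
  simp only [traj_cons]
  simp [sl, traj]

/-- degree of the symmetric crossing weight; `p, p'` are the two primary heights and `q, q'` the
two secondary ones -/
def tau (p p' q q' : ℕ) : ℤ :=
  1 - 2 * (max p p' : ℕ) - if p = p' ∧ q = q' ∧ p = q + 1 then 4 * (p : ℤ) else 0

theorem d_neg_one_pow (δ : DegFun) (n : ℕ) : δ.d ((-1) ^ n) = 0 := by
  rw [δ.d_pow _ (by simp), δ.d_neg_one, mul_zero]

theorem lw_cross (δ : DegFun) (c : Bool) (i : ℕ) {h : ℕ → ℕ} (hp : IsPath h) {b : ℕ}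
    (hb : b ∈ opts (Kind.cross c, i) h) :
    lw (Kind.cross c, i) h b ≠ 0 ∧ δ.d (lw (Kind.cross c, i) h b) = 2 * b +
      if δ.d (cf c) = 1 then tau (h (i + 1)) b (h i) (h (i + 2))
      else tau (h i) (h (i + 2)) (h (i + 1)) b := by
  have h1 := hp.2 i
  have h2 := hp.2 (i + 1)
  rw [show i + 1 + 1 = i + 2 from rfl] at h2
  simp only [opts, Finset.mem_inter, mem_nb] at hb
  simp only [lw]
  have hx := cf_ne c
  have hs : δ.d (cf c) = 1 ∨ δ.d (cf c) = -1 := by
    rw [δ.d_cf]
    rcases δ.heps with e | e <;> cases c <;> simp [e]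
  generalize h i = a at *
  generalize h (i + 1) = m at *
  generalize h (i + 2) = a' at *
  have hq := qd_ne a
  have hqi : (qd a)⁻¹ ≠ 0 := inv_ne_zero hq
  have hxi : (cf c)⁻¹ ≠ 0 := inv_ne_zero hx
  have hm1 : ∀ n : ℕ, (-1 : FF) ^ n ≠ 0 := fun n => pow_ne_zero _ (by simp)
  by_cases haa : a = a'
  · subst haa
    by_cases hbm : b = m
    · subst hbm
      simp only [if_true]
      rcases h1 with h1 | h1
      · subst h1
        have e1 : cf c + (cf c)⁻¹ * qd (a + 1) * (qd a)⁻¹ =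
            (-1) ^ (a + 1) * (cf c)⁻¹ ^ (2 * a + 3) * (qd a)⁻¹ := by
          rw [← qd_rel c a]; field_simp
        rw [e1]
        refine ⟨mul_ne_zero (mul_ne_zero (hm1 _) (pow_ne_zero _ hxi)) hqi, ?_⟩
        rw [δ.mul _ _ (mul_ne_zero (hm1 _) (pow_ne_zero _ hxi)) hqi,
          δ.mul _ _ (hm1 _) (pow_ne_zero _ hxi), d_neg_one_pow, δ.d_pow _ hxi, δ.d_inv _ hx,
          δ.d_inv _ hq, δ.d_qd]
        rcases hs with hs | hs <;> simp only [hs, tau, Nat.max_def, true_and, and_true, if_true] <;> split_ifs <;>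
          push_cast <;> first | omega | contradiction
      · subst h1
        have e1 : cf c + (cf c)⁻¹ * qd b * (qd (b + 1))⁻¹ =
            (-1) ^ (b + 1) * (cf c) ^ (2 * b + 3) * (qd (b + 1))⁻¹ := by
          rw [← qd_rel' c b]; field_simp; ring
        rw [e1]
        refine ⟨mul_ne_zero (mul_ne_zero (hm1 _) (pow_ne_zero _ hx)) hqi, ?_⟩
        rw [δ.mul _ _ (mul_ne_zero (hm1 _) (pow_ne_zero _ hx)) hqi,
          δ.mul _ _ (hm1 _) (pow_ne_zero _ hx), d_neg_one_pow, δ.d_pow _ hx,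
          δ.d_inv _ hq, δ.d_qd]
        rcases hs with hs | hs <;> simp only [hs, tau, Nat.max_def, true_and, and_true, if_true] <;> split_ifs <;>
          push_cast <;> first | omega | contradiction
    · simp only [if_neg hbm, if_true, zero_add]
      refine ⟨mul_ne_zero (mul_ne_zero hxi (qd_ne _)) hqi, ?_⟩
      rw [δ.mul _ _ (mul_ne_zero hxi (qd_ne _)) hqi, δ.mul _ _ hxi (qd_ne _), δ.d_inv _ hx,
        δ.d_inv _ hq, δ.d_qd, δ.d_qd]
      rcases hs with hs | hs <;> simp only [hs, tau, Nat.max_def, true_and, and_true, if_true] <;> split_ifs <;>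
          push_cast <;> first | omega | contradiction
  · have hbm : b = m := by omega
    subst hbm
    simp only [if_neg haa, if_true, add_zero]
    refine ⟨hx, ?_⟩
    rcases hs with hs | hs <;> simp only [hs, tau, Nat.max_def, true_and, and_true, if_true] <;> split_ifs <;>
          push_cast <;> first | omega | contradiction

theorem lw_ne {s : Kind × ℕ} {h : ℕ → ℕ} (hp : IsPath h) {b : ℕ} (hb : b ∈ opts s h) :
    lw s h b ≠ 0 := by
  obtain ⟨k, i⟩ := s
  cases k with
  | cup => exact qd_ne _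
  | cap => exact inv_ne_zero (qd_ne _)
  | cross c => exact (lw_cross topDeg c i hp hb).1
  | hole => exact one_ne_zero

theorem Zraw_lt (δ : DegFun) (w : Wd) (h : ℕ → ℕ) (hp : IsPath h) (N : ℤ)
    (H : ∀ β, Adm w h β → dsum δ w h β < N) : δ.Lt (Zraw w h) N := by
  induction w generalizing h N with
  | nil =>
    right
    have := H (fun _ => 0) (fun t ht => by simp at ht)
    simpa [dsum, Zraw, δ.d_one] using this
  | cons s w ih =>
    rw [Zraw, Traw]
    refine DegFun.Lt.sum _ _ fun b hb => DegFun.Lt.mul_left (lw_ne hp hb) ?_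
    refine ih _ (hp.step hb) _ fun β hβ => ?_
    have := H (fun u => Nat.casesOn u b β) ((adm_cons _ _ _ _).mpr ⟨hb, hβ⟩)
    rw [dsum_cons] at this
    simp only [Nat.rec_zero] at this
    change _ + dsum δ w (step s b h) β < N at this
    omega

theorem Zraw_exact (δ : DegFun) (w : Wd) (h : ℕ → ℕ) (hp : IsPath h) (β₀ : ℕ → ℕ)
    (h₀ : Adm w h β₀)
    (H : ∀ β, Adm w h β → (∃ t < w.length, β t ≠ β₀ t) → dsum δ w h β < dsum δ w h β₀) :
    Zraw w h ≠ 0 ∧ δ.d (Zraw w h) = dsum δ w h β₀ := by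
  induction w generalizing h β₀ with
  | nil => simp [dsum, Zraw, δ.d_one]
  | cons s w ih =>
    obtain ⟨hb₀, hβ₀⟩ := (adm_cons _ _ _ _).mp h₀
    have h1 := ih _ (hp.step hb₀) _ hβ₀ (fun β hβ ⟨t, ht, hne⟩ => by
      have := H (fun u => Nat.casesOn u (β₀ 0) β) ((adm_cons _ _ _ _).mpr ⟨hb₀, hβ⟩)
        ⟨t + 1, by simpa using ht, hne⟩
      rw [dsum_cons, dsum_cons] at this
      change _ + dsum δ w (step s (β₀ 0) h) β < _ at this
      simp only [Nat.rec_zero] at this
      omega)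
    rw [Zraw, Traw, ← Finset.add_sum_erase _ _ hb₀]
    have hne := mul_ne_zero (lw_ne hp hb₀) h1.1
    have hd : δ.d (lw s h (β₀ 0) * Zraw w (step s (β₀ 0) h)) = dsum δ (s :: w) h β₀ := by
      rw [δ.mul _ _ (lw_ne hp hb₀) h1.1, h1.2, dsum_cons]
    rw [← hd]
    refine DegFun.add_of_lt hne (DegFun.Lt.sum _ _ fun b hb => ?_)
    obtain ⟨hbne, hb⟩ := Finset.mem_erase.mp hb
    refine DegFun.Lt.mul_left (lw_ne hp hb) (Zraw_lt δ _ _ (hp.step hb) _ fun β hβ => ?_)
    have := H (fun u => Nat.casesOn u b β) ((adm_cons _ _ _ _).mpr ⟨hb, hβ⟩) ⟨0, by simp, hbne⟩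
    rw [dsum_cons] at this
    change _ + dsum δ w (step s b h) β < _ at this
    simp only [Nat.rec_zero] at this
    omega

end Pool.Agent.Lib.MP_70b928_gt
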